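import Pool.Agent.Lib.P0036f5b.Mark

/-!
# B10a: the information bits and acceptance

Follows `P0036f5k/BitsA.lean` (`sl_pos`, `sl_add`, `eval_aR`, `eval_rT`, `eval_fT`), with
`RB S k w B t = {y | y.1 ≤ k ∧ Pt S w 0 (t * B) (ini S) y}`.
* one block: `(Z.stT r x y).eval v = true ↔ Pt Z.S w (t * B) B x y` for `y.1 ≤ k`
  (`mkT_sound`, `mkT_complete` with `lo = 0`, `hi = B ≤ r`, `y.1 ≤ k < 2 ^ d ≤ x.1 + 2 ^ d`;
  `pt_drop`).
* `rT`, `B ≤ r`: `RB … (t + 1)` from `RB … t` by `pt_add` (`(t + 1) * B = t * B + B`) and `pt_count`;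
  `r < B`: `t = 0`, `RB … 0 = {y | y.1 ≤ k ∧ Sle (ini S) y}` (`(Z.info x).1 ≤ k` by `Ok.hi`).
* `fT`: `w ∈ Lb S k` iff there are `x ∈ RB … t` and `z` with `Pt Z.S w (t * B) r x z`, `z.1 ≤ k`, `Ac S z`
  (`pt_add`, `w.length = t * B + r`, `pt_count`).
-/

set_option autoImplicit false

namespace Pool.Agent.P0036f5b

open Relation Pool.Agent.P0036f5v2 Pool.Agent.P0036f5w Pool.Agent.P0036f5g Pool.Agent.P0036f5k
  Classical

variable {A Q M : Type}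

namespace BitsAAux

theorem sl_pos {Z : PB A Q M} (hZ : Z.Ok) : 0 < Z.sl := by
  have := hZ.hK
  show 0 < (Z.mx + 1) * (Z.K * Z.K)
  positivity

theorem sl_add {Z : PB A Q M} (hZ : Z.Ok) : Z.sl + Z.N ≤ Z.bl := by
  have h1 := sl_pos hZ
  have h2 : (Z.N + 1) * Z.sl ≤ 2 ^ Z.mx * Z.sl := Nat.mul_le_mul_right _ hZ.hN
  have h3 : Z.N * 1 ≤ Z.N * Z.sl := Nat.mul_le_mul_left _ h1
  have h4 : (Z.N + 1) * Z.sl = Z.N * Z.sl + Z.sl := by ring
  show Z.sl + Z.N ≤ 2 ^ Z.mx * Z.sl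
  omega

/-- one more block -/
theorem RB_succ {S : FS A Q M} {k : ℕ} {w : List A} {B t : ℕ} {y : Inf Q} :
    y ∈ RB S k w B (t + 1) ↔ y.1 ≤ k ∧ ∃ x ∈ RB S k w B t, Pt S w (t * B) B x y := by
  unfold RB
  rw [Set.mem_ofPred_eq, Nat.add_mul, Nat.one_mul, pt_add, Nat.zero_add]
  constructor
  · rintro ⟨h1, z, h2, h3⟩
    exact ⟨h1, z, ⟨(pt_count h3).trans h1, h2⟩, h3⟩
  · rintro ⟨h1, z, ⟨_, h2⟩, h3⟩
    exact ⟨h1, z, h2, h3⟩

/-- acceptance with the informations after `t` blocks -/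
theorem mem_Lb_iff {S : FS A Q M} {k : ℕ} {w : List A} {B t r : ℕ} (hw : w.length = t * B + r) :
    w ∈ Lb S k ↔ ∃ x ∈ RB S k w B t, ∃ z : Inf Q, Pt S w (t * B) r x z ∧ z.1 ≤ k ∧ Ac S z := by
  unfold Lb RB
  constructor
  · rintro ⟨z, h1, h2, h3⟩
    rw [hw, pt_add, Nat.zero_add] at h1
    obtain ⟨x, h4, h5⟩ := h1
    exact ⟨x, ⟨(pt_count h5).trans h2, h4⟩, z, h5, h2, h3⟩
  · rintro ⟨x, ⟨_, h4⟩, z, h5, h2, h3⟩
    refine ⟨z, ?_, h2, h3⟩
    rw [hw, pt_add, Nat.zero_add]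
    exact ⟨x, h4, h5⟩

/-- reading an information bit -/
theorem eval_aR {Z : PB A Q M} (hZ : Z.Ok) {w : List A} {t r : ℕ} {v : ℕ → Sy A}
    (hr : Z.bl ≤ r) (hv : Z.Vw w (t * Z.bl) r v) {x : ℕ} (hx : x < Z.N) :
    (PB.aR (r - (Z.sl + x)) : DT (Sy A)).eval v = true ↔
      Z.info x ∈ RB Z.S Z.k w Z.bl t := by
  have h1 := sl_add hZ
  obtain ⟨c, -, h2⟩ := hv (Z.sl + x) (by omega)
  have h3 : (PB.aR (r - (Z.sl + x)) : DT (Sy A)).eval v =
      (Z.note w (t * Z.bl + (Z.sl + x))).1 := by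
    show (DT.ret (match v (r - (Z.sl + x)) with
      | some (_, b) => b.1
      | none => false)).eval v = _
    rw [h2]
    rfl
  rw [h3]
  have h4 : (t * Z.bl + (Z.sl + x)) % Z.bl = Z.sl + x := by
    rw [Nat.mul_comm, Nat.mul_add_mod]
    exact Nat.mod_eq_of_lt (by omega)
  have h5 : (t * Z.bl + (Z.sl + x)) / Z.bl = t := by
    rw [Nat.mul_comm, Nat.mul_add_div (by omega)]
    rw [Nat.div_eq_of_lt (by omega), Nat.add_zero]
  show decide (Z.rbit w (t * Z.bl + (Z.sl + x))) = true ↔ _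
  rw [decide_eq_true_iff]
  unfold PB.rbit
  rw [h4, h5]
  have h6 : Z.sl + x - Z.sl = x := by omega
  rw [h6]
  constructor
  · exact fun h => h.2.2
  · exact fun h => ⟨by omega, hx, h⟩

/-- a segment at the start of the region -/
theorem eval_mk0 {Z : PB A Q M} (hZ : Z.Ok) {w : List A} {t r n : ℕ} {v : ℕ → Sy A}
    (hr : r < 2 * Z.bl) (hw : t * Z.bl + r ≤ w.length) (hv : Z.Vw w (t * Z.bl) r v)
    (hn : n ≤ r) {x y : Inf Q} (hy : y.1 ≤ Z.k) :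
    (Z.mkT r Z.d 0 n x y).eval v = true ↔ Pt Z.S w (t * Z.bl) n x y := by
  have e : Pt Z.S (w.drop (t * Z.bl)) 0 (n - 0) x y ↔ Pt Z.S w (t * Z.bl) n x y := by
    rw [pt_drop, Nat.add_zero, Nat.sub_zero]
  rw [← e]
  constructor
  · exact PB.mkT_sound hZ hv hr hw _ _ _ _ _ (Nat.zero_le _) hn
  · intro h
    refine PB.mkT_complete hZ hv hr hw _ _ _ _ _ (Nat.zero_le _) hn h ?_ hy
    have := hZ.hd
    omega

/-- acceptance from an information -/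
theorem eval_acT {Z : PB A Q M} (hZ : Z.Ok) {w : List A} {t r : ℕ} {v : ℕ → Sy A}
    (hr : r < 2 * Z.bl) (hw : t * Z.bl + r ≤ w.length) (hv : Z.Vw w (t * Z.bl) r v)
    (x : Inf Q) :
    (Z.acT r x).eval v = true ↔
      ∃ z : Inf Q, Pt Z.S w (t * Z.bl) r x z ∧ z.1 ≤ Z.k ∧ Ac Z.S z := by
  unfold PB.acT
  rw [DT.eval_orN]
  constructor
  · rintro ⟨z, hz, h⟩
    by_cases h1 : Ac Z.S (Z.info z)
    · rw [if_pos h1] at h
      exact ⟨Z.info z, (eval_mk0 hZ hr hw hv le_rfl (hZ.hi z)).1 h, hZ.hi z, h1⟩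
    · rw [if_neg h1] at h
      exact absurd h (by simp [DT.eval])
  · rintro ⟨y, h1, h2, h3⟩
    obtain ⟨z, hz, rfl⟩ := hZ.hinfo y h2
    refine ⟨z, hz, ?_⟩
    rw [if_pos h3]
    exact (eval_mk0 hZ hr hw hv le_rfl h2).2 h1

end BitsAAux

open BitsAAux

namespace PB

theorem eval_rT {Z : PB A Q M} (hZ : Z.Ok) {w : List A} {t r : ℕ} {v : ℕ → Sy A}
    (hr : r < 2 * Z.bl) (ht : t = 0 ∨ Z.bl ≤ r) (hw : t * Z.bl + r ≤ w.length)
    (hv : Z.Vw w (t * Z.bl) r v) :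
    (Z.rT r).eval v = true ↔ Z.rbit w (t * Z.bl + r) := by
  have hadd := sl_add hZ
  have hsl := sl_pos hZ
  unfold rT
  by_cases h1 : r < Z.bl
  · rw [if_pos h1]
    have h0 : t = 0 := ht.resolve_right (by omega)
    subst h0
    show decide _ = true ↔ _
    rw [decide_eq_true_iff]
    unfold rbit
    rw [Nat.zero_mul, Nat.zero_add, Nat.mod_eq_of_lt h1, Nat.div_eq_of_lt h1]
    have h2 : Z.info (r - Z.sl) ∈ RB Z.S Z.k w Z.bl 0 ↔ Z.st0 (r - Z.sl) := by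
      unfold RB st0
      rw [Set.mem_ofPred_eq, Nat.zero_mul]
      exact ⟨fun h => h.2, fun h => ⟨hZ.hi _, h⟩⟩
    rw [h2]
  · rw [if_neg h1]
    have h4 : (t * Z.bl + r) % Z.bl = r - Z.bl := by
      rw [show t * Z.bl + r = Z.bl * (t + 1) + (r - Z.bl) by
        rw [Nat.mul_add, Nat.mul_comm Z.bl t]; omega, Nat.mul_add_mod]
      exact Nat.mod_eq_of_lt (by omega)
    have h5 : (t * Z.bl + r) / Z.bl = t + 1 := by
      rw [show t * Z.bl + r = Z.bl * (t + 1) + (r - Z.bl) by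
        rw [Nat.mul_add, Nat.mul_comm Z.bl t]; omega, Nat.mul_add_div (by omega),
        Nat.div_eq_of_lt (by omega), Nat.add_zero]
    unfold rbit
    rw [h4, h5]
    by_cases h2 : Z.sl ≤ r - Z.bl ∧ r - Z.bl - Z.sl < Z.N
    · rw [if_pos h2, DT.eval_orN, RB_succ]
      constructor
      · rintro ⟨x, hx, h3⟩
        rw [DT.eval_and, Bool.and_eq_true] at h3
        exact ⟨h2.1, h2.2, hZ.hi _, Z.info x, (eval_aR hZ (by omega) hv hx).1 h3.1,
          (eval_mk0 hZ hr hw hv (by omega) (hZ.hi _)).1 h3.2⟩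
      · rintro ⟨-, -, -, y, hy, h3⟩
        obtain ⟨x, hx, rfl⟩ := hZ.hinfo y hy.1
        refine ⟨x, hx, ?_⟩
        rw [DT.eval_and, Bool.and_eq_true]
        exact ⟨(eval_aR hZ (by omega) hv hx).2 hy,
          (eval_mk0 hZ hr hw hv (by omega) (hZ.hi _)).2 h3⟩
    · rw [if_neg h2]
      constructor
      · intro h
        exact absurd h (by simp [DT.eval])
      · rintro ⟨h3, h4, -⟩
        exact absurd ⟨h3, h4⟩ h2

theorem eval_fT {Z : PB A Q M} (hZ : Z.Ok) {w : List A} {t r : ℕ} {v : ℕ → Sy A}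
    (hr : r < 2 * Z.bl) (ht : t = 0 ∨ Z.bl ≤ r) (hv : Z.Vw w (t * Z.bl) r v)
    (hw : w.length = t * Z.bl + r) :
    (Z.fT r).eval v = true ↔ w ∈ Lb Z.S Z.k := by
  have hadd := sl_add hZ
  have hsl := sl_pos hZ
  rw [mem_Lb_iff hw]
  unfold fT
  by_cases h1 : r < Z.bl
  · rw [if_pos h1, DT.eval_orN]
    have h0 : t = 0 := ht.resolve_right (by omega)
    subst h0
    constructor
    · rintro ⟨x, hx, h3⟩
      by_cases h4 : Z.st0 x
      · rw [if_pos h4] at h3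
        refine ⟨Z.info x, ⟨hZ.hi x, ?_⟩, (eval_acT hZ hr hw.ge hv _).1 h3⟩
        rw [Nat.zero_mul]
        exact h4
      · rw [if_neg h4] at h3
        exact absurd h3 (by simp [DT.eval])
    · rintro ⟨y, hy, h3⟩
      obtain ⟨x, hx, rfl⟩ := hZ.hinfo y hy.1
      have h4 : Z.st0 x := by
        have h5 := hy.2
        rw [Nat.zero_mul] at h5
        exact h5
      refine ⟨x, hx, ?_⟩
      rw [if_pos h4]
      exact (eval_acT hZ hr hw.ge hv _).2 h3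
  · rw [if_neg h1, DT.eval_orN]
    constructor
    · rintro ⟨x, hx, h3⟩
      rw [DT.eval_and, Bool.and_eq_true] at h3
      exact ⟨Z.info x, (eval_aR hZ (by omega) hv hx).1 h3.1, (eval_acT hZ hr hw.ge hv _).1 h3.2⟩
    · rintro ⟨y, hy, h3⟩
      obtain ⟨x, hx, rfl⟩ := hZ.hinfo y hy.1
      refine ⟨x, hx, ?_⟩
      rw [DT.eval_and, Bool.and_eq_true]
      exact ⟨(eval_aR hZ (by omega) hv hx).2 hy, (eval_acT hZ hr hw.ge hv _).2 h3⟩

end PB

end Pool.Agent.P0036f5b
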