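import Pool.Agent.Lib.P0036f5b.TreeB

/-!
# B10c: cost and range of the trees of the program

The same as `P0036f5k/BitsC.lean` with `mB`, `zB`, `TB'` of this directory:
`nd (rT) ≤ N (1 + mB d)`, `nd (tT) ≤ cK 2 mx K κ`, `nd (fT) ≤ N (1 + N mB d)` (`acT` costs
`N * mB d`).
-/

set_option autoImplicit false

namespace Pool.Agent.P0036f5b

open Relation Pool.Agent.P0036f5v2 Pool.Agent.P0036f5w Pool.Agent.P0036f5g Pool.Agent.P0036f5k
  Classical

variable {A Q M : Type}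

namespace BitsCAux

theorem sl_pos {Z : PB A Q M} (hZ : Z.Ok) : 0 < Z.sl := by
  have := hZ.hK
  show 0 < (Z.mx + 1) * (Z.K * Z.K)
  positivity

theorem sl_add {Z : PB A Q M} (hZ : Z.Ok) : Z.sl + Z.N ≤ Z.bl := by
  have h1 := sl_pos hZ
  have h2 : (Z.N + 1) * Z.sl ≤ 2 ^ Z.mx * Z.sl := Nat.mul_le_mul_right _ hZ.hN
  have h3 : Z.N * 1 ≤ Z.N * Z.sl := Nat.mul_le_mul_left _ h1
  have h4 : (Z.N + 1) * Z.sl = Z.N * Z.sl + Z.sl := by ring
  show Z.sl + Z.N ≤ 2 ^ Z.mx * Z.sl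
  omega

theorem within_aR {d r : ℕ} (h1 : 1 ≤ d) (h2 : d ≤ r) : (PB.aR d : DT (Sy A)).Within r :=
  ⟨h1, h2, fun _ => trivial⟩

theorem nd_ask_ret_le {α : Type} (d : ℕ) (f : α → Bool) :
    (DT.ask d fun g => DT.ret (f g)).nd ≤ 1 := by
  have h : (DT.ask d fun g => DT.ret (f g)).asks = {DT.ask d fun g => DT.ret (f g)} := by
    ext u
    simp [DT.asks]
  unfold DT.nd
  rw [h, Set.ncard_singleton]

theorem nd_aR_le (d : ℕ) : (PB.aR d : DT (Sy A)).nd ≤ 1 := nd_ask_ret_le d _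

/-- the pieces for the table bits -/
theorem val_tT {Z : PB A Q M} (hZ : Z.Ok) {r : ℕ} (h0 : 0 < r / Z.sl)
    (h1 : 2 ^ (r % Z.sl / (Z.K * Z.K)) ∣ r / Z.sl) :
    ∀ p ∈ (match r % Z.sl / (Z.K * Z.K) with
        | 0 => (List.range Z.sl).map fun c => Pc.raw ((r / Z.sl - 1) * Z.sl + c)
        | s + 1 => [Pc.blk s (r / Z.sl - 2 ^ s), Pc.blk s (r / Z.sl)]),
      Val (fun _ => none : ℕ → Option Unit) Z.sl Z.K Z.mx r p := by
  have hsl := sl_pos hZ
  have hdm := Nat.div_add_mod r Z.sl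
  have hlt := Nat.mod_lt r hsl
  have hKK : 0 < Z.K * Z.K := Nat.mul_pos hZ.hK hZ.hK
  generalize hu : r / Z.sl = u at *
  generalize hm : r % Z.sl = m at *
  have hmul : Z.sl * u = u * Z.sl := Nat.mul_comm _ _
  intro p hp
  rcases hs : m / (Z.K * Z.K) with _ | s
  · rw [hs] at hp
    simp only [List.mem_map, List.mem_range] at hp
    obtain ⟨c, hc, rfl⟩ := hp
    show (u - 1) * Z.sl + c < r
    obtain ⟨u', rfl⟩ : ∃ u', u = u' + 1 := ⟨u - 1, by omega⟩
    have : (u' + 1) * Z.sl = u' * Z.sl + Z.sl := by ring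
    simp only [Nat.add_sub_cancel]
    omega
  · rw [hs] at hp h1
    have hsm : s + 1 < Z.mx + 1 := by
      have h2 : (s + 1) * (Z.K * Z.K) ≤ m := by
        rw [← hs]
        exact Nat.div_mul_le_self _ _
      have h3 : m < (Z.mx + 1) * (Z.K * Z.K) := hlt
      exact Nat.lt_of_mul_lt_mul_right (h2.trans_lt h3)
    have h2 : (s + 1) * (Z.K * Z.K) ≤ m := by
      rw [← hs]
      exact Nat.div_mul_le_self _ _
    have hpow : 2 ^ (s + 1) = 2 ^ s + 2 ^ s := by ring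
    have hle : 2 ^ (s + 1) ≤ u := Nat.le_of_dvd h0 h1
    have hp0 : 0 < 2 ^ s := by positivity
    have hd : 2 ^ s ∣ u := (pow_dvd_pow 2 (Nat.le_succ s)).trans h1
    simp only [List.mem_cons, List.not_mem_nil, or_false] at hp
    rcases hp with rfl | rfl
    · refine ⟨by omega, Nat.dvd_sub hd dvd_rfl, by omega, ?_, fun _ _ _ => rfl⟩
      have h3 : (s + 1) * (Z.K * Z.K) ≤ Z.sl := by
        show _ ≤ (Z.mx + 1) * (Z.K * Z.K)
        exact Nat.mul_le_mul_right _ (by omega)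
      have h4 : (u - 2 ^ s) * Z.sl + Z.sl ≤ u * Z.sl := by
        have : (u - 2 ^ s + 1) * Z.sl ≤ u * Z.sl := Nat.mul_le_mul_right _ (by omega)
        rw [Nat.add_mul, Nat.one_mul] at this
        exact this
      omega
    · exact ⟨by omega, hd, by omega, by omega, fun _ _ _ => rfl⟩

/-- the number of pieces for the table bits -/
theorem length_tT (Z : PB A Q M) (r : ℕ) :
    (match r % Z.sl / (Z.K * Z.K) with
        | 0 => (List.range Z.sl).map fun c => Pc.raw ((r / Z.sl - 1) * Z.sl + c)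
        | s + 1 => [Pc.blk s (r / Z.sl - 2 ^ s), Pc.blk s (r / Z.sl)]).length ≤
      LK 2 Z.mx Z.K := by
  have h1 : Z.sl ≤ LK 2 Z.mx Z.K := by
    unfold LK
    show ℓK Z.mx Z.K ≤ _
    have : 1 * (Z.mx + ℓK Z.mx Z.K) ≤ 2 * (2 + 2) * (Z.mx + ℓK Z.mx Z.K) :=
      Nat.mul_le_mul_right _ (by omega)
    omega
  have h2 : 2 ≤ LK 2 Z.mx Z.K := by
    unfold LK
    omega
  split
  · simpa using h1
  · simpa using h2

theorem within_acT {Z : PB A Q M} (hZ : Z.Ok) {r : ℕ} (x : Inf Q) : (Z.acT r x).Within r := by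
  unfold PB.acT
  refine DT.within_orN _ _ fun z _ => ?_
  split_ifs
  · exact PB.within_mkT hZ _ _ _ _ _ _ le_rfl
  · trivial

theorem nd_acT_le [Finite A] {Z : PB A Q M} (hZ : Z.Ok) (r : ℕ) (x : Inf Q) :
    (Z.acT r x).nd ≤ Z.N * mB Z.k Z.mx Z.K Z.κ Z.μ Z.d := by
  unfold PB.acT
  refine DT.nd_orN_le _ _ _ fun z _ => ?_
  split_ifs
  · exact PB.nd_mkT_le hZ _ _ _ _ _ _
  · rw [DT.nd_ret]
    exact Nat.zero_le _

end BitsCAux

open BitsCAux

namespace PB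

theorem within_rT {Z : PB A Q M} (hZ : Z.Ok) {r : ℕ} (_hr : r < 2 * Z.bl) :
    (Z.rT r).Within r := by
  unfold rT
  split_ifs with h1 h2
  · trivial
  · have h3 := sl_add hZ
    refine DT.within_orN _ _ fun x hx => DT.within_and (within_aR (by omega) (by omega)) ?_
    exact within_mkT hZ _ _ _ _ _ _ (by omega)
  · trivial

theorem within_tT {Z : PB A Q M} (hZ : Z.Ok) {r : ℕ} (_hr : r < 2 * Z.bl) :
    (Z.tT r).Within r := by
  unfold tT
  split_ifs with h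
  · exact within_lsT hZ (val_tT hZ h.1 h.2) _ _
  · trivial

theorem within_fT {Z : PB A Q M} (hZ : Z.Ok) {r : ℕ} (_hr : r < 2 * Z.bl) :
    (Z.fT r).Within r := by
  unfold fT
  have h3 := sl_add hZ
  split_ifs with h1
  · refine DT.within_orN _ _ fun x hx => ?_
    split_ifs
    · exact within_acT hZ _
    · trivial
  · exact DT.within_orN _ _ fun x hx => DT.within_and (within_aR (by omega) (by omega))
      (within_acT hZ _)

theorem nd_upd_acc [Finite A] {Z : PB A Q M} (hZ : Z.Ok) {r : ℕ} (_hr : r < 2 * Z.bl) :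
    (Z.prog.upd r).nd + (Z.prog.acc r).nd ≤ TB' Z.k Z.mx Z.K Z.κ Z.μ Z.d := by
  have hr1 : (Z.rT r).nd ≤
      Z.N * (1 + mB Z.k Z.mx Z.K Z.κ Z.μ Z.d) := by
    unfold rT
    split_ifs with h1 h2
    · rw [DT.nd_ret]
      exact Nat.zero_le _
    · refine DT.nd_orN_le _ _ _ fun x hx => (DT.nd_and_le _ _).trans ?_
      exact Nat.add_le_add (nd_aR_le _) (nd_mkT_le hZ _ _ _ _ _ _)
    · rw [DT.nd_ret]
      exact Nat.zero_le _
  have ht : (Z.tT r).nd ≤ cK 2 Z.mx Z.K Z.κ := by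
    unfold tT
    split_ifs with h
    · exact nd_lsT_le Z _ (length_tT Z r) _ _
    · rw [DT.nd_ret]
      exact Nat.zero_le _
  have hf : (Z.fT r).nd ≤
      Z.N * (1 + Z.N * mB Z.k Z.mx Z.K Z.κ Z.μ Z.d) := by
    unfold fT
    split_ifs with h1
    · refine DT.nd_orN_le _ _ _ fun x hx => ?_
      split_ifs
      · exact (nd_acT_le hZ _ _).trans (Nat.le_add_left _ _)
      · rw [DT.nd_ret]
        exact Nat.zero_le _
    · refine DT.nd_orN_le _ _ _ fun x hx => (DT.nd_and_le _ _).trans ?_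
      exact Nat.add_le_add (nd_aR_le _) (nd_acT_le hZ _ _)
  have hu : (Z.prog.upd r).nd ≤ (Z.rT r).nd + 2 * (Z.tT r).nd := by
    show (DTo.lift (Z.rT r) fun b => DTo.lift (Z.tT r) fun b' => DTo.ret (Sum.inl (b, b'))).nd ≤ _
    refine (DTo.nd_lift_le _ _).trans ?_
    have h1 : ∀ b, (DTo.lift (Z.tT r) fun b' =>
        (DTo.ret (Sum.inl (b, b')) : DTo (Sy A) ((Bool × Bool) ⊕ Bool))).nd ≤ (Z.tT r).nd := by
      intro b
      refine (DTo.nd_lift_le _ _).trans ?_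
      rw [DTo.nd_ret, DTo.nd_ret]
      omega
    have h2 := h1 true
    have h3 := h1 false
    omega
  have ha : (Z.prog.acc r).nd ≤ (Z.fT r).nd := by
    show (DTo.lift (Z.fT r) fun b => DTo.ret (Sum.inr b)).nd ≤ _
    refine (DTo.nd_lift_le _ _).trans ?_
    rw [DTo.nd_ret, DTo.nd_ret]
    omega
  have e : TB' Z.k Z.mx Z.K Z.κ Z.μ Z.d = Z.N * (1 + mB Z.k Z.mx Z.K Z.κ Z.μ Z.d) +
      2 * cK 2 Z.mx Z.K Z.κ + Z.N * (1 + Z.N * mB Z.k Z.mx Z.K Z.κ Z.μ Z.d) := rfl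
  rw [e]
  omega

end PB

end Pool.Agent.P0036f5b
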