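import Pool.Agent.Lib.P0036f5b.Defs

/-!
# B11: codes of informations

The type `Fin (k + 1) × Q × Set (Q × Q)` has `(k + 1) * (n * 2 ^ (n * n))` elements, `n = Nat.card Q`,
and `n ≤ K`, so it can be enumerated by numbers `< (k + 1) * (K * 2 ^ (K * K)) = NB k K` for `K = 2 n`.
Compare `exists_info` in `P0036f5k/Codes.lean`.
-/

set_option autoImplicit false

namespace Pool.Agent.P0036f5b

open Relation Pool.Agent.P0036f5v2 Pool.Agent.P0036f5w Pool.Agent.P0036f5g Pool.Agent.P0036f5k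
  Classical

variable {A Q M : Type}

theorem exists_infoB (Q : Type) [Finite Q] [Nonempty Q] (k : ℕ) :
    ∃ info : ℕ → Inf Q, (∀ x, (info x).1 ≤ k) ∧
      ∀ y : Inf Q, y.1 ≤ k → ∃ x < NB k (2 * Nat.card Q), info x = y := by
  set n := Nat.card Q with hn
  have hset : Nat.card (Set (Q × Q)) = 2 ^ (n * n) := by
    have := Fintype.ofFinite (Q × Q)
    rw [Nat.card_eq_fintype_card, Fintype.card_set, ← Nat.card_eq_fintype_card, Nat.card_prod]
  have hfin : Finite (Fin (k + 1) × Q × Set (Q × Q)) := inferInstance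
  have hc : Nat.card (Fin (k + 1) × Q × Set (Q × Q)) = (k + 1) * (n * 2 ^ (n * n)) := by
    rw [Nat.card_prod, Nat.card_prod, hset, Nat.card_eq_fintype_card, Fintype.card_fin]
  have hle : (k + 1) * (n * 2 ^ (n * n)) ≤ NB k (2 * n) := by
    unfold NB
    have h1 : n ≤ 2 * n := by omega
    have h2 : n * n ≤ 2 * n * (2 * n) := Nat.mul_le_mul h1 h1
    exact Nat.mul_le_mul_left _ (Nat.mul_le_mul h1 (Nat.pow_le_pow_right (by norm_num) h2))
  let e : (Fin (k + 1) × Q × Set (Q × Q)) ≃ Fin ((k + 1) * (n * 2 ^ (n * n))) :=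
    (Finite.equivFin _).trans (finCongr hc)
  refine ⟨fun x => if h : x < (k + 1) * (n * 2 ^ (n * n)) then
    (((e.symm ⟨x, h⟩).1).val, (e.symm ⟨x, h⟩).2) else (0, (Classical.arbitrary Q, ∅)),
    fun x => ?_, fun y hy => ?_⟩
  · by_cases h : x < (k + 1) * (n * 2 ^ (n * n))
    · simp only [dif_pos h]
      exact Nat.lt_succ_iff.1 (e.symm ⟨x, h⟩).1.isLt
    · simp only [dif_neg h]
      exact Nat.zero_le _
  · refine ⟨(e (⟨y.1, Nat.lt_succ_of_le hy⟩, y.2)).val, lt_of_lt_of_le (e _).isLt hle, ?_⟩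
    change (if h : (e (⟨y.1, Nat.lt_succ_of_le hy⟩, y.2)).val < (k + 1) * (n * 2 ^ (n * n)) then
      (((e.symm ⟨_, h⟩).1).val, (e.symm ⟨_, h⟩).2) else _) = y
    rw [dif_pos (e _).isLt]
    simp

theorem exists_marks (M : Type) [Finite M] [Nonempty M] :
    ∃ mks : ℕ → M, ∀ m : M, ∃ i < Nat.card M, mks i = m := by
  let e : M ≃ Fin (Nat.card M) := Finite.equivFin M
  refine ⟨fun i => if h : i < Nat.card M then e.symm ⟨i, h⟩ else Classical.arbitrary M,
    fun m => ⟨(e m).val, (e m).isLt, ?_⟩⟩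
  change (if h : (e m).val < Nat.card M then e.symm ⟨(e m).val, h⟩ else _) = m
  rw [dif_pos (e m).isLt]
  simp

end Pool.Agent.P0036f5b
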