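import Pool.Agent.Lib.P0036f5k.Defs
import Pool.Agent.Lib.P0036f5k.TDefs

/-!
# 1-limited automata that change at most `k` cells, large `k`: definitions (project K, part B)

Informations about a prefix: the number of changed cells, the state at the first crossing of its right
boundary, and a part of its transition table.
-/

set_option autoImplicit false

namespace Pool.Agent.P0036f5b

open Relation Pool.Agent.P0036f5v2 Pool.Agent.P0036f5w Pool.Agent.P0036f5g Pool.Agent.P0036f5k
  Classical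

/-- a local system with first visits: `L0 a` behaviour of an unmarked cell (at every visit),
`L1 μ a` first visit of a cell with the letter `a` that gets the mark `μ`, `L2 μ` later visits of a
cell with the mark `μ`, `Lr` right end-marker, `E0` table of the left end-marker -/
structure FS (A Q M : Type) where
  L0 : A → CR Q
  L1 : M → A → CR Q
  L2 : M → CR Q
  Lr : CR Q
  E0 : Set (Q × Q)
  p0 : Q
  F : Set Q

variable {A Q M : Type}

/-- moves in the cells `a, …, b - 1` and reflections at the boundary `a` given by the table `T` -/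
def RF (v : ℕ → CR Q) (T : Set (Q × Q)) (a b : ℕ) : Nd Q → Nd Q → Prop :=
  ReflTransGen fun x y => (∃ i, a ≤ i ∧ i < b ∧ EC v i x y) ∨
    ∃ p p', x = (a, false, p) ∧ y = (a, true, p') ∧ (p, p') ∈ T

/-- the table at the boundary `b` if `T` is the table at the boundary `a` -/
def tab (v : ℕ → CR Q) (T : Set (Q × Q)) (a b : ℕ) : Set (Q × Q) :=
  {t | RF v T a b (b, false, t.1) (b, true, t.2)}

/-- informations at a boundary: number of marks, state at the first crossing, part of the table -/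
abbrev Inf (Q : Type) : Type := ℕ × Q × Set (Q × Q)

/-- `y` is weaker than `x` -/
def Sle (x y : Inf Q) : Prop := y.1 = x.1 ∧ y.2.1 = x.2.1 ∧ y.2.2 ⊆ x.2.2

/-- a segment without marks -/
def Sg (v : ℕ → CR Q) (a b : ℕ) (x y : Inf Q) : Prop :=
  y.1 = x.1 ∧ RF v x.2.2 a b (a, true, x.2.1) (b, true, y.2.1) ∧ y.2.2 ⊆ tab v x.2.2 a b

/-- a marked cell with the letter `a` and the mark `μ` -/
def Mc (S : FS A Q M) (a : A) (μ : M) (x y : Inf Q) : Prop :=
  y.1 = x.1 + 1 ∧
    (∃ (d : Bool) (q : Q), S.L1 μ a x.2.1 d q ∧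
      RF (fun _ => S.L2 μ) x.2.2 0 1 (if d = true then 1 else 0, d, q) (1, true, y.2.1)) ∧
    y.2.2 ⊆ tab (fun _ => S.L2 μ) x.2.2 0 1

/-- one letter cell -/
def St (S : FS A Q M) (a : A) (x y : Inf Q) : Prop :=
  Sg (fun _ => S.L0 a) 0 1 x y ∨ ∃ μ, Mc S a μ x y

/-- paths of informations along the cells `a, …, a + n - 1` of `w` -/
def Pt (S : FS A Q M) (w : List A) (a : ℕ) : ℕ → Inf Q → Inf Q → Prop
  | 0, x, y => Sle x y
  | n + 1, x, y => ∃ z, Pt S w a n x z ∧ ∃ c, w[a + n]? = some c ∧ St S c z y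

/-- acceptance at the right end-marker -/
def Ac (S : FS A Q M) (x : Inf Q) : Prop :=
  ∃ f ∈ S.F, RF (fun _ => S.Lr) x.2.2 0 1 (0, true, x.2.1) (1, true, f)

/-- the information at the left end of the word -/
def ini (S : FS A Q M) : Inf Q := (0, S.p0, S.E0)

/-- the words accepted with at most `k` marks -/
def Lb (S : FS A Q M) (k : ℕ) : Language A :=
  {w | ∃ x, Pt S w 0 w.length (ini S) x ∧ x.1 ≤ k ∧ Ac S x}

/-- the informations possible after `t` blocks -/
def RB (S : FS A Q M) (k : ℕ) (w : List A) (B t : ℕ) : Set (Inf Q) :=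
  {y | y.1 ≤ k ∧ Pt S w 0 (t * B) (ini S) y}

/-- the behaviour of the cells of a word without marks -/
def vr (S : FS A Q M) (w : List A) (i : ℕ) : CR Q :=
  match w[i]? with
  | some a => S.L0 a
  | none => S.Lr

/-- the local system of a machine -/
def fs {A : Type} (M : Mach A) : FS A M.Q (A ⊕ M.W) where
  L0 := fun a p d p' => (p', Sum.inl a, d) ∈ M.δ p (Sym.inp a)
  L1 := fun μ a p d p' => (p', μ, d) ∈ M.δ p (Sym.inp a)
  L2 := fun μ p d p' => (p', μ, d) ∈ M.δ p (Sym.ofW μ)
  Lr := fun p d p' => ∃ x, (p', x, d) ∈ M.δ p Sym.rend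
  E0 := {t | ∃ x, (t.2, x, true) ∈ M.δ t.1 Sym.lend}
  p0 := M.qI
  F := M.F

/-! ### Numbers -/

/-- number of codes of informations -/
def NB (k K : ℕ) : ℕ := (k + 1) * (K * 2 ^ (K * K))

/-- cost of the test of an unmarked segment -/
def zB (mx K κ : ℕ) : ℕ := (1 + K * K) * ((2 * (2 * K)) ^ κ * cK 2 mx K κ)

/-- cost of the test of a segment with less than `2 ^ d` marks -/
def mB (k mx K κ μ : ℕ) : ℕ → ℕ
  | 0 => zB mx K κ
  | d + 1 => zB mx K κ +
      2 * BK mx K * (μ * (NB k K * (NB k K * (2 * mB k mx K κ μ d + 1))))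

/-- bound for the number of inner subtrees -/
def TB' (k mx K κ μ d : ℕ) : ℕ :=
  NB k K * (1 + mB k mx K κ μ d) + 2 * cK 2 mx K κ + NB k K * (1 + NB k K * mB k mx K κ μ d)

/-- bound for the size -/
def szB (k mx K κ μ d a : ℕ) : ℕ :=
  (2 * BK mx K * 4 + 2 * BK mx K * ((4 + 2 + 2 * BK mx K * TB' k mx K κ μ d) *
    (2 * BK mx K + 3)) + 1) * (5 * a * 4 + 5 * a + 17) + (a * 4 + 2 * a + 4)

/-! ### Trees -/

/-- parameters: `K` ports enumerated by `ρ`, levels `≤ mx`, depth `κ` for paths, less than `2 ^ d`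
marks, `μ` mark symbols enumerated by `mks` -/
structure PB (A Q M : Type) where
  S : FS A Q M
  k : ℕ
  mx : ℕ
  K : ℕ
  ρ : ℕ → Bool × Q
  π : Bool × Q → ℕ
  info : ℕ → Inf Q
  mks : ℕ → M
  κ : ℕ
  d : ℕ
  μ : ℕ

/-- annotation of the two cut cells -/
def flg (lo hi : ℕ) : ℕ → Option Unit := fun o => if o = lo ∨ o = hi then some () else none

/-- the pieces of the segment `[lo, hi)` of a region with `h` visited cells -/
noncomputable def sgP (ℓ mx h lo hi : ℕ) : List Pc :=
  (finP (flg lo hi) ℓ mx h).filter fun p => decide (lo ≤ p.lo ℓ h ∧ p.hi ℓ h ≤ hi)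

namespace PB

/-- length of a slot -/
abbrev sl (Z : PB A Q M) : ℕ := ℓK Z.mx Z.K

/-- length of a block -/
abbrev bl (Z : PB A Q M) : ℕ := BK Z.mx Z.K

/-- number of codes of informations -/
abbrev N (Z : PB A Q M) : ℕ := NB Z.k Z.K

/-- correct parameters -/
structure Ok (Z : PB A Q M) : Prop where
  hK : 0 < Z.K
  hπ : ∀ x, Z.π x < Z.K
  hρ : ∀ x, Z.ρ (Z.π x) = x
  hπρ : ∀ i < Z.K, Z.π (Z.ρ i) = i
  hi : ∀ x, (Z.info x).1 ≤ Z.k
  hinfo : ∀ y : Inf Q, y.1 ≤ Z.k → ∃ x < Z.N, Z.info x = y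
  hmk : ∀ m : M, ∃ i < Z.μ, Z.mks i = m
  hκ : VK 2 Z.mx Z.K ≤ 2 ^ Z.κ
  hN : Z.N + 1 ≤ 2 ^ Z.mx
  hd : Z.k < 2 ^ Z.d

/-- the table bit written in the cell with index `i` -/
def tbit (Z : PB A Q M) (w : List A) (i : ℕ) : Prop :=
  0 < i / Z.sl ∧ 2 ^ (i % Z.sl / (Z.K * Z.K)) ∣ i / Z.sl ∧
    TB (vr Z.S w) ((i / Z.sl - 2 ^ (i % Z.sl / (Z.K * Z.K))) * Z.sl) (i / Z.sl * Z.sl)
      (Z.ρ (i % Z.sl % (Z.K * Z.K) / Z.K)) (Z.ρ (i % Z.sl % Z.K))

/-- the information bit written in the cell with index `i` -/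
def rbit (Z : PB A Q M) (w : List A) (i : ℕ) : Prop :=
  Z.sl ≤ i % Z.bl ∧ i % Z.bl - Z.sl < Z.N ∧
    Z.info (i % Z.bl - Z.sl) ∈ RB Z.S Z.k w Z.bl (i / Z.bl)

/-- the bits written in the cell with index `i` -/
noncomputable def note (Z : PB A Q M) (w : List A) (i : ℕ) : Bool × Bool :=
  (decide (Z.rbit w i), decide (Z.tbit w i))

/-- the view `v` shows the `h` cells after the boundary `a` -/
def Vw (Z : PB A Q M) (w : List A) (a h : ℕ) (v : ℕ → Sy A) : Prop :=
  ∀ o < h, ∃ c, w[a + o]? = some c ∧ v (h - o) = some (c, Z.note w (a + o))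

/-- the table entry of a piece -/
noncomputable def pcT (Z : PB A Q M) (h : ℕ) (p : Pc) (x y : Bool × Q) : DT (Sy A) :=
  match p with
  | .raw o => .ask (h - o) fun g => .ret (match g with
      | some (a, _) => decide (Z.S.L0 a x.2 y.1 y.2)
      | none => false)
  | .blk s u => .ask (h - (u * Z.sl + (s * (Z.K * Z.K) + (Z.π x * Z.K + Z.π y)))) fun g =>
      .ret (match g with
      | some (_, b) => b.2
      | none => false)
  | .rnd => .ret (decide (Z.S.Lr x.2 y.1 y.2))

/-- the edges of the coarse graph -/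
noncomputable def edT (Z : PB A Q M) (h : ℕ) (l : List Pc) (X Y : Nd Q) : DT (Sy A) :=
  match l[Pool.Agent.P0036f5k.Par.idx X]? with
  | some p => if X = ent (Pool.Agent.P0036f5k.Par.idx X) (Pool.Agent.P0036f5k.Par.idx X + 1) X.2 ∧
      Y = ext (Pool.Agent.P0036f5k.Par.idx X) (Pool.Agent.P0036f5k.Par.idx X + 1) Y.2 then
      Z.pcT h p X.2 Y.2 else .ret false
  | none => .ret false

/-- the table entry of a list of pieces -/
noncomputable def lsT (Z : PB A Q M) (h : ℕ) (l : List Pc) (x y : Bool × Q) : DT (Sy A) :=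
  pathT (Z.edT h l) (fun c => (c / Z.K, Z.ρ (c % Z.K))) ((l.length + 1) * Z.K) Z.κ
    (ent 0 l.length x) (ext 0 l.length y)

/-- the edges of the graph of entries `(false, x)` and exits `(true, y)` of a segment with
reflections at the left end -/
noncomputable def rfE (Z : PB A Q M) (h : ℕ) (l : List Pc) (T : Set (Q × Q))
    (u v : Bool × Bool × Q) : DT (Sy A) :=
  if u.1 = false ∧ v.1 = true then Z.lsT h l u.2 v.2
  else if u.1 = true ∧ v.1 = false ∧ u.2.1 = false ∧ v.2.1 = true ∧ (u.2.2, v.2.2) ∈ T then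
    .ret true
  else .ret false

/-- paths in this graph -/
noncomputable def rfT (Z : PB A Q M) (h : ℕ) (l : List Pc) (T : Set (Q × Q))
    (u v : Bool × Bool × Q) : DT (Sy A) :=
  pathT (Z.rfE h l T) (fun c => (decide (c / Z.K = 1), Z.ρ (c % Z.K))) (2 * Z.K) Z.κ u v

/-- a segment without marks, given by its pieces -/
noncomputable def zT (Z : PB A Q M) (h : ℕ) (l : List Pc) (x y : Inf Q) : DT (Sy A) :=
  if y.1 = x.1 then
    (Z.rfT h l x.2.2 (false, true, x.2.1) (true, true, y.2.1)).and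
      (andN (fun c => if ((Z.ρ (c / Z.K)).2, (Z.ρ (c % Z.K)).2) ∈ y.2.2 then
        Z.rfT h l x.2.2 (false, false, (Z.ρ (c / Z.K)).2) (true, true, (Z.ρ (c % Z.K)).2)
        else .ret true) (Z.K * Z.K))
  else .ret false

/-- a marked cell -/
noncomputable def clT (Z : PB A Q M) (h o : ℕ) (μ : M) (x y : Inf Q) : DT (Sy A) :=
  .ask (h - o) fun g => .ret (match g with
    | some (a, _) => decide (Mc Z.S a μ x y)
    | none => false)

/-- the segment `[lo, hi)` with less than `2 ^ d` marks -/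
noncomputable def mkT (Z : PB A Q M) (h : ℕ) : ℕ → ℕ → ℕ → Inf Q → Inf Q → DT (Sy A)
  | 0, lo, hi, x, y => Z.zT h (sgP Z.sl Z.mx h lo hi) x y
  | d + 1, lo, hi, x, y => (Z.zT h (sgP Z.sl Z.mx h lo hi) x y).or
      (.orN (fun o => .orN (fun m => .orN (fun z => .orN (fun z' =>
        if lo ≤ o ∧ o < hi then
          (mkT Z h d lo o x (Z.info z)).and
            ((Z.clT h o (Z.mks m) (Z.info z) (Z.info z')).and
              (mkT Z h d (o + 1) hi (Z.info z') y))
        else .ret false) Z.N) Z.N) Z.μ) (2 * Z.bl))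

/-- one block -/
noncomputable def stT (Z : PB A Q M) (h : ℕ) (x y : Inf Q) : DT (Sy A) :=
  Z.mkT h Z.d 0 Z.bl x y

/-- acceptance from the information `x` at the start of the region -/
noncomputable def acT (Z : PB A Q M) (h : ℕ) (x : Inf Q) : DT (Sy A) :=
  .orN (fun z => if Ac Z.S (Z.info z) then Z.mkT h Z.d 0 h x (Z.info z) else .ret false) Z.N

/-- the information bit at distance `d` -/
def aR (d : ℕ) : DT (Sy A) := .ask d fun g => .ret (match g with
  | some (_, b) => b.1
  | none => false)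

/-- the information with the code `x` is possible at the start of the word -/
def st0 (Z : PB A Q M) (x : ℕ) : Prop := Sle (ini Z.S) (Z.info x)

/-- the information bit of the next cell, in phase `r` -/
noncomputable def rT (Z : PB A Q M) (r : ℕ) : DT (Sy A) :=
  if r < Z.bl then .ret (decide (Z.sl ≤ r ∧ r - Z.sl < Z.N ∧ Z.st0 (r - Z.sl)))
  else if Z.sl ≤ r - Z.bl ∧ r - Z.bl - Z.sl < Z.N then
    .orN (fun x => (aR (r - (Z.sl + x))).and (Z.stT r (Z.info x) (Z.info (r - Z.bl - Z.sl)))) Z.N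
  else .ret false

/-- the table bit of the next cell, in phase `r` -/
noncomputable def tT (Z : PB A Q M) (r : ℕ) : DT (Sy A) :=
  if 0 < r / Z.sl ∧ 2 ^ (r % Z.sl / (Z.K * Z.K)) ∣ r / Z.sl then
    Z.lsT r
      (match r % Z.sl / (Z.K * Z.K) with
        | 0 => (List.range Z.sl).map fun c => .raw ((r / Z.sl - 1) * Z.sl + c)
        | s + 1 => [.blk s (r / Z.sl - 2 ^ s), .blk s (r / Z.sl)])
      (Z.ρ (r % Z.sl % (Z.K * Z.K) / Z.K)) (Z.ρ (r % Z.sl % Z.K))
  else .ret false

/-- acceptance, in phase `r` -/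
noncomputable def fT (Z : PB A Q M) (r : ℕ) : DT (Sy A) :=
  if r < Z.bl then .orN (fun x => if Z.st0 x then Z.acT r (Z.info x) else .ret false) Z.N
  else .orN (fun x => (aR (r - (Z.sl + x))).and (Z.acT r (Z.info x))) Z.N

/-- the program -/
noncomputable def prog (Z : PB A Q M) : GProg A (Bool × Bool) where
  nxt := fun r => if r + 1 < 2 * Z.bl then r + 1 else Z.bl
  s0 := (false, false)
  upd := fun r => .lift (Z.rT r) fun b => .lift (Z.tT r) fun b' => .ret (.inl (b, b'))
  acc := fun r => .lift (Z.fT r) fun b => .ret (.inr b)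

end PB

end Pool.Agent.P0036f5b
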