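import Pool.Agent.Lib.P0036f5b.RFa
import Pool.Agent.Lib.P0036f5v2.ToNFA

/-!
# B5a: paths of informations are computations

`M.toNFA true` (P0036f5v2/ToNFA.lean) is the automaton of exact tables, `toNFA_accepts` says that it
accepts `M.lang true`.  Claim, by induction on `n ≤ w.length`: if `Pt (fs M) w 0 n (ini (fs M)) x` then
there is `T ⊇ x.2.2` with `(T, x.2.1) ∈ (M.toNFA true).evalFrom (M.toNFA true).start (w.take n)`.
`n = 0`: `T = M.T0 true = (fs M).E0` (`OkW` is vacuous on end-markers).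
Step, with the letter `c`: unmarked (`g = Sym.inp c`, written symbol `Sum.inl c`) or marked with `μ`
(`g = Sym.ofW μ`): the new exact table is `M.upd true T g`.  One-cell lemma (`cell`), for
`L = S.L2 μ` or `L = S.L0 c`: if `RF (fun _ => L) T 0 1 (1, false, p) (1, true, p')` then
`(p, p') ∈ M.upd true T g` (a path is a sequence of `1 false → 0 false → (reflection) 0 true`, i.e. of
excursions `M.Exc true T g`, then a right move).  For the state: `RF (fun _ => L) T 0 1 (0, true, q)
(1, true, q')` starts with a move in the cell (`d = true`: then `q' = q1`) or with `d = false` to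
`(0, false, q1)`, a reflection `(q1, p) ∈ T`, then from `(0, true, p)`, which has the same
continuations as `(1, false, p)`.
Acceptance: `Ac` gives `(x.2.1, f) ∈ M.upd true T Sym.rend` in the same way.
-/

set_option autoImplicit false

namespace Pool.Agent.P0036f5b

open Relation Pool.Agent.P0036f5v2 Pool.Agent.P0036f5w Pool.Agent.P0036f5g Pool.Agent.P0036f5k
  Classical

variable {A Q M : Type}

namespace NfaAAux

/-- what a node knows if it leads to `(1, true, q')` by moves in one cell and reflections -/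
def Kn {A : Type} (M : Mach A) (T : Set (M.Q × M.Q)) (g : Sym A M.W) (q' : M.Q) (X : Nd M.Q) :
    Prop :=
  X = (1, true, q') ∨
    (((X.1 = 0 ∧ X.2.1 = true) ∨ (X.1 = 1 ∧ X.2.1 = false)) ∧ (X.2.2, q') ∈ M.upd true T g) ∨
    (X.1 = 0 ∧ X.2.1 = false ∧ ∃ p, (X.2.2, p) ∈ T ∧ (p, q') ∈ M.upd true T g)

theorem cell {A : Type} (M : Mach A) {L : CR M.Q} {g : Sym A M.W}
    (hL : ∀ p d p', L p d p' → ∃ x, (p', x, d) ∈ M.δ p g ∧ OkW true g x)
    {T : Set (M.Q × M.Q)} {q' : M.Q} {X : Nd M.Q}
    (h : RF (fun _ => L) T 0 1 X (1, true, q')) : Kn M T g q' X := by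
  induction h using ReflTransGen.head_induction_on with
  | refl => exact Or.inl rfl
  | @head X Y hs _ ih =>
    obtain ⟨b, d, p⟩ := X
    obtain ⟨b', d', p'⟩ := Y
    rcases hs with ⟨i, _, hi, h1, h2, h3⟩ | ⟨r, r', h1, h2, h3⟩
    · have hi0 : i = 0 := by omega
      subst hi0
      simp only at h1 h2 h3
      have hX : (b = 0 ∧ d = true) ∨ (b = 1 ∧ d = false) := by
        cases d <;> simp_all
      obtain ⟨x, hx, hok⟩ := hL _ _ _ h2
      right; left
      refine ⟨hX, ?_⟩
      cases d' with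
      | true =>
        rcases ih with ih | ⟨ih, _⟩ | ⟨_, ih, _⟩
        · simp only [Prod.mk.injEq] at ih
          obtain ⟨_, _, rfl⟩ := ih
          exact ⟨p, ReflTransGen.refl, x, hx, hok⟩
        · simp at ih h3
          omega
        · simp at ih
      | false =>
        rcases ih with ih | ⟨ih, _⟩ | ⟨_, _, s, hs, r, hr, hr'⟩
        · simp at ih
        · simp at ih h3
          omega
        · exact ⟨r, ReflTransGen.head ⟨p', ⟨x, hx, hok⟩, hs⟩ hr, hr'⟩
    · simp only [Prod.mk.injEq] at h1 h2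
      obtain ⟨rfl, rfl, rfl⟩ := h1
      obtain ⟨rfl, rfl, rfl⟩ := h2
      right; right
      refine ⟨rfl, rfl, p', h3, ?_⟩
      rcases ih with ih | ⟨_, ih⟩ | ⟨_, ih, _⟩
      · simp at ih
      · exact ih
      · simp at ih

/-- the state after a letter cell -/
theorem state {A : Type} (M : Mach A) {T : Set (M.Q × M.Q)} {g : Sym A M.W} {q' q : M.Q}
    {d : Bool} (h : Kn M T g q' (if d = true then 1 else 0, d, q)) :
    (d = true ∧ q' = q) ∨ (d = false ∧ ∃ p, (q, p) ∈ T ∧ (p, q') ∈ M.upd true T g) := by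
  cases d with
  | true =>
    left
    rcases h with h | ⟨h, _⟩ | ⟨_, h, _⟩
    · simp at h
      exact ⟨rfl, h.symm⟩
    · simp at h
    · simp at h
  | false =>
    right
    rcases h with h | ⟨h, _⟩ | ⟨_, _, h⟩
    · simp at h
    · simp at h
    · exact ⟨rfl, h⟩

/-- one step of the automaton of tables -/
theorem next {A : Type} (M : Mach A) {w : List A} {n : ℕ} {c : A} (hc : w[n]? = some c)
    {T T' : Set (M.Q × M.Q)} {q q' : M.Q}
    (h : (T, q) ∈ (M.toNFA true).evalFrom (M.toNFA true).start (w.take n))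
    (h' : (T', q') ∈ (M.toNFA true).step (T, q) c) :
    (T', q') ∈ (M.toNFA true).evalFrom (M.toNFA true).start (w.take (n + 1)) := by
  obtain ⟨hn, rfl⟩ := List.getElem?_eq_some_iff.1 hc
  rw [List.take_succ_eq_append_getElem hn, NFA.evalFrom_append, NFA.evalFrom_singleton,
    NFA.mem_stepSet]
  exact ⟨(T, q), h, h'⟩

/-- paths of informations are runs of the automaton of tables -/
theorem run {A : Type} (M : Mach A) (w : List A) :
    ∀ (n : ℕ) (x : Inf M.Q), Pt (fs M) w 0 n (ini (fs M)) x →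
      ∃ T : Set (M.Q × M.Q), x.2.2 ⊆ T ∧
        (T, x.2.1) ∈ (M.toNFA true).evalFrom (M.toNFA true).start (w.take n) := by
  intro n
  induction n with
  | zero =>
    intro x hx
    obtain ⟨_, h2, h3⟩ := hx
    refine ⟨M.T0 true, ?_, ?_⟩
    · intro t ht
      obtain ⟨y, hy⟩ := h3 ht
      exact ⟨y, hy, fun _ h => absurd rfl h⟩
    · rw [h2]
      simp only [List.take_zero, NFA.evalFrom_nil]
      exact rfl
  | succ n ih =>
    intro y hy
    obtain ⟨z, hz, c, hc, hst⟩ := hy
    obtain ⟨T, hT, hmem⟩ := ih z hz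
    rw [Nat.zero_add] at hc
    rcases hst with ⟨_, h2, h3⟩ | ⟨μ, _, ⟨d, q, hd, h2⟩, h3⟩
    · -- no mark
      have hL : ∀ p d p', (fs M).L0 c p d p' →
          ∃ x, (p', x, d) ∈ M.δ p (Sym.inp c) ∧ OkW true (Sym.inp c) x :=
        fun p d p' h => ⟨Sum.inl c, h, fun _ _ _ => rfl⟩
      refine ⟨M.upd true T (Sym.inp c), ?_, next M hc hmem ?_⟩
      · rintro ⟨p, p'⟩ ht
        rcases cell M hL (rf_mono hT (h3 ht)) with h | ⟨_, h⟩ | ⟨h, _⟩
        · simp at h
        · exact h
        · simp at h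
      · rcases ReflTransGen.cases_head (rf_mono hT h2) with h | ⟨Y, hs, hr⟩
        · simp at h
        · rcases hs with ⟨i, _, hi, g1, g2, g3⟩ | ⟨r, r', g1, _⟩
          · obtain ⟨b', d', q1⟩ := Y
            have hi0 : i = 0 := by omega
            subst hi0
            simp only at g2 g3
            rw [g3] at hr
            exact ⟨q1, Sum.inl c, d', g2, rfl, state M (cell M hL hr)⟩
          · simp at g1
    · -- a mark
      have hL : ∀ p d p', (fs M).L2 μ p d p' →
          ∃ x, (p', x, d) ∈ M.δ p (Sym.ofW μ) ∧ OkW true (Sym.ofW μ) x :=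
        fun p d p' h => ⟨μ, h, fun _ _ _ => rfl⟩
      refine ⟨M.upd true T (Sym.ofW μ), ?_, next M hc hmem ?_⟩
      · rintro ⟨p, p'⟩ ht
        rcases cell M hL (rf_mono hT (h3 ht)) with h | ⟨_, h⟩ | ⟨h, _⟩
        · simp at h
        · exact h
        · simp at h
      · exact ⟨q, μ, d, hd, rfl, state M (cell M hL (rf_mono hT h2))⟩

end NfaAAux

open NfaAAux in
theorem lang_of_lb {A : Type} (M : Mach A) (k : ℕ) {w : List A} (h : w ∈ Lb (fs M) k) :
    w ∈ M.lang true := by
  obtain ⟨x, hx, _, f, hf, hr⟩ := h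
  obtain ⟨T, hT, hmem⟩ := run M w w.length x hx
  rw [List.take_length] at hmem
  rw [← M.toNFA_accepts true, NFA.mem_accepts]
  refine ⟨(T, x.2.1), ⟨f, hf, ?_⟩, hmem⟩
  have hL : ∀ p d p', (fs M).Lr p d p' →
      ∃ y, (p', y, d) ∈ M.δ p Sym.rend ∧ OkW true Sym.rend y := by
    rintro p d p' ⟨y, hy⟩
    exact ⟨y, hy, fun _ _ h => absurd rfl h⟩
  rcases cell M hL (rf_mono hT hr) with h | ⟨_, h⟩ | ⟨_, h, _⟩
  · simp at h
  · exact h
  · simp at h

end Pool.Agent.P0036f5b
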