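import Pool.Agent.Lib.P0036f5b.RFa
import Pool.Agent.Lib.P0036f5v2.ToNFA

/-!
# B5b: computations give paths of informations (STUB; proof below)

Follow `nfa_of_steps` in P0036f5v2/ToNFA.lean (convention `cv = true`) with paths `Pt` instead of
`evalFrom`: for a configuration `c` reachable from `M.init w` with `M.Good w y c`,
`c.pos = y.length + 1` the invariant is
`Pt (fs M) w 0 y.length (ini (fs M)) (n, c.st, M.table true y)` where `n` is the number of
`i < y.length` with `y[i]? ≠ (w[i]?).map Sym.inp` (changed cells; a cell that gets the letter it had is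
treated as unmarked, the others as marked).  `n ≤ k` by `FewWrites` for `c` (the changed cells of `c`
are exactly these positions, shifted by one).  Keep the reachability of `c` from `M.init w` as part of
the invariant.  The table is exact: `M.table true (y ++ [g]) = M.upd true (M.table true y) g`, and for
`L = (fs M).L2 μ` (or `L0 c`), `g = Sym.ofW μ`: `tab (fun _ => L) T 0 1 = M.upd true T g` (see the
one-cell lemma in the header of NfaA.lean).  First visit of the next cell: a step `(q1, x, d)` on the
input letter `c`; then for `d = true` the next cell is reached, for `d = false` one uses `table_of_run`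
twice as in `nfa_of_steps`: `(q1, p) ∈ table y` and `(p, q') ∈ table (y ++ [g])`; so
`RF (fun _ => L) (table y) 0 1` leads from `(if d then 1 else 0, d, q1)` to `(1, true, q')` (reflection
`(0, false, q1) → (0, true, p)`, and `(0, true, p)` has the same continuations as `(1, false, p)`).
In the unmarked case `x = Sum.inl c` and the first move is itself a move of `L0 c` from
`(0, true, q)`.  At the right end-marker: acceptance as in `nfa_of_steps`.
-/

set_option autoImplicit false

namespace Pool.Agent.P0036f5b

open Relation Pool.Agent.P0036f5v2 Pool.Agent.P0036f5w Pool.Agent.P0036f5g Pool.Agent.P0036f5k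
  Classical

variable {A Q M : Type}

namespace NfaBAux

/-- the right end of a cell is reached from the right entry and from the left entry -/
theorem chain {A : Type} (M : Mach A) {L : CR M.Q} {g : Sym A M.W}
    (hL : ∀ p d p' x, (p', x, d) ∈ M.δ p g → OkW true g x → L p d p')
    {T : Set (M.Q × M.Q)} {p r q : M.Q} (h : ReflTransGen (M.Exc true T g) p r)
    (hr : L r true q) : ∀ s : Nd M.Q, (s = (0, true, p) ∨ s = (1, false, p)) →
      RF (fun _ => L) T 0 1 s (1, true, q) := by
  induction h using ReflTransGen.head_induction_on with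
  | refl =>
    intro s hs
    refine ReflTransGen.single (Or.inl ⟨0, le_rfl, Nat.one_pos, ?_⟩)
    rcases hs with rfl | rfl
    · exact ⟨rfl, hr, rfl⟩
    · exact ⟨rfl, hr, rfl⟩
  | @head p p1 he _ ih =>
    intro s hs
    obtain ⟨t, ⟨x, hx, hok⟩, hT⟩ := he
    have h1 := hL _ _ _ _ hx hok
    have e1 : EC (fun _ => L) 0 s (0, false, t) := by
      rcases hs with rfl | rfl
      · exact ⟨rfl, h1, rfl⟩
      · exact ⟨rfl, h1, rfl⟩
    exact ReflTransGen.head (Or.inl ⟨0, le_rfl, Nat.one_pos, e1⟩)
      (ReflTransGen.head (Or.inr ⟨t, p1, rfl, rfl, hT⟩) (ih _ (Or.inl rfl)))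

theorem chain' {A : Type} (M : Mach A) {L : CR M.Q} {g : Sym A M.W}
    (hL : ∀ p d p' x, (p', x, d) ∈ M.δ p g → OkW true g x → L p d p')
    {T : Set (M.Q × M.Q)} {p q : M.Q} (h : (p, q) ∈ M.upd true T g) (s : Nd M.Q)
    (hs : s = (0, true, p) ∨ s = (1, false, p)) : RF (fun _ => L) T 0 1 s (1, true, q) := by
  obtain ⟨r, hc, x, hx, hok⟩ := h
  exact chain M hL hc (hL _ _ _ _ hx hok) s hs

/-- the state at the next cell -/
theorem after {A : Type} (M : Mach A) {L : CR M.Q} {g : Sym A M.W}
    (hL : ∀ p d p' x, (p', x, d) ∈ M.δ p g → OkW true g x → L p d p')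
    {T : Set (M.Q × M.Q)} {q1 q' : M.Q} {d : Bool}
    (h : (d = true ∧ q' = q1) ∨ (d = false ∧ ∃ p, (q1, p) ∈ T ∧ (p, q') ∈ M.upd true T g)) :
    RF (fun _ => L) T 0 1 (if d = true then 1 else 0, d, q1) (1, true, q') := by
  rcases h with ⟨rfl, rfl⟩ | ⟨rfl, p, hp, hpq⟩
  · exact ReflTransGen.refl
  · exact ReflTransGen.head (Or.inr ⟨q1, p, rfl, rfl, hp⟩) (chain' M hL hpq _ (Or.inl rfl))

theorem ofW_inj {A W : Type} {x y : A ⊕ W} (h : Sym.ofW x = Sym.ofW y) : x = y := by
  rcases x with a | a <;> rcases y with b | b <;> simp [Sym.ofW] at h <;> rw [h]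

/-- an unmarked cell behaves like `L0` -/
theorem l0 {A : Type} (M : Mach A) (c : A) :
    ∀ (p : M.Q) (d : Bool) (p' : M.Q) (x : A ⊕ M.W), (p', x, d) ∈ M.δ p (Sym.inp c) →
      OkW true (Sym.inp c : Sym A M.W) x → (fs M).L0 c p d p' := by
  intro p d p' x hx hok
  have h := hok rfl (by simp) (by simp)
  have : x = Sum.inl c := ofW_inj (by rw [h]; rfl)
  rw [this] at hx
  exact hx

/-- a marked cell behaves like `L2` -/
theorem l2 {A : Type} (M : Mach A) (μ : A ⊕ M.W) :
    ∀ (p : M.Q) (d : Bool) (p' : M.Q) (x : A ⊕ M.W), (p', x, d) ∈ M.δ p (Sym.ofW μ) →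
      OkW true (Sym.ofW μ : Sym A M.W) x → (fs M).L2 μ p d p' := by
  intro p d p' x hx hok
  have h := hok rfl (by rcases μ with a | a <;> simp [Sym.ofW])
    (by rcases μ with a | a <;> simp [Sym.ofW])
  have : x = μ := ofW_inj h
  rw [this] at hx
  exact hx

/-- the number of changed cells -/
noncomputable def nm {A W : Type} (w : List A) (y : List (Sym A W)) : ℕ :=
  ((Finset.range y.length).filter fun i => y[i]? ≠ (w[i]?).map Sym.inp).card

theorem nm_snoc {A W : Type} (w : List A) (y : List (Sym A W)) (g : Sym A W) {c : A}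
    (hc : w[y.length]? = some c) :
    nm w (y ++ [g]) = nm w y + if g = Sym.inp c then 0 else 1 := by
  unfold nm
  have h1 : (y ++ [g]).length = y.length + 1 := by simp
  have h2 : ((Finset.range y.length).filter fun i => (y ++ [g])[i]? ≠ (w[i]?).map Sym.inp) =
      (Finset.range y.length).filter fun i => y[i]? ≠ (w[i]?).map Sym.inp := by
    apply Finset.filter_congr
    intro i hi
    rw [List.getElem?_append_left (Finset.mem_range.1 hi)]
  have h3 : (y ++ [g])[y.length]? = some g := by simp
  rw [h1, Finset.range_add_one, Finset.filter_insert, h2, h3, hc]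
  by_cases hg : g = Sym.inp c
  · rw [if_neg (by simp [hg]), if_pos hg, Nat.add_zero]
  · rw [if_pos (by simpa using hg), if_neg hg, Finset.card_insert_of_notMem (by simp)]

/-- only few cells are changed -/
theorem nm_le {A : Type} (M : Mach A) (k : ℕ) (hM : FewWrites M true k) {w : List A}
    {y : List (Sym A M.W)} {c cf : M.Cfg} (hr : Reach M true w cf) (ht : cf.tape = c.tape)
    (hg : M.Good w y c) (hl : y.length ≤ w.length) : nm w y ≤ k := by
  obtain ⟨hfin, hcard, _⟩ := hM w cf hr
  refine le_trans ?_ hcard
  unfold nm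
  rw [← Set.ncard_coe_finset]
  refine Set.ncard_le_ncard_of_injOn (fun i => i + 1) ?_ (fun i _ j _ h => Nat.succ.inj h) hfin
  intro i hi
  simp only [Finset.coe_filter, Finset.mem_range, Set.mem_ofPred_eq] at hi ⊢
  obtain ⟨hi, hne⟩ := hi
  rw [ht, hg.1 (i + 1), if_pos (by omega)]
  intro h
  apply hne
  have hi' : i < w.length := by omega
  simp only [Mach.tp, Mach.initTape, Nat.add_one_ne_zero, if_false, Nat.add_sub_cancel,
    List.getElem?_eq_getElem hi, List.getElem?_eq_getElem hi', Option.getD_some] at h
  rw [List.getElem?_eq_getElem hi, List.getElem?_eq_getElem hi', h]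
  rfl

/-- the machine gives paths of informations -/
theorem run {A : Type} (M : Mach A) (k : ℕ) (hM : FewWrites M true k) (w : List A) (cf : M.Cfg)
    (hcf : cf.pos = w.length + 2) (hF : cf.st ∈ M.F) (hreach : Reach M true w cf) :
    ∀ (j : ℕ) (y : List (Sym A M.W)) (c : M.Cfg) (n : ℕ), y.length + j = w.length →
      M.Good w y c → c.pos = y.length + 1 →
      Pt (fs M) w 0 y.length (ini (fs M)) (nm w y, c.st, M.table true y) →
      M.Steps true w.length n c cf → w ∈ Lb (fs M) k := by
  intro j
  induction j with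
  | zero =>
    intro y c n hj hgood hpos hpt hrun
    have hylen : y.length = w.length := by omega
    have htape : c.tape c.pos = Sym.rend := by
      rw [hgood.1, hpos, if_neg (by omega), hylen, M.initTape_end]
    have hag : M.Agree w.length (y ++ [Sym.rend]) c := by
      have h := hgood.agree M
      refine ⟨fun j hj => ?_, fun j h1 h2 h3 => h.2 j h1 (by omega) h3⟩
      simp at hj
      by_cases hj2 : j ≤ y.length
      · rw [M.tp_snoc_le y _ j hj2]; exact h.1 j hj2
      · have : j = y.length + 1 := by omega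
        subst this
        rw [Mach.tp_snoc_last, ← hpos]; exact htape
    obtain ⟨c', n', hrun', _, hT, hp', htt, _, _⟩ :=
      M.table_of_run true w.length (y ++ [Sym.rend]) n c cf (by simp [hpos]) hag hrun
        (by simp [hcf]; omega)
    have hp'' : c'.pos = w.length + 2 := by simp [hp']; omega
    have hcc : c' = cf := by
      cases hrun' with
      | refl => rfl
      | head hs _ =>
        have := hs.1
        omega
    subst hcc
    rw [Mach.table_snoc] at hT
    refine ⟨(nm w y, c.st, M.table true y), ?_, nm_le M k hM hreach htt hgood hylen.le, c'.st, hF, ?_⟩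
    · rw [← hylen]
      exact hpt
    · exact chain' M (g := Sym.rend) (L := (fs M).Lr) (fun p d p' x hx _ => ⟨x, hx⟩) hT _
        (Or.inl rfl)
  | succ j ih =>
    intro y c n hj hgood hpos hpt hrun
    have hlt : y.length < w.length := by omega
    cases hrun with
    | refl => omega
    | @head n _ c₁ _ hs hrest =>
      obtain ⟨hle, x, d, hδ, h0, hp, hw, hnw, hseen⟩ := hs
      have htape : c.tape c.pos = Sym.inp w[y.length] := by
        rw [hgood.1, hpos, if_neg (by omega), M.initTape_letter w _ hlt]
      have hnotseen : c.pos ∉ c.seen := by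
        rw [hgood.2 c.pos (by omega) (by omega)]
        omega
      have ht₁ := hw ⟨by omega, by omega, hnotseen⟩
      have hg₁ : M.Good w (y ++ [Sym.ofW x]) c₁ := hgood.first M hpos hlt x ht₁ hseen
      rw [htape] at hδ
      have hl : (y ++ [(Sym.ofW x : Sym A M.W)]).length = y.length + 1 := by simp
      have hget : w[y.length]? = some w[y.length] := List.getElem?_eq_getElem hlt
      have hext : ∀ q' : M.Q, ((d = true ∧ q' = c₁.st) ∨
          (d = false ∧ ∃ p, (c₁.st, p) ∈ M.table true y ∧
            (p, q') ∈ M.table true (y ++ [Sym.ofW x]))) →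
          Pt (fs M) w 0 (y ++ [(Sym.ofW x : Sym A M.W)]).length (ini (fs M))
            (nm w (y ++ [Sym.ofW x]), q', M.table true (y ++ [Sym.ofW x])) := by
        intro q' hq'
        rw [hl]
        refine ⟨_, hpt, w[y.length], by rw [Nat.zero_add]; exact hget, ?_⟩
        rw [Mach.table_snoc] at hq' ⊢
        rw [nm_snoc w y _ hget]
        by_cases hx : (Sym.ofW x : Sym A M.W) = Sym.inp w[y.length]
        · -- no mark
          have hxx : x = Sum.inl w[y.length] := ofW_inj (by rw [hx]; rfl)
          left
          rw [hx] at hq' ⊢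
          refine ⟨by simp, ?_, ?_⟩
          · refine ReflTransGen.head (Or.inl ⟨0, le_rfl, Nat.one_pos, rfl, ?_, rfl⟩)
              (after M (l0 M w[y.length]) hq')
            rw [hxx] at hδ
            exact hδ
          · rintro ⟨p, p'⟩ ht
            exact chain' M (l0 M w[y.length]) ht _ (Or.inr rfl)
        · -- a mark
          right
          refine ⟨x, by simp [hx], ⟨d, c₁.st, hδ, after M (l2 M x) hq'⟩, ?_⟩
          rintro ⟨p, p'⟩ ht
          exact chain' M (l2 M x) ht _ (Or.inr rfl)
      cases d with
      | true =>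
        refine ih (y ++ [Sym.ofW x]) c₁ n (by simp; omega) hg₁ (by simp [hp, hpos]) ?_ hrest
        exact hext _ (Or.inl ⟨rfl, rfl⟩)
      | false =>
        have hp₁ : c₁.pos = y.length := by simp [hp, hpos]
        obtain ⟨c₂, n₂, hr₂, hn₂, hT₂, hp₂, ht₂, hsub₂, hsn₂⟩ :=
          M.table_of_run true w.length y n c₁ cf hp₁ ((hg₁.agree M).of_snoc M) hrest (by omega)
        have hg₂ : M.Good w (y ++ [Sym.ofW x]) c₂ := by
          refine hg₁.congr M ht₂ hsub₂ ?_
          intro j hj
          rcases hsn₂ j hj with h | h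
          · exact Or.inl h
          · right; simp; omega
        obtain ⟨c₃, n₃, hr₃, hn₃, hT₃, hp₃, ht₃, hsub₃, hsn₃⟩ :=
          M.table_of_run true w.length (y ++ [Sym.ofW x]) n₂ c₂ cf (by simp [hp₂]) (hg₂.agree M)
            hr₂ (by simp; omega)
        refine ih (y ++ [Sym.ofW x]) c₃ n₃ (by simp; omega) (hg₂.congr M ht₃ hsub₃ hsn₃)
          hp₃ ?_ hr₃
        exact hext _ (Or.inr ⟨rfl, c₂.st, hT₂, hT₃⟩)

end NfaBAux

open NfaBAux in
theorem lb_of_lang {A : Type} (M : Mach A) (k : ℕ) (hM : FewWrites M true k) {w : List A}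
    (h : w ∈ M.lang true) : w ∈ Lb (fs M) k := by
  obtain ⟨cf, hreach, hpos, hF⟩ := h
  obtain ⟨n, hn⟩ := M.exists_steps true hreach
  refine run M k hM w cf hpos hF hreach w.length [] (M.init w) n (by simp) (M.good_init w) rfl
    ?_ hn
  refine ⟨by simp [nm, ini], rfl, ?_⟩
  rintro t ⟨x, hx, _⟩
  exact ⟨x, hx⟩

end Pool.Agent.P0036f5b
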