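import Pool.Agent.Lib.P0036f5b.Defs

/-!
# B5c: the two conventions agree for machines with few writes 

A `Step true` is a `Step false` (`OkW false` holds always).  Let `FewWrites M false k`.  By induction
along a computation with `Step false` from `M.init w`: every step from a reachable configuration `c` is
a `Step true`: if the cell is visited for the first time there is no condition; otherwise `OkW true` is
needed: it is vacuous on end-marker symbols; the scanned cell is `0`, `w.length + 1` (end-markers: the
tape symbol there is the initial one in every reachable configuration, as only letter cells change),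
or a letter cell in `c.seen`, where the third part of `FewWrites` for `cv = false` (`OkW false` is
trivial) gives `Sym.ofW x = c.tape c.pos`.  (If the cell is a letter cell and not in `c.seen`, it is a
first visit.)  So the reachable configurations and the languages agree, and `FewWrites M true k`
follows from `FewWrites M false k` (the third part for `true` has the additional hypothesis
`OkW true`).
-/

set_option autoImplicit false

namespace Pool.Agent.P0036f5b

open Relation Pool.Agent.P0036f5v2 Pool.Agent.P0036f5w Pool.Agent.P0036f5g Pool.Agent.P0036f5k
  Classical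

variable {A Q M : Type}

namespace NfaCAux

/-- a step under the strict convention is a step under the loose convention -/
private theorem step_tf {A : Type} (M : Mach A) {m : ℕ} {c c' : M.Cfg} (h : M.Step true m c c') :
    M.Step false m c c' := by
  obtain ⟨h1, x, d, h2, h3, h4, h5, h6, h7⟩ := h
  exact ⟨h1, x, d, h2, h3, h4, h5, fun h => ⟨(h6 h).1, fun h' => by simp at h'⟩, h7⟩

/-- the end-marker cells are never changed -/
private theorem ends {A : Type} (M : Mach A) (cv : Bool) (w : List A) {c : M.Cfg}
    (h : Reach M cv w c) : ∀ j, ¬ (1 ≤ j ∧ j ≤ w.length) → c.tape j = M.initTape w j := by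
  have h' : ReflTransGen (M.Step cv w.length) (M.init w) c := h
  clear h
  induction h' with
  | refl => intro j _; rfl
  | tail _ hs ih =>
    obtain ⟨h1, x, d, h2, h3, h4, h5, h6, h7⟩ := hs
    intro j hj
    rename_i b c' _
    by_cases hc : 1 ≤ b.pos ∧ b.pos ≤ w.length ∧ b.pos ∉ b.seen
    · rw [h5 hc, Function.update_of_ne, ih j hj]
      rintro rfl
      exact hj ⟨hc.1, hc.2.1⟩
    · rw [(h6 hc).1, ih j hj]

/-- the initial tape outside the letter cells -/
private theorem init_end {A : Type} (M : Mach A) (w : List A) {j : ℕ}
    (hj : ¬ (1 ≤ j ∧ j ≤ w.length)) :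
    M.initTape w j = Sym.lend ∨ M.initTape w j = Sym.rend := by
  unfold Mach.initTape
  by_cases h0 : j = 0
  · left; rw [if_pos h0]
  · right
    rw [if_neg h0, List.getElem?_eq_none (by omega)]

/-- a loose step from a reachable configuration is a strict step -/
private theorem step_ft {A : Type} (M : Mach A) (k : ℕ) (hM : FewWrites M false k) (w : List A)
    {c c' : M.Cfg} (hr : Reach M false w c) (h : M.Step false w.length c c') :
    M.Step true w.length c c' := by
  obtain ⟨h1, x, d, h2, h3, h4, h5, h6, h7⟩ := h
  refine ⟨h1, x, d, h2, h3, h4, h5, fun hc => ⟨(h6 hc).1, ?_⟩, h7⟩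
  intro _ hl hre
  by_cases hp : 1 ≤ c.pos ∧ c.pos ≤ w.length
  · have hs : c.pos ∈ c.seen := by
      by_contra hs
      exact hc ⟨hp.1, hp.2, hs⟩
    exact (hM w c hr).2.2 hs hp.1 hp.2 c'.st x d h2 (fun h => by simp at h)
  · exfalso
    have he := ends M false w hr c.pos hp
    rcases init_end M w hp with h | h
    · exact hl (he.trans h)
    · exact hre (he.trans h)

private theorem reach_tf {A : Type} (M : Mach A) (w : List A) {c : M.Cfg}
    (h : Reach M true w c) : Reach M false w c := by
  have h' : ReflTransGen (M.Step true w.length) (M.init w) c := h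
  have h'' : ReflTransGen (M.Step false w.length) (M.init w) c :=
    ReflTransGen.mono (fun a b hab => step_tf M (c := a) (c' := b) hab) _ _ h'
  exact h''

private theorem reach_ft {A : Type} (M : Mach A) (k : ℕ) (hM : FewWrites M false k) (w : List A)
    {c : M.Cfg} (h : Reach M false w c) : Reach M true w c := by
  have h' : ReflTransGen (M.Step false w.length) (M.init w) c := h
  have h'' : ReflTransGen (M.Step true w.length) (M.init w) c := by
    clear h
    induction h' with
    | refl => exact ReflTransGen.refl
    | tail hab hs ih => exact ih.tail (step_ft M k hM w hab hs)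
  exact h''

end NfaCAux

open NfaCAux in
theorem few_false {A : Type} (M : Mach A) (k : ℕ) (hM : FewWrites M false k) :
    FewWrites M true k ∧ M.lang false = M.lang true := by
  refine ⟨?_, ?_⟩
  · intro w c hr
    obtain ⟨h1, h2, h3⟩ := hM w c (reach_tf M w hr)
    exact ⟨h1, h2, fun hs hp1 hp2 q x d hq _ => h3 hs hp1 hp2 q x d hq (fun h => by simp at h)⟩
  · ext w
    constructor
    · rintro ⟨c, hc, hp, hF⟩
      exact ⟨c, reach_ft M k hM w hc, hp, hF⟩
    · rintro ⟨c, hc, hp, hF⟩
      exact ⟨c, reach_tf M w hc, hp, hF⟩

end Pool.Agent.P0036f5b
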