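import Pool.Agent.Lib.P0036f5b.Defs

/-!
# B13: numerics

Let `l = Nat.log 2 (k + 1) + 1`, so `k + 1 < 2 ^ l`, `l ≤ n ^ 2 + 1`; `4 ≤ n`, `K ≤ 2 n`; take
`mx = l + K + K * K + 1 ≤ 6 n ^ 2` (as `2 n + 2 ≤ n ^ 2`) and `κ = 5 L + 10`, `L = Nat.log 2 n + 1`
(`n < 2 ^ L`, `L ^ 2 ≤ 4 n`, `L ≤ n`).  Everything is bounded by powers of `P = 2 ^ (n ^ 2)`.
-/

set_option autoImplicit false

namespace Pool.Agent.P0036f5b

open Relation Pool.Agent.P0036f5v2 Pool.Agent.P0036f5w Pool.Agent.P0036f5g Pool.Agent.P0036f5k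
  Classical

namespace NumAux

private theorem mulp {P a b i j : ℕ} (h1 : a ≤ P ^ i) (h2 : b ≤ P ^ j) :
    a * b ≤ P ^ (i + j) := by
  rw [pow_add]
  exact Nat.mul_le_mul h1 h2

private theorem addp {P a b i : ℕ} (hP : 16 ≤ P) (h1 : a ≤ P ^ i) (h2 : b ≤ P ^ i) :
    a + b ≤ P ^ (i + 1) := by
  rw [pow_succ]
  have : P ^ i * 2 ≤ P ^ i * P := Nat.mul_le_mul_left _ (by omega)
  omega

private theorem monop {P a i j : ℕ} (hP : 16 ≤ P) (h : a ≤ P ^ i) (hij : i ≤ j) :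
    a ≤ P ^ j :=
  h.trans (Nat.pow_le_pow_right (by omega) hij)

private theorem sq_le (l : ℕ) : l ^ 2 ≤ 2 ^ (l + 1) := by
  rcases Nat.lt_or_ge l 3 with h | h
  · interval_cases l <;> norm_num
  · induction l, h using Nat.le_induction with
    | base => norm_num
    | succ l hl ih =>
      have h1 : (l + 1) ^ 2 ≤ 2 * l ^ 2 := by nlinarith
      calc (l + 1) ^ 2 ≤ 2 * l ^ 2 := h1
        _ ≤ 2 * 2 ^ (l + 1) := Nat.mul_le_mul_left _ ih
        _ = 2 ^ (l + 1 + 1) := by ring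

private theorem big (m : ℕ) (hm : 16 ≤ m) : 28 * m ^ 2 ≤ 2 ^ m := by
  induction m, hm using Nat.le_induction with
  | base => norm_num
  | succ m hm ih =>
    have h1 : (m + 1) ^ 2 ≤ 2 * m ^ 2 := by nlinarith
    calc 28 * (m + 1) ^ 2 ≤ 28 * (2 * m ^ 2) := Nat.mul_le_mul_left _ h1
      _ = 2 * (28 * m ^ 2) := by ring
      _ ≤ 2 * 2 ^ m := Nat.mul_le_mul_left _ ih
      _ = 2 ^ (m + 1) := by ring

end NumAux

open NumAux

theorem num_mainB {k n K a μ : ℕ} (hn : 4 ≤ n) (hK : K ≤ 2 * n) (ha : a ≤ n) (hμ : μ ≤ n)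
    (hk : k + 1 ≤ 2 ^ (n ^ 2)) : ∃ κ mx, VK 2 mx K ≤ 2 ^ κ ∧ NB k K + 1 ≤ 2 ^ mx ∧
      szB k mx K κ μ (Nat.log 2 (k + 1) + 1) a ≤
        2 ^ (1000 * n ^ 2 * (Nat.log 2 (k + 1) + 1)) := by
  have hn2 : 4 * n ≤ n ^ 2 := by nlinarith
  have hll : Nat.log 2 (k + 1) ≤ n ^ 2 := by
    have h1 := Nat.log_mono_right (b := 2) hk
    rwa [Nat.log_pow (by norm_num)] at h1
  have hkl : k + 1 < 2 ^ (Nat.log 2 (k + 1) + 1) := Nat.lt_pow_succ_log_self (by norm_num) _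
  have hl1 : 1 ≤ Nat.log 2 (k + 1) + 1 := by omega
  have hl2 : Nat.log 2 (k + 1) + 1 ≤ n ^ 2 + 1 := by omega
  generalize Nat.log 2 (k + 1) + 1 = l at hkl hl1 hl2 ⊢
  -- the logarithm of `n`
  obtain ⟨L, hL1, hL2, hL3⟩ : ∃ L : ℕ, n < 2 ^ L ∧ L ≤ n ∧ L ^ 2 ≤ 4 * n := by
    refine ⟨Nat.log 2 n + 1, Nat.lt_pow_succ_log_self (by norm_num) n, ?_, ?_⟩
    · have h1 : Nat.log 2 n < n := Nat.log_lt_self 2 (by omega)
      omega
    · have h1 : 2 ^ Nat.log 2 n ≤ n := Nat.pow_log_le_self 2 (by omega)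
      have h2 := sq_le (Nat.log 2 n + 1)
      have h3 : 2 ^ (Nat.log 2 n + 1 + 1) = 4 * 2 ^ Nat.log 2 n := by ring
      omega
  have hKK : K * K ≤ 4 * n ^ 2 := by
    calc K * K ≤ (2 * n) * (2 * n) := Nat.mul_le_mul hK hK
      _ = 4 * n ^ 2 := by ring
  obtain ⟨mx, hmx⟩ : ∃ mx, mx = l + K + K * K + 1 := ⟨_, rfl⟩
  have hmx6 : mx ≤ 6 * n ^ 2 := by omega
  -- `NB`
  have hNB : NB k K + 1 ≤ 2 ^ mx := by
    unfold NB
    have h1 : (k + 1) * (K * 2 ^ (K * K)) ≤ 2 ^ l * (2 ^ K * 2 ^ (K * K)) :=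
      Nat.mul_le_mul hkl.le (Nat.mul_le_mul_right _ (Nat.lt_two_pow_self).le)
    have h2 : 2 ^ mx = 2 * (2 ^ l * (2 ^ K * 2 ^ (K * K))) := by
      rw [hmx, ← pow_add, ← pow_add, ← pow_succ']
      congr 1
      ring
    have h3 : 1 ≤ 2 ^ l * (2 ^ K * 2 ^ (K * K)) := Nat.one_le_iff_ne_zero.2 (by positivity)
    omega
  have hℓ : ℓK mx K ≤ 28 * n ^ 4 := by
    unfold ℓK
    calc (mx + 1) * (K * K) ≤ (7 * n ^ 2) * (4 * n ^ 2) :=
          Nat.mul_le_mul (by omega) hKK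
      _ = 28 * n ^ 4 := by ring
  have hn4 : 16 * n ^ 2 ≤ n ^ 4 := by
    have h1 : 16 ≤ n ^ 2 := by nlinarith
    calc 16 * n ^ 2 ≤ n ^ 2 * n ^ 2 := Nat.mul_le_mul_right _ h1
      _ = n ^ 4 := by ring
  have hLK : LK 2 mx K + 1 ≤ 300 * n ^ 4 := by
    unfold LK
    have h1 : 2 * (2 + 2) * (mx + ℓK mx K) ≤ 8 * (6 * n ^ 2 + 28 * n ^ 4) := by omega
    omega
  have hV : VK 2 mx K ≤ 2 ^ (5 * L + 10) := by
    unfold VK
    calc (LK 2 mx K + 1) * K ≤ (300 * n ^ 4) * (2 * n) := Nat.mul_le_mul hLK hK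
      _ = 600 * n ^ 5 := by ring
      _ ≤ 1024 * (2 ^ L) ^ 5 := Nat.mul_le_mul (by norm_num) (Nat.pow_le_pow_left hL1.le 5)
      _ = 2 ^ (5 * L + 10) := by
        rw [pow_add, ← pow_mul, Nat.mul_comm L 5]
        norm_num
        ring
  refine ⟨5 * L + 10, mx, hV, hNB, ?_⟩
  -- everything as a power of `P = 2 ^ (n ^ 2)`
  have hc0 : cK 2 mx K (5 * L + 10) ≤ (2 ^ (n ^ 2)) ^ 63 := by
    unfold cK
    have h1 : 2 * VK 2 mx K ≤ 2 ^ (5 * L + 11) := by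
      have : (2 : ℕ) ^ (5 * L + 11) = 2 * 2 ^ (5 * L + 10) := by ring
      rw [this]
      exact Nat.mul_le_mul_left _ hV
    calc (2 * VK 2 mx K) ^ (5 * L + 10) ≤ (2 ^ (5 * L + 11)) ^ (5 * L + 10) :=
          Nat.pow_le_pow_left h1 _
      _ = 2 ^ ((5 * L + 11) * (5 * L + 10)) := by rw [← pow_mul]
      _ ≤ 2 ^ (n ^ 2 * 63) := by
        refine Nat.pow_le_pow_right (by norm_num) ?_
        have : (5 * L + 11) * (5 * L + 10) = 25 * L ^ 2 + 105 * L + 110 := by ring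
        omega
      _ = (2 ^ (n ^ 2)) ^ 63 := by rw [← pow_mul]
  have h4K : (2 * (2 * K)) ^ (5 * L + 10) ≤ (2 ^ (n ^ 2)) ^ 14 := by
    have h1 : 2 * (2 * K) ≤ 2 ^ (L + 3) := by
      have : (2 : ℕ) ^ (L + 3) = 8 * 2 ^ L := by ring
      omega
    calc (2 * (2 * K)) ^ (5 * L + 10) ≤ (2 ^ (L + 3)) ^ (5 * L + 10) :=
          Nat.pow_le_pow_left h1 _
      _ = 2 ^ ((L + 3) * (5 * L + 10)) := by rw [← pow_mul]
      _ ≤ 2 ^ (n ^ 2 * 14) := by
        refine Nat.pow_le_pow_right (by norm_num) ?_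
        have : (L + 3) * (5 * L + 10) = 5 * L ^ 2 + 25 * L + 30 := by ring
        omega
      _ = (2 ^ (n ^ 2)) ^ 14 := by rw [← pow_mul]
  have h2mx : 2 ^ mx ≤ (2 ^ (n ^ 2)) ^ 6 := by
    rw [← pow_mul, Nat.mul_comm]
    exact Nat.pow_le_pow_right (by norm_num) hmx6
  have hgoal : (2 : ℕ) ^ (1000 * n ^ 2 * l) = (2 ^ (n ^ 2)) ^ (1000 * l) := by
    rw [← pow_mul]
    congr 1
    ring
  have hbig : 28 * n ^ 4 ≤ 2 ^ (n ^ 2) := by
    have h1 := big (n ^ 2) (by nlinarith)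
    have h2 : (n ^ 2) ^ 2 = n ^ 4 := by ring
    rwa [h2] at h1
  rw [hgoal]
  have hnn : n ≤ n ^ 2 := by omega
  generalize (2 : ℕ) ^ (n ^ 2) = P at *
  have hn2P : 28 * n ^ 2 ≤ P := by omega
  have hP16 : 16 ≤ P := by omega
  have hc16 : ∀ c : ℕ, c ≤ 16 → c ≤ P ^ 1 := by
    intro c hc
    rw [pow_one]
    omega
  have hμP : μ ≤ P ^ 1 := by rw [pow_one]; omega
  have hℓP : ℓK mx K ≤ P ^ 1 := by rw [pow_one]; omega
  have hBK : BK mx K ≤ P ^ 7 := by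
    unfold BK
    exact mulp (i := 6) (j := 1) h2mx hℓP
  have h2B : 2 * BK mx K ≤ P ^ 8 := mulp (i := 1) (j := 7) (hc16 2 (by norm_num)) hBK
  have hN : NB k K ≤ P ^ 6 := by omega
  have hz : zB mx K (5 * L + 10) ≤ P ^ 78 := by
    unfold zB
    refine mulp (i := 1) (j := 77) ?_ (mulp (i := 14) (j := 63) h4K hc0)
    rw [pow_one]
    omega
  have hmB : ∀ d, mB k mx K (5 * L + 10) μ d ≤ P ^ (78 + 24 * d) := by
    intro d
    induction d with
    | zero => exact hz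
    | succ d ih =>
      have e1 : mB k mx K (5 * L + 10) μ (d + 1) = zB mx K (5 * L + 10) +
          2 * BK mx K * (μ * (NB k K * (NB k K * (2 * mB k mx K (5 * L + 10) μ d + 1)))) := rfl
      rw [e1]
      have h1 : 2 * mB k mx K (5 * L + 10) μ d + 1 ≤ P ^ (78 + 24 * d + 2) :=
        monop hP16 (addp (i := 1 + (78 + 24 * d)) hP16
          (mulp (i := 1) (j := 78 + 24 * d) (hc16 2 (by norm_num)) ih)
          (monop hP16 (hc16 1 (by norm_num)) (by omega))) (by omega)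
      have h2 := mulp (i := 8) h2B (mulp (i := 1) hμP (mulp (i := 6) hN (mulp (i := 6) hN h1)))
      exact monop hP16 (addp (i := 78 + 24 * d + 23) hP16 (monop hP16 hz (by omega))
        (monop hP16 h2 (by omega))) (by omega)
  have hm := hmB l
  obtain ⟨x, hx⟩ : ∃ x, x = 78 + 24 * l := ⟨_, rfl⟩
  rw [← hx] at hm
  have hT : TB' k mx K (5 * L + 10) μ l ≤ P ^ (x + 14) := by
    unfold TB'
    have h1 : NB k K * (1 + mB k mx K (5 * L + 10) μ l) ≤ P ^ (x + 7) := by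
      refine (mulp (i := 6) (j := x + 1) hN (addp hP16
        (monop hP16 (hc16 1 (by norm_num)) (by omega)) hm)).trans ?_
      exact Nat.pow_le_pow_right (by omega) (by omega)
    have h2 : 2 * cK 2 mx K (5 * L + 10) ≤ P ^ (x + 7) :=
      monop hP16 (mulp (i := 1) (j := 63) (hc16 2 (by norm_num)) hc0) (by omega)
    have h3 : NB k K * (1 + NB k K * mB k mx K (5 * L + 10) μ l) ≤ P ^ (x + 13) := by
      refine (mulp (i := 6) (j := 6 + x + 1) hN (addp hP16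
        (monop hP16 (hc16 1 (by norm_num)) (by omega)) (mulp hN hm))).trans ?_
      exact Nat.pow_le_pow_right (by omega) (by omega)
    exact addp (i := x + 13) hP16 (monop hP16 (addp (i := x + 7) hP16 h1 h2) (by omega)) h3
  unfold szB
  have h1 : 2 * BK mx K * 4 ≤ P ^ 9 := mulp (i := 8) (j := 1) h2B (hc16 4 (by norm_num))
  have h2 : 4 + 2 + 2 * BK mx K * TB' k mx K (5 * L + 10) μ l ≤ P ^ (x + 23) := by
    have h3 : 2 * BK mx K * TB' k mx K (5 * L + 10) μ l ≤ P ^ (x + 22) := by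
      have := mulp (i := 8) (j := x + 14) h2B hT
      exact this.trans (Nat.pow_le_pow_right (by omega) (by omega))
    exact addp (i := x + 22) hP16 (monop hP16 (hc16 6 (by norm_num)) (by omega)) h3
  have h3 : 2 * BK mx K + 3 ≤ P ^ 9 :=
    addp (i := 8) hP16 h2B (monop hP16 (hc16 3 (by norm_num)) (by norm_num))
  have h4 : 2 * BK mx K * ((4 + 2 + 2 * BK mx K * TB' k mx K (5 * L + 10) μ l) *
      (2 * BK mx K + 3)) ≤ P ^ (x + 40) := by
    have := mulp (i := 8) (j := x + 23 + 9) h2B (mulp h2 h3)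
    exact this.trans (Nat.pow_le_pow_right (by omega) (by omega))
  have h5 : 2 * BK mx K * 4 + 2 * BK mx K *
      ((4 + 2 + 2 * BK mx K * TB' k mx K (5 * L + 10) μ l) *
      (2 * BK mx K + 3)) + 1 ≤ P ^ (x + 42) :=
    addp (i := x + 41) hP16
      (addp (i := x + 40) hP16 (monop hP16 h1 (by omega)) h4)
      (monop hP16 (hc16 1 (by norm_num)) (by omega))
  have h6 : 5 * a * 4 + 5 * a + 17 ≤ P ^ 2 := by
    have h7 : 5 * a * 4 + 5 * a + 17 ≤ 16 * P := by omega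
    exact h7.trans (mulp (i := 1) (j := 1) (hc16 16 le_rfl) (by rw [pow_one]))
  have h7 : a * 4 + 2 * a + 4 ≤ P ^ 2 := by
    have h8 : a * 4 + 2 * a + 4 ≤ 16 * P := by omega
    exact h8.trans (mulp (i := 1) (j := 1) (hc16 16 le_rfl) (by rw [pow_one]))
  have h8 : (2 * BK mx K * 4 + 2 * BK mx K *
      ((4 + 2 + 2 * BK mx K * TB' k mx K (5 * L + 10) μ l) *
      (2 * BK mx K + 3)) + 1) * (5 * a * 4 + 5 * a + 17) ≤ P ^ (x + 44) := by
    have := mulp (i := x + 42) (j := 2) h5 h6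
    exact this.trans (Nat.pow_le_pow_right (by omega) (by omega))
  exact monop hP16 (addp (i := x + 44) hP16 h8 (monop hP16 h7 (by omega))) (by omega)

end Pool.Agent.P0036f5b
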