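import Pool.Agent.Lib.P0036f5b.WDefs

/-!
# B12a: size of the witness machine

Follow `Pool.Agent.Lib.P0036f5k.WitA` (and the section on the size of the witness machine in
`Pool.Agent.Lib.P0036f5v2.Lower`): the set of states `scan, mid, fr, fin`,
`cj β j, lf β j, se β j, ca β j, rw j (j ≤ t)`, `cb β i, rt i, rh i, vk β i, vr i, ve i (i ≤ m)` is closed
(`1 ≤ t`, `1 ≤ m`), it has at most `9 (t + 1) + 8 (m + 1) + 4 ≤ 38 m` elements; 8 letters, 4 marks, 14 tape
symbols, at most two transitions per state and symbol; the size is at most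
`38 m + 8 + 14 + 1 + 38 m + 5 * (38 m * 14 * 2) ≤ 5500 m`.  Restrict with `Mach.restrict`.
`few_restrict`: reachable configurations of the restricted machine are reachable configurations of the
machine (forget the proof in the state), its transitions are transitions of the machine.
-/

set_option autoImplicit false

namespace Pool.Agent.P0036f5b

open Relation Pool.Agent.P0036f5v2 Pool.Agent.P0036f5w Pool.Agent.P0036f5g Pool.Agent.P0036f5k
  Classical

theorem few_restrict {A : Type} (M : Mach A) (cv : Bool) (k : ℕ) (K : Set M.Q) (hI : M.qI ∈ K)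
    (hM : FewWrites M cv k) : FewWrites (M.restrict K hI) cv k := by
  intro w c hr
  have key : ∀ c : (M.restrict K hI).Cfg, Reach (M.restrict K hI) cv w c →
      Reach M cv w ⟨c.st.1, c.pos, c.tape, c.seen⟩ := by
    intro c hr
    let φ : (M.restrict K hI).Cfg → M.Cfg := fun c => ⟨c.st.1, c.pos, c.tape, c.seen⟩
    have : ReflTransGen (M.Step cv w.length) (φ ((M.restrict K hI).init w)) (φ c) := by
      refine ReflTransGen.lift φ ?_ _ _ hr
      rintro a b ⟨h1, x, d, h2, h3, h4, h5, h6, h7⟩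
      exact ⟨h1, x, d, h2, h3, h4, h5, h6, h7⟩
    exact this
  obtain ⟨h1, h2, h3⟩ := hM w _ (key c hr)
  refine ⟨h1, h2, ?_⟩
  intro hs hp1 hp2 q x d hx hok
  exact h3 hs hp1 hp2 q.1 x d hx hok

namespace WitAAux

/-- the states with a bit and a number -/
def fam (g : Bool → ℕ → VQ) (n : ℕ) : Set VQ :=
  (fun p : Bool × ℕ => g p.1 p.2) '' (Set.univ ×ˢ Set.Iic n)

/-- the states that can occur -/
def kst (m t : ℕ) : Set VQ :=
  ((({.scan, .mid, .fr, .fin} ∪ VQ.rw '' Set.Iic t) ∪ (VQ.rt '' Set.Iic m ∪ VQ.rh '' Set.Iic m)) ∪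
    ((VQ.vr '' Set.Iic m ∪ VQ.ve '' Set.Iic m) ∪ (fam VQ.cb m ∪ fam VQ.vk m))) ∪
    ((fam VQ.cj t ∪ fam VQ.lf t) ∪ (fam VQ.se t ∪ fam VQ.ca t))

theorem mem_scan (m t : ℕ) : VQ.scan ∈ kst m t := by simp [kst]
theorem mem_mid (m t : ℕ) : VQ.mid ∈ kst m t := by simp [kst]
theorem mem_fr (m t : ℕ) : VQ.fr ∈ kst m t := by simp [kst]
theorem mem_fin (m t : ℕ) : VQ.fin ∈ kst m t := by simp [kst]
theorem mem_rw (m t j : ℕ) : VQ.rw j ∈ kst m t ↔ j ≤ t := by simp [kst, fam]
theorem mem_rt (m t i : ℕ) : VQ.rt i ∈ kst m t ↔ i ≤ m := by simp [kst, fam]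
theorem mem_rh (m t i : ℕ) : VQ.rh i ∈ kst m t ↔ i ≤ m := by simp [kst, fam]
theorem mem_vr (m t i : ℕ) : VQ.vr i ∈ kst m t ↔ i ≤ m := by simp [kst, fam]
theorem mem_ve (m t i : ℕ) : VQ.ve i ∈ kst m t ↔ i ≤ m := by simp [kst, fam]
theorem mem_cb (m t i : ℕ) (c : Bool) : VQ.cb c i ∈ kst m t ↔ i ≤ m := by
  cases c <;> simp [kst, fam]
theorem mem_vk (m t i : ℕ) (c : Bool) : VQ.vk c i ∈ kst m t ↔ i ≤ m := by
  cases c <;> simp [kst, fam]
theorem mem_cj (m t j : ℕ) (c : Bool) : VQ.cj c j ∈ kst m t ↔ j ≤ t := by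
  cases c <;> simp [kst, fam]
theorem mem_lf (m t j : ℕ) (c : Bool) : VQ.lf c j ∈ kst m t ↔ j ≤ t := by
  cases c <;> simp [kst, fam]
theorem mem_se (m t j : ℕ) (c : Bool) : VQ.se c j ∈ kst m t ↔ j ≤ t := by
  cases c <;> simp [kst, fam]
theorem mem_ca (m t j : ℕ) (c : Bool) : VQ.ca c j ∈ kst m t ↔ j ≤ t := by
  cases c <;> simp [kst, fam]

theorem fam_finite (g : Bool → ℕ → VQ) (n : ℕ) : (fam g n).Finite :=
  (Set.finite_univ.prod (Set.finite_Iic n)).image _

theorem fam_ncard (g : Bool → ℕ → VQ) (n : ℕ) : (fam g n).ncard ≤ 2 * (n + 1) := by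
  have c2 : (Set.Iic n).ncard = n + 1 := by simp [Set.ncard_eq_toFinset_card']
  have c3 : ((Set.univ : Set Bool) ×ˢ Set.Iic n).ncard = 2 * (n + 1) := by
    rw [Set.ncard_prod, c2]
    congr 1
    simp
  exact (Set.ncard_image_le (Set.finite_univ.prod (Set.finite_Iic n))).trans c3.le

theorem im_ncard (g : ℕ → VQ) (n : ℕ) : (g '' Set.Iic n).ncard ≤ n + 1 := by
  have c2 : (Set.Iic n).ncard = n + 1 := by simp [Set.ncard_eq_toFinset_card']
  exact (Set.ncard_image_le (Set.finite_Iic n)).trans c2.le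

theorem kst_finite (m t : ℕ) : (kst m t).Finite := by
  have hi : ∀ (g : ℕ → VQ) (n : ℕ), (g '' Set.Iic n).Finite :=
    fun g n => (Set.finite_Iic n).image g
  unfold kst
  exact ((((Set.toFinite _).union (hi _ _)).union ((hi _ _).union (hi _ _))).union
    (((hi _ _).union (hi _ _)).union ((fam_finite _ _).union (fam_finite _ _)))).union
    (((fam_finite _ _).union (fam_finite _ _)).union ((fam_finite _ _).union (fam_finite _ _)))

theorem kst_ncard (m t : ℕ) : (kst m t).ncard ≤ 9 * (t + 1) + 8 * (m + 1) + 4 := by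
  have i0 : ({.scan, .mid, .fr, .fin} : Set VQ).ncard ≤ 4 := by
    have e1 := Set.ncard_insert_le VQ.scan ({.mid, .fr, .fin} : Set VQ)
    have e2 := Set.ncard_insert_le VQ.mid ({.fr, .fin} : Set VQ)
    have e3 := Set.ncard_insert_le VQ.fr ({.fin} : Set VQ)
    rw [Set.ncard_singleton] at e3
    omega
  have u1 := Set.ncard_union_le (((({.scan, .mid, .fr, .fin} : Set VQ) ∪ VQ.rw '' Set.Iic t) ∪
    (VQ.rt '' Set.Iic m ∪ VQ.rh '' Set.Iic m)) ∪
    ((VQ.vr '' Set.Iic m ∪ VQ.ve '' Set.Iic m) ∪ (fam VQ.cb m ∪ fam VQ.vk m)))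
    ((fam VQ.cj t ∪ fam VQ.lf t) ∪ (fam VQ.se t ∪ fam VQ.ca t))
  have u2 := Set.ncard_union_le ((({.scan, .mid, .fr, .fin} : Set VQ) ∪ VQ.rw '' Set.Iic t) ∪
    (VQ.rt '' Set.Iic m ∪ VQ.rh '' Set.Iic m))
    ((VQ.vr '' Set.Iic m ∪ VQ.ve '' Set.Iic m) ∪ (fam VQ.cb m ∪ fam VQ.vk m))
  have u3 := Set.ncard_union_le (({.scan, .mid, .fr, .fin} : Set VQ) ∪ VQ.rw '' Set.Iic t)
    (VQ.rt '' Set.Iic m ∪ VQ.rh '' Set.Iic m)
  have u4 := Set.ncard_union_le ({.scan, .mid, .fr, .fin} : Set VQ) (VQ.rw '' Set.Iic t)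
  have u5 := Set.ncard_union_le (VQ.rt '' Set.Iic m) (VQ.rh '' Set.Iic m)
  have u6 := Set.ncard_union_le (VQ.vr '' Set.Iic m ∪ VQ.ve '' Set.Iic m)
    (fam VQ.cb m ∪ fam VQ.vk m)
  have u7 := Set.ncard_union_le (VQ.vr '' Set.Iic m) (VQ.ve '' Set.Iic m)
  have u8 := Set.ncard_union_le (fam VQ.cb m) (fam VQ.vk m)
  have u9 := Set.ncard_union_le (fam VQ.cj t ∪ fam VQ.lf t) (fam VQ.se t ∪ fam VQ.ca t)
  have u10 := Set.ncard_union_le (fam VQ.cj t) (fam VQ.lf t)
  have u11 := Set.ncard_union_le (fam VQ.se t) (fam VQ.ca t)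
  have f1 := im_ncard VQ.rw t
  have f2 := im_ncard VQ.rt m
  have f3 := im_ncard VQ.rh m
  have f4 := im_ncard VQ.vr m
  have f5 := im_ncard VQ.ve m
  have f6 := fam_ncard VQ.cb m
  have f7 := fam_ncard VQ.vk m
  have f8 := fam_ncard VQ.cj t
  have f9 := fam_ncard VQ.lf t
  have f10 := fam_ncard VQ.se t
  have f11 := fam_ncard VQ.ca t
  unfold kst
  omega

theorem kst_closed (m t : ℕ) (hm : 1 ≤ m) (ht : 1 ≤ t) : ∀ q ∈ kst m t, ∀ s,
    ∀ x ∈ (vm m t).δ q s, x.1 ∈ kst m t := by
  intro q hq s x hx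
  have hx' : vtr1 m t q s = some x ∨ vtr2 q s = some x := hx
  clear hx
  rcases q with _ | _ | _ | _ | ⟨e, j⟩ | ⟨e, j⟩ | ⟨e, j⟩ | ⟨e, (_ | j)⟩ | ⟨e, i⟩ | i | i |
      ⟨e, (_ | i)⟩ | (_ | i) | (_ | i) | j <;>
    rcases s with (_ | _ | _ | _ | _ | _ | _) | (_ | _ | _) | _ | _ <;>
    simp only [vtr1, vtr2, mem_rw, mem_rt, mem_rh, mem_vr, mem_ve, mem_cb, mem_vk, mem_cj,
      mem_lf, mem_se, mem_ca, reduceCtorEq, or_false, or_self, Option.some.injEq]
      at hx' hq <;>
    (try split_ifs at hx') <;>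
    (try simp only [Option.some.injEq, false_or] at hx') <;>
    (try (rcases hx' with hx' | hx')) <;>
    (try subst hx') <;>
    (try simp only [mem_scan, mem_mid, mem_fr, mem_fin, mem_rw, mem_rt, mem_rh, mem_vr, mem_ve,
      mem_cb, mem_vk, mem_cj, mem_lf, mem_se, mem_ca]) <;>
    (try omega)

end WitAAux

open WitAAux in
theorem vexists_small (m t : ℕ) (hm : 1 ≤ m) (ht : 1 ≤ t) (htm : t ≤ m) :
    ∃ M : LA VA, (∀ cv, M.toMach.lang cv = (vm m t).lang cv) ∧ M.toMach.size ≤ 5500 * m ∧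
      ∀ (cv : Bool) (k : ℕ), FewWrites (vm m t) cv k → FewWrites M.toMach cv k := by
  have hI : (vm m t).qI ∈ kst m t := mem_scan m t
  let M' : Mach VA := (vm m t).restrict (kst m t) hI
  have fQ : Finite M'.Q := (kst_finite m t).to_subtype
  let eW : VW ≃ Bool × Bool :=
    { toFun := fun a => match a with
        | .ms => (false, false)
        | .mr => (false, true)
        | .md β => (true, β)
      invFun := fun a => match a with
        | (false, false) => .ms
        | (false, true) => .mr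
        | (true, β) => .md β
      left_inv := fun a => by rcases a with _ | _ | β <;> rfl
      right_inv := fun a => by rcases a with ⟨_ | _, _ | _⟩ <;> rfl }
  have fW0 : Finite VW := Finite.of_equiv _ eW.symm
  have fW : Finite M'.W := fW0
  refine ⟨⟨M', fQ, fW⟩, ?_, ?_, ?_⟩
  · intro cv
    exact Mach.restrict_lang _ cv _ hI (kst_closed m t hm ht)
  · show M'.size ≤ _
    let eA : VA ≃ (Bool × Bool) ⊕ (Bool × Bool) :=
      { toFun := fun v => match v with
          | .s => .inl (false, false)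
          | .c => .inl (false, true)
          | .a => .inl (true, false)
          | .b => .inl (true, true)
          | .d β => .inr (true, β)
          | .h => .inr (false, false)
          | .r => .inr (false, true)
        invFun := fun a => match a with
          | .inl (false, false) => .s
          | .inl (false, true) => .c
          | .inl (true, false) => .a
          | .inl (true, true) => .b
          | .inr (true, β) => .d β
          | .inr (false, false) => .h
          | .inr (false, true) => .r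
        left_inv := fun v => by rcases v with _ | _ | _ | _ | β | _ | _ <;> rfl
        right_inv := fun a => by rcases a with ⟨_ | _, _ | _⟩ | ⟨_ | _, _ | _⟩ <;> rfl }
    have fA : Finite VA := Finite.of_equiv _ eA.symm
    have hA : Nat.card VA = 8 := by
      rw [Nat.card_congr eA]
      simp
    have hW : Nat.card VW = 4 := by
      rw [Nat.card_congr eW]
      simp
    have hS : Nat.card (Sym VA M'.W) = 14 := by
      have : Nat.card (Sym VA VW) = 14 := by
        rw [card_sym, hA, hW]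
      exact this
    have hQ : Nat.card M'.Q = (kst m t).ncard := rfl
    have hF : M'.F.ncard ≤ Nat.card M'.Q := Set.ncard_le_card M'.F
    have fS : Finite (Sym VA M'.W) := by
      apply Nat.finite_of_card_ne_zero
      rw [hS]
      norm_num
    have hT : Nat.card {t : (M'.Q × Sym VA M'.W) ×
        (M'.Q × (VA ⊕ M'.W) × Bool) // t.2 ∈ M'.δ t.1.1 t.1.2} ≤
        Nat.card ((M'.Q × Sym VA M'.W) × Bool) := by
      refine Nat.card_le_card_of_injective
        (fun u => (u.1.1, decide (vtr1 m t u.1.1.1.1 u.1.1.2 = some (u.1.2.1.1, u.1.2.2)))) ?_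
      rintro ⟨⟨⟨q, s⟩, ⟨r, y⟩⟩, h⟩ ⟨⟨⟨q', s'⟩, ⟨r', y'⟩⟩, h'⟩ heq
      simp only [Prod.mk.injEq] at heq
      obtain ⟨⟨rfl, rfl⟩, hd⟩ := heq
      have h1 : vtr1 m t q.1 s = some (r.1, y) ∨ vtr2 q.1 s = some (r.1, y) := h
      have h2 : vtr1 m t q.1 s = some (r'.1, y') ∨ vtr2 q.1 s = some (r'.1, y') := h'
      have h3 : (vtr1 m t q.1 s = some (r.1, y)) ↔ (vtr1 m t q.1 s = some (r'.1, y')) := by
        simpa using hd
      have h4 : (r.1, y) = (r'.1, y') := by
        by_cases hc : vtr1 m t q.1 s = some (r.1, y)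
        · have := h3.1 hc
          rw [hc] at this
          exact Option.some.inj this
        · have hc' : ¬ vtr1 m t q.1 s = some (r'.1, y') := fun h => hc (h3.2 h)
          have a1 := h1.resolve_left hc
          have a2 := h2.resolve_left hc'
          rw [a1] at a2
          exact Option.some.inj a2
      have h5 : r = r' := Subtype.ext (congrArg Prod.fst h4)
      have h6 : y = y' := congrArg Prod.snd h4
      subst h5 h6
      rfl
    rw [Nat.card_prod, Nat.card_prod, hS] at hT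
    have hB : Nat.card Bool = 2 := by simp
    rw [hB] at hT
    have hK := kst_ncard m t
    unfold Mach.size
    rw [hA, hS]
    rw [hQ] at hT hF ⊢
    omega
  · intro cv k hk
    exact few_restrict (vm m t) cv k (kst m t) hI hk

end Pool.Agent.P0036f5b
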