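import Pool.Agent.Lib.P0036f5b.WitB1

/-!
# B12c: correct test words are accepted (the proof below is formalized; layout and tapes from WitB1)

The input is `w = vX m t Fs ++ vY m t G`.  Tape positions: the block of `Fs[l]` starts at some `g_l`
(letter `s`), the letter `h` is at `H = (vX m t Fs).length + 1`; the row `j ∈ {1, …, t}` of the test starts
with `r` at `H + (j - 1) (m + 1) + 1`, and the bit `(j, i)` is at `P (j, i) = H + (j - 1) (m + 1) + 1 + i`.
After the block `l` has been marked, the test cells in `(H, f]` are marked.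
The cycle for the cell `f = P (j, i)`, `β = G (j, i)`: `cj β j'` on the cells left of `f` with `j'` = number
of `mr` already passed, then `lf β j` from `H - 1` down to `g_l`, `se β j` inside the block, `ca β`, `cb β` in
the entry `(j, i')` with `F (j, i') = β`, `rt i'`, `rh i'` to the fresh cell `f + 1`; there: `vk β' i'` if
`f + 1 = P (j, i + 1)`, `vr i'` if `i = m`, `j < t`, `ve i'` if `f` is the last cell; the number of marked
bits from `f` to the left up to the first `mr` is `i`, so `i' = i`.  After `vk`: `cj β' 1` at the `mr` of the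
row `j`, the same cycle with `f + 1`; after `vr`: `rw` counts to `j + 1 ≤ t` and `fr` goes to
`P (j + 1, 1)`; after `ve`: `fin`.

Every step is possible: the transitions used write the symbol they read, except the marking of `g_l` and
of the fresh test cells.  Convenient: a tape `τ_f` (block `l` marked, test cells in `(H, f]` marked), one
lemma for steps inside (`(q', x, e) ∈ δ q (τ_f p)` with `Sym.ofW x = τ_f p` gives a step to `q'`, `p ± 1`,
tape `τ_f`, whatever the seen set is; keep: the seen cells `> H` are those in `(H, f]`, the cells `≤ H`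
may be seen or not since they are not changed any more), one for the first visit of `f + 1` (to
`τ_(f+1)`).  Compare `P0036f5k/WitB2.lean` (helper6: step lemmas `R.right`, `R.left`, `R.mark`, `Dat` in
`WitB2Aux`).
-/

set_option autoImplicit false

namespace Pool.Agent.P0036f5b

open Relation Pool.Agent.P0036f5v2 Pool.Agent.P0036f5w Pool.Agent.P0036f5g Pool.Agent.P0036f5k
  Classical

namespace WitB2Aux

open WitB1Aux

/-- data of a correct test word -/
structure Dat (m t A H Z : ℕ) (F G : ℕ → ℕ → Bool) (w : List VA) : Prop where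
  m1 : 1 ≤ m
  t1 : 1 ≤ t
  tf : TF m t A H Z F G ((vm m t).initTape w)
  fn : ∀ p, A < p → p < Z → ∃ x, (vm m t).initTape w p = .inp x ∧ x.blk = true ∧ x ≠ .s
  fc : ∀ j i, 1 ≤ j → j ≤ t → 1 ≤ i → i ≤ m →
    ∃ e, A < e ∧ (vm m t).initTape w e = .inp .c ∧ Ent m t F Z ((vm m t).initTape w) e j i
  fA : (vm m t).initTape w A = .inp .s
  fl : ∀ p, 1 ≤ p → p < A → ∃ x, (vm m t).initTape w p = .inp x ∧ x.blk = true
  len : w.length = H + t * (m + 1)
  eq : vEq m t F G

/-- reachable with `K` marked test cells -/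
def R (m t : ℕ) (cv : Bool) (w : List VA) (A H K : ℕ) (q : VQ) (p : ℕ) : Prop :=
  ∃ sn : Set ℕ, ReflTransGen ((vm m t).Step cv w.length) ((vm m t).init w)
    ⟨q, p, TK A H ((vm m t).initTape w) K, sn⟩ ∧ ∀ i ∈ sn, i ≤ H + K ∨ H + t * (m + 1) < i

variable {m t A H Z K : ℕ} {F G : ℕ → ℕ → Bool} {w : List VA} {cv : Bool}

lemma R.step (D : Dat m t A H Z F G w) {q q' : VQ} {p p' : ℕ} {x : VA ⊕ VW} {d : Bool}
    (h : R m t cv w A H K q p) (hp : 1 ≤ p) (hp1 : p ≤ H + K ∨ p = H + 1 + t * (m + 1))
    (hK : K ≤ t * (m + 1))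
    (hx : Sym.ofW x = TK A H ((vm m t).initTape w) K p ∨ p = H + 1 + t * (m + 1))
    (hp2 : p' = if d = true then p + 1 else p - 1)
    (ht : vtr1 m t q (TK A H ((vm m t).initTape w) K p) = some (q', x, d) ∨
      vtr2 q (TK A H ((vm m t).initTape w) K p) = some (q', x, d)) :
    R m t cv w A H K q' p' := by
  obtain ⟨sn, hr, hs⟩ := h
  have hlen := D.len
  have hAH : A < H := by have := D.tf.hAZ; have := D.tf.hZH; omega
  refine ⟨insert p sn, hr.tail ⟨by simp only; omega, x, d, ht,
    fun h0 => by simp only at h0; omega, hp2, ?_, ?_, rfl⟩, ?_⟩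
  · rintro ⟨_, h2, _⟩
    simp only at h2
    rcases hx with hx | hx
    · simp only
      rw [hx, Function.update_eq_self]
    · omega
  · intro _
    refine ⟨rfl, fun _ _ h3 => ?_⟩
    rcases hx with hx | hx
    · exact hx
    · exfalso
      apply h3
      simp only
      rw [hx, tk_high hAH.le (by omega)]
      exact D.tf.fe
  · rintro i (hi | hi)
    · omega
    · exact hs i hi

lemma R.mark (D : Dat m t A H Z F G w) {q q' : VQ} {p' : ℕ} {x : VA ⊕ VW} {d : Bool}
    (h : R m t cv w A H K q (H + 1 + K)) (hK : K < t * (m + 1))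
    (hx : Sym.ofW x = .wrk (mk ((vm m t).initTape w (H + 1 + K))))
    (hp2 : p' = if d = true then H + 1 + K + 1 else H + 1 + K - 1)
    (ht : vtr1 m t q ((vm m t).initTape w (H + 1 + K)) = some (q', x, d)) :
    R m t cv w A H (K + 1) q' p' := by
  obtain ⟨sn, hr, hs⟩ := h
  have hlen := D.len
  have hAH : A < H := by have := D.tf.hAZ; have := D.tf.hZH; omega
  have e : TK A H ((vm m t).initTape w) K (H + 1 + K) = (vm m t).initTape w (H + 1 + K) :=
    tk_high hAH.le (by omega)
  have hns : H + 1 + K ∉ sn := fun hc => by have := hs _ hc; omega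
  refine ⟨insert (H + 1 + K) sn, hr.tail ⟨by simp only; omega, x, d,
    Or.inl (by simp only; rw [e]; exact ht), fun h0 => by simp only at h0; omega, hp2,
    ?_, ?_, rfl⟩, ?_⟩
  · intro _
    simp only
    rw [hx]
    exact (tk_update hAH _ rfl).symm
  · intro hc
    exact absurd ⟨by simp only; omega, by simp only; omega, hns⟩ hc
  · rintro i (hi | hi)
    · left; omega
    · have := hs i hi; omega

lemma R.right (D : Dat m t A H Z F G w) {q q' : VQ} {p : ℕ} {y : VA}
    (h : R m t cv w A H K q p) (hK : K ≤ t * (m + 1)) (hp : A < p) (hpH : p ≤ H)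
    (hy : (vm m t).initTape w p = .inp y)
    (ht : vtr1 m t q (.inp y) = some (q', .inl y, true) ∨
      vtr2 q (.inp y) = some (q', .inl y, true)) : R m t cv w A H K q' (p + 1) := by
  have e : TK A H ((vm m t).initTape w) K p = .inp y := by
    rw [tk_low (by omega) hpH, hy]
  refine R.step D (x := .inl y) (d := true) h (by omega) (Or.inl (by omega)) hK
    (Or.inl (by rw [e]; rfl)) (by rw [if_pos rfl]) ?_
  rw [e]
  exact ht

lemma R.left (D : Dat m t A H Z F G w) {q q' : VQ} {p : ℕ} {y : VA}
    (h : R m t cv w A H K q (p + 1)) (hK : K ≤ t * (m + 1)) (hp : A ≤ p) (hpH : p + 1 ≤ H)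
    (hy : (vm m t).initTape w (p + 1) = .inp y)
    (ht : vtr1 m t q (.inp y) = some (q', .inl y, false)) : R m t cv w A H K q' p := by
  have e : TK A H ((vm m t).initTape w) K (p + 1) = .inp y := by
    rw [tk_low (by omega) hpH, hy]
  refine R.step D (x := .inl y) (d := false) h (by omega) (Or.inl (by omega)) hK
    (Or.inl (by rw [e]; rfl)) (by simp) ?_
  rw [e]
  exact Or.inl ht

lemma R.wleft (D : Dat m t A H Z F G w) {q q' : VQ} {k : ℕ} {v : VW}
    (h : R m t cv w A H K q (H + 1 + k)) (hK : K ≤ t * (m + 1)) (hk : k < K)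
    (hv : TK A H ((vm m t).initTape w) K (H + 1 + k) = .wrk v)
    (ht : vtr1 m t q (.wrk v) = some (q', .inr v, false)) : R m t cv w A H K q' (H + k) := by
  refine R.step D (x := .inr v) (d := false) h (by omega) (Or.inl (by omega)) hK
    (Or.inl (by rw [hv]; rfl)) (by rw [if_neg (by simp)]; omega) ?_
  rw [hv]
  exact Or.inl ht

lemma R.wright (D : Dat m t A H Z F G w) {q q' : VQ} {k : ℕ} {v : VW}
    (h : R m t cv w A H K q (H + 1 + k)) (hK : K ≤ t * (m + 1)) (hk : k < K)
    (hv : TK A H ((vm m t).initTape w) K (H + 1 + k) = .wrk v)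
    (ht : vtr1 m t q (.wrk v) = some (q', .inr v, true)) :
    R m t cv w A H K q' (H + 1 + (k + 1)) := by
  refine R.step D (x := .inr v) (d := true) h (by omega) (Or.inl (by omega)) hK
    (Or.inl (by rw [hv]; rfl)) (by rw [if_pos rfl]; omega) ?_
  rw [hv]
  exact Or.inl ht

/-- to the right over letters of the blocks, up to `h` -/
lemma goR (D : Dat m t A H Z F G w) {q q' : VQ} {p : ℕ} (hK : K ≤ t * (m + 1))
    (hq : ∀ x : VA, x.blk = true → vtr1 m t q (.inp x) = some (q, .inl x, true))
    (hq' : vtr1 m t q (.inp .h) = some (q', .inl .h, true)) (h : R m t cv w A H K q p)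
    (hp : A < p) (hpH : p ≤ H) : R m t cv w A H K q' (H + 1) := by
  have key : ∀ k, p + k ≤ H → R m t cv w A H K q (p + k) := by
    intro k
    induction k with
    | zero => intro _; exact h
    | succ k ih =>
      intro hk
      obtain ⟨y, hy, hb⟩ := D.tf.fb (p + k) (by omega) (by omega)
      exact (ih (by omega)).right D hK (by omega) (by omega) hy (Or.inl (hq y hb))
  have h1 := key (H - p) (by omega)
  have e : p + (H - p) = H := by omega
  rw [e] at h1
  exact h1.right D hK (by have := D.tf.hAZ; have := D.tf.hZH; omega) le_rfl D.tf.fH (Or.inl hq')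

/-- to the right over the marks -/
lemma goM (D : Dat m t A H Z F G w) {q : VQ} (hK : K ≤ t * (m + 1))
    (hq : ∀ v : VW, v ≠ .ms → vtr1 m t q (.wrk v) = some (q, .inr v, true)) {a : ℕ}
    (h : R m t cv w A H K q (H + 1 + a)) (ha : a ≤ K) : R m t cv w A H K q (H + 1 + K) := by
  have key : ∀ k, a + k ≤ K → R m t cv w A H K q (H + 1 + (a + k)) := by
    intro k
    induction k with
    | zero => intro _; exact h
    | succ k ih =>
      intro hk
      have h1 := ih (by omega)
      rcases D.tf.marked (K := K) (k := a + k) (by omega) hK with ⟨j, c1, c2, c3⟩ |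
        ⟨j, i, c1, c2, c3, c4, c5⟩
      · exact h1.wright D hK (by omega) c3 (hq _ (by simp))
      · exact h1.wright D hK (by omega) c5 (hq _ (by simp))
  have h1 := key (K - a) (by omega)
  have e : a + (K - a) = K := by omega
  rw [e] at h1
  exact h1

/-- counting the rows -/
lemma cj_walk (D : Dat m t A H Z F G w) {j : ℕ} {β : Bool} (hK : K ≤ t * (m + 1))
    (hj : j + 1 ≤ t) : ∀ x c q, x ≤ K → x ≤ q * (m + 1) → q * (m + 1) < x + (m + 1) →
      c + q = j + 1 → R m t cv w A H K (.cj β c) (H + x) →
      R m t cv w A H K (.lf β (j + 1)) (H - 1) := by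
  have hA := D.tf.hA
  have hAH : A < H := by have := D.tf.hAZ; have := D.tf.hZH; omega
  intro x
  induction x with
  | zero =>
    intro c q h1 h2 h3 h4 h
    have hq : q = 0 := by
      by_contra hq
      have : 1 * (m + 1) ≤ q * (m + 1) := Nat.mul_le_mul_right _ (by omega)
      omega
    have hc : c = j + 1 := by omega
    subst hc
    have e : H + 0 = (H - 1) + 1 := by omega
    rw [e] at h
    refine h.left D hK (by omega) (by omega) (y := .h) ?_ rfl
    have e2 : H - 1 + 1 = H := by omega
    rw [e2]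
    exact D.tf.fH
  | succ x ih =>
    intro c q h1 h2 h3 h4 h
    have hpe : H + (x + 1) = H + 1 + x := by omega
    rw [hpe] at h
    rcases D.tf.marked (K := K) (k := x) (by omega) hK with ⟨j2, c1, c2, c3⟩ |
      ⟨j2, i2, c1, c2, c3, c4, c5⟩
    · have hq1 : j2 < q := by
        refine lt_of_mul_lt_mul_right (a := m + 1) ?_ (Nat.zero_le _)
        omega
      have hq2 : q < j2 + 2 := by
        refine lt_of_mul_lt_mul_right (a := m + 1) ?_ (Nat.zero_le _)
        rw [Nat.add_mul]
        omega
      refine ih (c + 1) j2 (by omega) (by omega) (by omega) (by omega) ?_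
      refine h.wleft D hK (by omega) c3 ?_
      simp only [vtr1]
      rw [if_pos (by omega)]
    · refine ih c q (by omega) (by omega) ?_ h4 (h.wleft D hK (by omega) c5 rfl)
      by_contra hc
      have e1 : q * (m + 1) = j2 * (m + 1) + i2 + (m + 1) := by omega
      have hq : 0 < q := by
        rcases Nat.eq_zero_or_pos q with h0 | h0
        · rw [h0, Nat.zero_mul] at e1; omega
        · exact h0
      obtain ⟨q1, rfl⟩ : ∃ q1, q = q1 + 1 := ⟨q - 1, by omega⟩
      rw [Nat.succ_mul] at e1
      obtain ⟨-, h9⟩ := uniq (j := q1) (i := 0) (j' := j2) (i' := i2) (Nat.zero_le _) c3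
        (by omega)
      omega

/-- counting the rows, before a new row -/
lemma rw_walk (D : Dat m t A H Z F G w) {j : ℕ} (hK : K ≤ t * (m + 1))
    (hj : j + 1 ≤ t) : ∀ x c q, x ≤ K → x ≤ q * (m + 1) → q * (m + 1) < x + (m + 1) →
      c + q = j + 1 → R m t cv w A H K (.rw c) (H + x) →
      R m t cv w A H K .fr (H + 1) := by
  have hA := D.tf.hA
  have hAH : A < H := by have := D.tf.hAZ; have := D.tf.hZH; omega
  intro x
  induction x with
  | zero =>
    intro c q h1 h2 h3 h4 h
    rw [Nat.add_zero] at h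
    exact h.right D hK (by omega) (by omega) D.tf.fH (Or.inl rfl)
  | succ x ih =>
    intro c q h1 h2 h3 h4 h
    have hpe : H + (x + 1) = H + 1 + x := by omega
    rw [hpe] at h
    rcases D.tf.marked (K := K) (k := x) (by omega) hK with ⟨j2, c1, c2, c3⟩ |
      ⟨j2, i2, c1, c2, c3, c4, c5⟩
    · have hq1 : j2 < q := by
        refine lt_of_mul_lt_mul_right (a := m + 1) ?_ (Nat.zero_le _)
        omega
      have hq2 : q < j2 + 2 := by
        refine lt_of_mul_lt_mul_right (a := m + 1) ?_ (Nat.zero_le _)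
        rw [Nat.add_mul]
        omega
      refine ih (c + 1) j2 (by omega) (by omega) (by omega) (by omega) ?_
      refine h.wleft D hK (by omega) c3 ?_
      simp only [vtr1]
      rw [if_pos (by omega)]
    · refine ih c q (by omega) (by omega) ?_ h4 (h.wleft D hK (by omega) c5 rfl)
      by_contra hc
      have e1 : q * (m + 1) = j2 * (m + 1) + i2 + (m + 1) := by omega
      have hq : 0 < q := by
        rcases Nat.eq_zero_or_pos q with h0 | h0
        · rw [h0, Nat.zero_mul] at e1; omega
        · exact h0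
      obtain ⟨q1, rfl⟩ : ∃ q1, q = q1 + 1 := ⟨q - 1, by omega⟩
      rw [Nat.succ_mul] at e1
      obtain ⟨-, h9⟩ := uniq (j := q1) (i := 0) (j' := j2) (i' := i2) (Nat.zero_le _) c3
        (by omega)
      omega

/-- checking the column number -/
lemma col_walk (D : Dat m t A H Z F G w) {j : ℕ} (S : ℕ → VQ) (hK : K ≤ t * (m + 1))
    (hS : ∀ i β, vtr1 m t (S (i + 1)) (.wrk (.md β)) = some (S i, .inr (.md β), false)) :
    ∀ y, y ≤ m → j * (m + 1) + y < K → R m t cv w A H K (S y) (H + 1 + (j * (m + 1) + y)) →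
      R m t cv w A H K (S 0) (H + 1 + j * (m + 1)) := by
  intro y
  induction y with
  | zero => intro _ _ h; exact h
  | succ y ih =>
    intro hy hy' h
    refine ih (by omega) (by omega) ?_
    rcases D.tf.marked (K := K) (k := j * (m + 1) + (y + 1)) (by omega) hK with
      ⟨j2, c1, c2, c3⟩ | ⟨j2, i2, c1, c2, c3, c4, c5⟩
    · exfalso
      obtain ⟨-, h9⟩ := uniq (m := m) (j := j) (i := y + 1) (j' := j2) (i' := 0) hy
        (Nat.zero_le _) (by omega)
      omega
    · have h1 := h.wleft D hK (by omega) c5 (hS y _)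
      have e : H + (j * (m + 1) + (y + 1)) = H + 1 + (j * (m + 1) + y) := by omega
      rwa [e] at h1

lemma kle {j i : ℕ} (hj : j < t) (hi : i ≤ m) : j * (m + 1) + i + 1 ≤ t * (m + 1) := by
  have : (j + 1) * (m + 1) ≤ t * (m + 1) := Nat.mul_le_mul_right _ hj
  rw [Nat.succ_mul] at this
  omega

/-- the mark at the start of a row -/
lemma row_mark (D : Dat m t A H Z F G w) {j : ℕ} (hK : K ≤ t * (m + 1))
    (h : j * (m + 1) < K) :
    TK A H ((vm m t).initTape w) K (H + 1 + j * (m + 1)) = .wrk .mr := by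
  rcases D.tf.marked (K := K) (k := j * (m + 1)) h hK with
    ⟨j2, c1, c2, c3⟩ | ⟨j2, i2, c1, c2, c3, c4, c5⟩
  · exact c3
  · exfalso
    obtain ⟨-, h9⟩ := uniq (m := m) (j := j) (i := 0) (j' := j2) (i' := i2) (Nat.zero_le _)
      c3 (by omega)
    omega

/-- one round -/
lemma round (D : Dat m t A H Z F G w) {j i : ℕ} (hj : j < t) (hi : 1 ≤ i) (him : i ≤ m)
    (h : R m t cv w A H (j * (m + 1) + i + 1) (.lf (G (j + 1) i) (j + 1)) (H - 1)) :
    R m t cv w A H (j * (m + 1) + i + 1) (.rh i) (H + 1 + (j * (m + 1) + i + 1)) := by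
  have hK : j * (m + 1) + i + 1 ≤ t * (m + 1) := kle hj him
  have hA := D.tf.hA
  have hAZ := D.tf.hAZ
  have hZH := D.tf.hZH
  obtain ⟨e, he1, he2, hE⟩ := D.fc (j + 1) i (by omega) (by omega) hi him
  obtain ⟨_, _, _, _, e5, e6, e7, e8⟩ := hE
  generalize j * (m + 1) + i + 1 = K at h hK ⊢
  have hlf : ∀ k, A + k ≤ H - 1 →
      R m t cv w A H K (.lf (G (j + 1) i) (j + 1)) (H - 1 - k) := by
    intro k
    induction k with
    | zero => intro _; exact h
    | succ k ih =>
      intro hk
      have h1 := ih (by omega)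
      have e0 : H - 1 - k = (H - 1 - (k + 1)) + 1 := by omega
      rw [e0] at h1
      obtain ⟨y, hy, hb⟩ := D.tf.fb (H - 1 - (k + 1) + 1) (by omega) (by omega)
      refine h1.left D hK (by omega) (by omega) hy ?_
      simp only [vtr1, if_pos hb]
  have h2 := hlf (H - 1 - A) (by omega)
  have e0 : H - 1 - (H - 1 - A) = A := by omega
  rw [e0] at h2
  have h3 : R m t cv w A H K (.se (G (j + 1) i) (j + 1)) (A + 1) := by
    refine R.step D (x := .inr .ms) (d := true) h2 hA (Or.inl (by omega)) hK
      (Or.inl (by rw [tk_A]; rfl)) (by rw [if_pos rfl]) ?_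
    rw [tk_A]
    exact Or.inl rfl
  have hse : ∀ k, A + 1 + k ≤ e →
      R m t cv w A H K (.se (G (j + 1) i) (j + 1)) (A + 1 + k) := by
    intro k
    induction k with
    | zero => intro _; exact h3
    | succ k ih =>
      intro hk
      have h1 := ih (by omega)
      obtain ⟨y, hy, hb, hs⟩ := D.fn (A + 1 + k) (by omega) (by omega)
      refine h1.right D hK (by omega) (by omega) hy ?_
      cases y with
      | s => exact absurd rfl hs
      | h => simp [VA.blk] at hb
      | r => simp [VA.blk] at hb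
      | a => exact Or.inl rfl
      | b => exact Or.inl rfl
      | d γ => exact Or.inl rfl
      | c => exact Or.inr rfl
  have h4 := hse (e - (A + 1)) (by omega)
  have e0 : A + 1 + (e - (A + 1)) = e := by omega
  rw [e0] at h4
  have h5 : R m t cv w A H K (.ca (G (j + 1) i) (j + 1)) (e + 1) :=
    h4.right D hK (by omega) (by omega) he2 (Or.inl rfl)
  have hca : ∀ u v, u + v = j + 1 → R m t cv w A H K (.ca (G (j + 1) i) v) (e + 1 + u) := by
    intro u
    induction u with
    | zero =>
      intro v hv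
      have : v = j + 1 := by omega
      subst this
      exact h5
    | succ u ih =>
      intro v hv
      exact (ih (v + 1) (by omega)).right D hK (by omega) (by omega) (e5 u (by omega))
        (Or.inl rfl)
  have h6 : R m t cv w A H K (.cb (G (j + 1) i) 1) (e + 1 + (j + 1) + 1) :=
    (hca (j + 1) 0 (by omega)).right D hK (by omega) (by omega)
      (by have := e6 0 (by omega); rwa [Nat.add_zero] at this) (Or.inl rfl)
  have hcb : ∀ u, u + 1 ≤ i →
      R m t cv w A H K (.cb (G (j + 1) i) (u + 1)) (e + 1 + (j + 1) + (u + 1)) := by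
    intro u
    induction u with
    | zero => intro _; exact h6
    | succ u ih =>
      intro hu
      refine (ih (by omega)).right D hK (by omega) (by omega) (e6 (u + 1) (by omega)) ?_
      left
      simp only [vtr1]
      rw [if_pos (by omega)]
  have h7 := hcb (i - 1) (by omega)
  have e0 : i - 1 + 1 = i := by omega
  rw [e0] at h7
  have h8 : R m t cv w A H K (.rt i) (e + 1 + (j + 1) + i + 1) := by
    refine h7.right D hK (by omega) (by omega) e7 (Or.inl ?_)
    simp only [vtr1]
    rw [if_pos (D.eq (j + 1) i (by omega) (by omega) hi him)]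
  have h9 : R m t cv w A H K (.rh i) (H + 1) := by
    refine goR D hK ?_ ?_ h8 (by omega) (by omega)
    · intro x hx
      simp only [vtr1, if_pos hx]
    · simp [vtr1, VA.blk]
  refine goM D hK ?_ (a := 0) h9 (Nat.zero_le _)
  intro v hv
  cases v with
  | ms => exact absurd rfl hv
  | mr => rfl
  | md γ => rfl

/-- the next cell of the row -/
lemma next (D : Dat m t A H Z F G w) {j i : ℕ} (hj : j < t) (hi : 1 ≤ i) (him : i < m)
    (h : R m t cv w A H (j * (m + 1) + i + 1) (.lf (G (j + 1) i) (j + 1)) (H - 1)) :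
    R m t cv w A H (j * (m + 1) + (i + 1) + 1) (.lf (G (j + 1) (i + 1)) (j + 1)) (H - 1) := by
  have hK : j * (m + 1) + (i + 1) + 1 ≤ t * (m + 1) := kle hj him
  have h1 := round D hj hi him.le h
  have hd := D.tf.fd j hj (i + 1) (by omega) (by omega)
  have h2 : R m t cv w A H (j * (m + 1) + i + 1 + 1) (.vk (G (j + 1) (i + 1)) i)
      (H + 1 + (j * (m + 1) + i)) := by
    refine R.mark D (x := .inr (.md (G (j + 1) (i + 1)))) (d := false) h1 (by omega) ?_
      (by rw [if_neg (by simp)]; omega) ?_
    · have e : H + 1 + (j * (m + 1) + i + 1) = H + 1 + (j * (m + 1) + (i + 1)) := by omega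
      rw [e, hd]
      rfl
    · have e : H + 1 + (j * (m + 1) + i + 1) = H + 1 + (j * (m + 1) + (i + 1)) := by omega
      rw [e, hd]
      rfl
  have h3 := col_walk D (j := j) (.vk (G (j + 1) (i + 1))) (by omega) (fun _ _ => rfl) i
    (by omega) (by omega) h2
  have h4 : R m t cv w A H (j * (m + 1) + i + 1 + 1) (.cj (G (j + 1) (i + 1)) 1)
      (H + j * (m + 1)) :=
    h3.wleft D (by omega) (by omega) (row_mark D (by omega) (by omega)) rfl
  exact cj_walk D hK (by omega) (j * (m + 1)) 1 j (by omega) le_rfl (by omega) (by omega) h4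

/-- the first cell of a row, after `fr` -/
lemma first (D : Dat m t A H Z F G w) {j : ℕ} (hj : j < t)
    (h : R m t cv w A H (j * (m + 1) + 1) .fr (H + 1)) :
    R m t cv w A H (j * (m + 1) + 1 + 1) (.lf (G (j + 1) 1) (j + 1)) (H - 1) := by
  have hm := D.m1
  have hK : j * (m + 1) + 1 + 1 ≤ t * (m + 1) := kle hj hm
  have h1 : R m t cv w A H (j * (m + 1) + 1) .fr (H + 1 + (j * (m + 1) + 1)) := by
    refine goM D (by omega) ?_ (a := 0) h (Nat.zero_le _)
    intro v hv
    cases v with
    | ms => exact absurd rfl hv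
    | mr => rfl
    | md γ => rfl
  have hd := D.tf.fd j hj 1 le_rfl hm
  have h2 : R m t cv w A H (j * (m + 1) + 1 + 1) (.cj (G (j + 1) 1) 0)
      (H + (j * (m + 1) + 1)) := by
    refine R.mark D (x := .inr (.md (G (j + 1) 1))) (d := false) h1 (by omega) ?_
      (by rw [if_neg (by simp)]; omega) ?_
    · rw [hd]
      rfl
    · rw [hd]
      rfl
  refine cj_walk D hK (by omega) (j * (m + 1) + 1) 0 (j + 1) (by omega) ?_ ?_ (by omega) h2
  · rw [Nat.succ_mul]; omega
  · rw [Nat.succ_mul]; omega

/-- the next row -/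
lemma nrow (D : Dat m t A H Z F G w) {j : ℕ} (hj : j + 1 < t)
    (h : R m t cv w A H (j * (m + 1) + m + 1) (.lf (G (j + 1) m) (j + 1)) (H - 1)) :
    R m t cv w A H ((j + 1) * (m + 1) + 1) .fr (H + 1) := by
  have hm := D.m1
  have h1 := round D (by omega) hm le_rfl h
  have hd := D.tf.fr (j + 1) hj
  have eK : j * (m + 1) + m + 1 = (j + 1) * (m + 1) := by rw [Nat.succ_mul]; omega
  have hK : (j + 1) * (m + 1) + 0 + 1 ≤ t * (m + 1) := kle hj (Nat.zero_le _)
  rw [eK] at h1
  have h2 : R m t cv w A H ((j + 1) * (m + 1) + 1) (.vr m) (H + 1 + (j * (m + 1) + m)) := by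
    refine R.mark D (x := .inr .mr) (d := false) h1 (by omega) ?_
      (by rw [if_neg (by simp)]; omega) ?_
    · rw [hd]
      rfl
    · rw [hd]
      rfl
  have h3 := col_walk D (j := j) .vr (by omega) (fun _ _ => rfl) m le_rfl (by omega) h2
  have h4 : R m t cv w A H ((j + 1) * (m + 1) + 1) (.rw 2) (H + j * (m + 1)) := by
    refine h3.wleft D (by omega) (by omega) (row_mark D (by omega) (by omega)) ?_
    simp only [vtr1]
    rw [if_pos (by omega)]
  exact rw_walk D (j := j + 1) (by omega) (by omega) (j * (m + 1)) 2 j (by omega) le_rfl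
    (by omega) (by omega) h4

/-- the end -/
lemma last (D : Dat m t A H Z F G w) {j : ℕ} (hj : j + 1 = t)
    (h : R m t cv w A H (j * (m + 1) + m + 1) (.lf (G (j + 1) m) (j + 1)) (H - 1)) :
    w ∈ (vm m t).lang cv := by
  have hm := D.m1
  have hlen := D.len
  have hAH : A < H := by have := D.tf.hAZ; have := D.tf.hZH; omega
  have h1 := round D (by omega) hm le_rfl h
  have eK : j * (m + 1) + m + 1 = t * (m + 1) := by rw [← hj, Nat.succ_mul]; omega
  rw [eK] at h1
  have hT : TK A H ((vm m t).initTape w) (t * (m + 1)) (H + 1 + t * (m + 1)) = .rend := by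
    rw [tk_high hAH.le (by omega)]
    exact D.tf.fe
  have h2 : R m t cv w A H (t * (m + 1)) (.ve m) (H + 1 + (j * (m + 1) + m)) := by
    refine R.step D (x := .inl .s) (d := false) h1 (by omega) (Or.inr rfl) le_rfl
      (Or.inr rfl) (by rw [if_neg (by simp)]; omega) ?_
    rw [hT]
    exact Or.inl rfl
  have h3 := col_walk D (j := j) .ve le_rfl (fun _ _ => rfl) m le_rfl (by omega) h2
  have h4 : R m t cv w A H (t * (m + 1)) .fin (H + 1 + (j * (m + 1) + 1)) :=
    h3.wright D le_rfl (by omega) (row_mark D le_rfl (by omega)) rfl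
  have h5 : R m t cv w A H (t * (m + 1)) .fin (H + 1 + t * (m + 1)) := by
    refine goM D le_rfl ?_ h4 (by omega)
    intro v hv
    cases v with
    | ms => exact absurd rfl hv
    | mr => rfl
    | md γ => rfl
  have h6 : R m t cv w A H (t * (m + 1)) .fin (H + 1 + t * (m + 1) + 1) := by
    refine R.step D (x := .inl .s) (d := true) h5 (by omega) (Or.inr rfl) le_rfl
      (Or.inr rfl) (by rw [if_pos rfl]) ?_
    rw [hT]
    exact Or.inl rfl
  obtain ⟨sn, hr, -⟩ := h6
  exact ⟨_, hr, by simp only; omega, rfl⟩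

/-- up to the separator of the block -/
lemma scan (D : Dat m t A H Z F G w) : ∀ k, k < A → ∃ sn : Set ℕ,
    ReflTransGen ((vm m t).Step cv w.length) ((vm m t).init w)
      ⟨.scan, k + 1, (vm m t).initTape w, sn⟩ ∧ ∀ j ∈ sn, j < k + 1 := by
  have hAH : A < H := by have := D.tf.hAZ; have := D.tf.hZH; omega
  have hlen := D.len
  intro k
  induction k with
  | zero => intro _; exact ⟨∅, ReflTransGen.refl, fun j hj => absurd hj (Set.notMem_empty j)⟩
  | succ k ih =>
    intro hk
    obtain ⟨sn, hr, hs⟩ := ih (by omega)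
    obtain ⟨y, hy, hb⟩ := D.fl (k + 1) (by omega) (by omega)
    refine ⟨insert (k + 1) sn, hr.tail ⟨by simp only; omega, .inl y, true, Or.inl ?_,
      fun _ => rfl, rfl, ?_, ?_, rfl⟩, ?_⟩
    · simp only
      rw [hy]
      simp only [vtr1, if_pos hb]
    · intro _
      simp only
      have : (Sym.ofW (Sum.inl y) : Sym VA VW) = (vm m t).initTape w (k + 1) := hy.symm
      rw [this, Function.update_eq_self]
    · intro _
      exact ⟨rfl, fun _ _ _ => hy.symm⟩
    · rintro j (hj | hj)
      · omega
      · have := hs j hj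
        omega

lemma mid0 (D : Dat m t A H Z F G w) : R m t cv w A H 0 .mid (A + 1) := by
  have hA := D.tf.hA
  have hAH : A < H := by have := D.tf.hAZ; have := D.tf.hZH; omega
  have hlen := D.len
  obtain ⟨sn, hr, hs⟩ := scan (cv := cv) D (A - 1) (by omega)
  have e : A - 1 + 1 = A := by omega
  rw [e] at hr hs
  have hns : A ∉ sn := fun h => by have := hs A h; omega
  refine ⟨insert A sn, hr.tail ⟨by simp only; omega, .inr .ms, true, Or.inr ?_,
    fun _ => rfl, rfl, fun _ => ?_, ?_, rfl⟩, ?_⟩
  · simp only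
    rw [D.fA]
    rfl
  · simp only
    funext i
    by_cases hi : i = A
    · rw [hi, Function.update_self, tk_A]
      rfl
    · rw [Function.update_of_ne hi]
      unfold WitB1Aux.TK
      rw [if_neg hi, if_neg (by omega)]
  · intro h
    exact absurd ⟨hA, by simp only; omega, hns⟩ h
  · rintro i (hi | hi)
    · left; omega
    · have := hs i hi
      left; omega

lemma fr1 (D : Dat m t A H Z F G w) : R m t cv w A H (0 * (m + 1) + 1) .fr (H + 1) := by
  have ht := D.t1
  have hA := D.tf.hA
  have hAH : A < H := by have := D.tf.hAZ; have := D.tf.hZH; omega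
  have hK : 0 * (m + 1) + 0 + 1 ≤ t * (m + 1) := kle ht (Nat.zero_le _)
  have h1 : R m t cv w A H 0 .fr (H + 1) := by
    refine goR D (Nat.zero_le _) ?_ ?_ (mid0 D) (by omega) (by omega)
    · intro x hx
      simp only [vtr1, if_pos hx]
    · simp [vtr1, VA.blk]
  have hd := D.tf.fr 0 ht
  have h2 : R m t cv w A H (0 + 1) (.rw 1) (H + 0) := by
    refine R.mark D (x := .inr .mr) (d := false) h1 (by omega) ?_
      (by rw [if_neg (by simp)]; omega) ?_
    · have e : H + 1 + 0 = H + 1 + 0 * (m + 1) := by omega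
      rw [e, hd]
      rfl
    · have e : H + 1 + 0 = H + 1 + 0 * (m + 1) := by omega
      rw [e, hd]
      rfl
  have h3 := rw_walk D (j := 0) (K := 0 + 1) (by omega) ht 0 1 0 (by omega) (by omega)
    (by omega) rfl h2
  have e : 0 + 1 = 0 * (m + 1) + 1 := by omega
  rwa [e] at h3

lemma row_all (D : Dat m t A H Z F G w) {j : ℕ} (hj : j < t)
    (h : R m t cv w A H (j * (m + 1) + 1) .fr (H + 1)) : ∀ i, i + 1 ≤ m →
    R m t cv w A H (j * (m + 1) + (i + 1) + 1) (.lf (G (j + 1) (i + 1)) (j + 1)) (H - 1) := by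
  intro i
  induction i with
  | zero => intro _; exact first D hj h
  | succ i ih =>
    intro hi
    exact next D hj (by omega) (by omega) (ih (by omega))

lemma row_end (D : Dat m t A H Z F G w) {j : ℕ} (hj : j < t)
    (h : R m t cv w A H (j * (m + 1) + 1) .fr (H + 1)) :
    R m t cv w A H (j * (m + 1) + m + 1) (.lf (G (j + 1) m) (j + 1)) (H - 1) := by
  have hm := D.m1
  have h1 := row_all D hj h (m - 1) (by omega)
  have e : m - 1 + 1 = m := by omega
  rwa [e] at h1

lemma fr_all (D : Dat m t A H Z F G w) : ∀ j, j < t →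
    R m t cv w A H (j * (m + 1) + 1) .fr (H + 1) := by
  intro j
  induction j with
  | zero => intro _; exact fr1 D
  | succ j ih =>
    intro hj
    exact nrow D hj (row_end D (by omega) (ih (by omega)))

lemma acc (D : Dat m t A H Z F G w) : w ∈ (vm m t).lang cv := by
  have ht := D.t1
  exact last D (j := t - 1) (by omega) (row_end D (by omega) (fr_all D (t - 1) (by omega)))

/-- every entry occurs -/
lemma body_ent {F : ℕ → ℕ → Bool} {j i : ℕ} (h1 : 1 ≤ j) (h2 : j ≤ t) (h3 : 1 ≤ i)
    (h4 : i ≤ m) : ∃ P Q, body m t F = P ++ (vE F j i ++ Q) := by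
  obtain ⟨j', rfl⟩ : ∃ j', j = j' + 1 := ⟨j - 1, by omega⟩
  obtain ⟨i', rfl⟩ : ∃ i', i = i' + 1 := ⟨i - 1, by omega⟩
  obtain ⟨l1, l2, e1⟩ := List.append_of_mem (List.mem_range.2 (show j' < t by omega))
  obtain ⟨l3, l4, e2⟩ := List.append_of_mem (List.mem_range.2 (show i' < m by omega))
  refine ⟨(l1.flatMap fun j => (List.range m).flatMap fun i => vE F (j + 1) (i + 1)) ++
    (l3.flatMap fun i => vE F (j' + 1) (i + 1)),
    (l4.flatMap fun i => vE F (j' + 1) (i + 1)) ++
    (l2.flatMap fun j => (List.range m).flatMap fun i => vE F (j + 1) (i + 1)), ?_⟩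
  have e3 : ((List.range m).flatMap fun i => vE F (j' + 1) (i + 1)) =
      (l3.flatMap fun i => vE F (j' + 1) (i + 1)) ++ (vE F (j' + 1) (i' + 1) ++
        (l4.flatMap fun i => vE F (j' + 1) (i + 1))) := by
    rw [e2, List.flatMap_append, List.flatMap_cons]
  have e4 : body m t F = (l1.flatMap fun j => (List.range m).flatMap fun i =>
      vE F (j + 1) (i + 1)) ++ (((List.range m).flatMap fun i => vE F (j' + 1) (i + 1)) ++
        (l2.flatMap fun j => (List.range m).flatMap fun i => vE F (j + 1) (i + 1))) := by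
    rw [body, e1, List.flatMap_append, List.flatMap_cons]
  rw [e4, e3]
  simp only [List.append_assoc]

lemma exists_dat (hm : 1 ≤ m) (ht : 1 ≤ t) (l1 l2 : List (ℕ → ℕ → Bool))
    (F G : ℕ → ℕ → Bool) (hFG : vEq m t F G) :
    Dat m t ((vX m t l1).length + 1) ((vX m t (l1 ++ F :: l2)).length + 1)
      ((vX m t l1).length + 1 + (vB m t F).length) F G
      (vX m t (l1 ++ F :: l2) ++ vY m t G) := by
  have hL := lay m t (l1 ++ F :: l2) l1 l2 F G rfl
  have eX : vX m t (l1 ++ F :: l2) = vX m t l1 ++ (vB m t F ++ vX m t l2) := by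
    rw [vX, List.flatMap_append, List.flatMap_cons]
    rfl
  have lX : (vX m t (l1 ++ F :: l2)).length = (vX m t l1).length + ((vB m t F).length +
      (vX m t l2).length) := by rw [eX, List.length_append, List.length_append]
  have lB : (vB m t F).length = (body m t F).length + 1 := by rw [vB_eq, List.length_cons]
  have gB : ∀ k < (vB m t F).length, (vX m t (l1 ++ F :: l2) ++ vY m t G)[(vX m t l1).length
      + k]? = (vB m t F)[k]? := by
    intro k hk
    rw [List.getElem?_append_left (by omega), eX, List.getElem?_append_right (by omega),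
      Nat.add_sub_cancel_left, List.getElem?_append_left hk]
  refine ⟨hm, ht, hL, ?_, ?_, ?_, ?_, w_length m t _ G, hFG⟩
  · intro p h1 h2
    obtain ⟨k, rfl⟩ : ∃ k, p = (vX m t l1).length + (k + 1) + 1 :=
      ⟨p - ((vX m t l1).length + 2), by omega⟩
    have hk : k < (body m t F).length := by omega
    have h3 := gB (k + 1) (by omega)
    rw [vB_eq, List.getElem?_cons_succ, List.getElem?_eq_getElem hk] at h3
    exact ⟨_, iT_succ _ _ h3, (body_mem (List.getElem_mem hk)).1,
      (body_mem (List.getElem_mem hk)).2⟩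
  · intro j i a1 a2 a3 a4
    obtain ⟨P, Q, a5⟩ := body_ent (F := F) a1 a2 a3 a4
    have lE := vE_length F j i
    have hlen : (body m t F).length = P.length + ((vE F j i).length + Q.length) := by
      rw [a5, List.length_append, List.length_append]
    have gE : ∀ u < (vE F j i).length, (vX m t (l1 ++ F :: l2) ++
        vY m t G)[(vX m t l1).length + (P.length + u + 1)]? = (vE F j i)[u]? := by
      intro u hu
      rw [gB _ (by omega), vB_eq, List.getElem?_cons_succ, a5,
        List.getElem?_append_right (by omega)]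
      have e1 : P.length + u - P.length = u := by omega
      rw [e1, List.getElem?_append_left hu]
    obtain ⟨g1, g2, g3⟩ := vE_get (F := F) (j := j) (i := i)
    refine ⟨(vX m t l1).length + (P.length + 0 + 1) + 1, by omega, ?_, a1, a2, a3, a4,
      ?_, ?_, ?_, by omega⟩
    · exact iT_succ _ _ (gE 0 (by omega))
    · intro u hu
      have e1 : (vX m t l1).length + (P.length + 0 + 1) + 1 + 1 + u =
          ((vX m t l1).length + (P.length + (1 + u) + 1)) + 1 := by ring
      rw [e1]
      apply iT_succ _ _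
      rw [gE _ (by omega)]
      exact g1 u hu
    · intro u hu
      have e1 : (vX m t l1).length + (P.length + 0 + 1) + 1 + 1 + j + u =
          ((vX m t l1).length + (P.length + (1 + j + u) + 1)) + 1 := by ring
      rw [e1]
      apply iT_succ _ _
      rw [gE _ (by omega)]
      exact g2 u hu
    · have e1 : (vX m t l1).length + (P.length + 0 + 1) + 1 + 1 + j + i =
          ((vX m t l1).length + (P.length + (1 + j + i) + 1)) + 1 := by ring
      rw [e1]
      apply iT_succ _ _
      rw [gE _ (by omega)]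
      exact g3
  · apply iT_succ
    have h3 := gB 0 (by omega)
    rw [Nat.add_zero, vB_eq] at h3
    exact h3
  · intro p h1 h2
    obtain ⟨i, rfl⟩ : ∃ i, p = i + 1 := ⟨p - 1, by omega⟩
    have h3 : i < (vX m t (l1 ++ F :: l2)).length := by omega
    have h4 : (vX m t (l1 ++ F :: l2) ++ vY m t G)[i]? =
        some ((vX m t (l1 ++ F :: l2))[i]) := by
      rw [List.getElem?_append_left h3, List.getElem?_eq_getElem h3]
    exact ⟨_, iT_succ _ _ h4, vX_mem (List.getElem_mem h3)⟩

end WitB2Aux

theorem vm_complete (m t : ℕ) (hm : 1 ≤ m) (ht : 1 ≤ t) (cv : Bool)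
    (Fs : List (ℕ → ℕ → Bool)) (G : ℕ → ℕ → Bool) {F : ℕ → ℕ → Bool} (hF : F ∈ Fs)
    (hFG : vEq m t F G) : vX m t Fs ++ vY m t G ∈ (vm m t).lang cv := by
  obtain ⟨l1, l2, rfl⟩ := List.append_of_mem hF
  exact WitB2Aux.acc (WitB2Aux.exists_dat hm ht l1 l2 F G hFG)

end Pool.Agent.P0036f5b
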