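import Pool.Agent.Lib.P0036f5b.WitB1
import Pool.Agent.Lib.P0036f5b.WitB2
import Pool.Agent.Lib.P0036f5v2.Lower

/-!
# B12d: lower bound for deterministic machines

As `kdet_lower` in `P0036f5k/WitC.lean`: use `Mach.card_le_of_residuals` with `ι` = the sets of matrices
`Fin t × Fin m → Bool` (`2 ^ 2 ^ (t m)` elements), `f X = vX m t` (list of the elements of `X`, each extended to
`ℕ → ℕ → Bool` by `F j i = F' (j - 1, i - 1)` for `1 ≤ j ≤ t`, `1 ≤ i ≤ m`); two different sets are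
distinguished by `v = vY m t G` (`vm_sound`, `vm_complete`).  With `K = Nat.card D.Q`:
`2 ^ 2 ^ (t m) ≤ 2 ^ (K * K) * K + 1 ≤ 2 ^ (K * K + K + 1)`, so `2 ^ (t m) ≤ (K + 1) ^ 2`, and
`K + 1 ≤ D.toMach.size`.
-/

set_option autoImplicit false

namespace Pool.Agent.P0036f5b

open Relation Pool.Agent.P0036f5v2 Pool.Agent.P0036f5w Pool.Agent.P0036f5g Pool.Agent.P0036f5k
  Classical

namespace WitCAux

/-- the extension of a matrix -/
noncomputable def mx (m t : ℕ) (f : Fin t × Fin m → Bool) (j i : ℕ) : Bool :=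
  if h : j - 1 < t ∧ i - 1 < m then f (⟨j - 1, h.1⟩, ⟨i - 1, h.2⟩) else false

theorem mx_inj (m t : ℕ) (f g : Fin t × Fin m → Bool) (h : vEq m t (mx m t f) (mx m t g)) :
    f = g := by
  funext ⟨j, i⟩
  have hj := j.isLt
  have hi := i.isLt
  have h1 := h (j.val + 1) (i.val + 1) (by omega) (by omega) (by omega) (by omega)
  have h2 : j.val + 1 - 1 < t ∧ i.val + 1 - 1 < m := by omega
  unfold mx at h1
  rw [dif_pos h2, dif_pos h2] at h1
  exact h1

end WitCAux

open WitCAux in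
theorem vdet_lower (m t : ℕ) (hm : 1 ≤ m) (ht : 1 ≤ t) (D : LA VA) (hD : D.toMach.Det) (cv : Bool)
    (hL : D.toMach.lang cv = (vm m t).lang cv) : 2 ^ (t * m) ≤ D.toMach.size ^ 2 := by
  have fQ := D.finQ
  have fW := D.finW
  have hmem : ∀ (X : Finset (Fin t × Fin m → Bool)) (g : Fin t × Fin m → Bool),
      vX m t (X.toList.map (mx m t)) ++ vY m t (mx m t g) ∈ (vm m t).lang cv ↔ g ∈ X := by
    intro X g
    constructor
    · intro h
      obtain ⟨F, hF, hE⟩ := vm_sound m t hm ht cv _ _ h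
      obtain ⟨f, hf, rfl⟩ := List.mem_map.1 hF
      have := mx_inj m t _ _ hE
      rw [← this]
      exact Finset.mem_toList.1 hf
    · intro h
      have hF : mx m t g ∈ X.toList.map (mx m t) :=
        List.mem_map.2 ⟨g, Finset.mem_toList.2 h, rfl⟩
      exact vm_complete m t hm ht cv _ _ hF (fun _ _ _ _ _ _ => rfl)
  have h := D.toMach.card_le_of_residuals cv hD
    (ι := Finset (Fin t × Fin m → Bool)) (fun X => vX m t (X.toList.map (mx m t))) (by
      intro X Y hne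
      obtain ⟨g, hg⟩ : ∃ g, ¬ (g ∈ X ↔ g ∈ Y) := by
        by_contra hcon
        push Not at hcon
        exact hne (Finset.ext hcon)
      refine ⟨vY m t (mx m t g), ?_⟩
      rw [hL, hmem, hmem]
      exact hg)
  have hcard : Nat.card (Finset (Fin t × Fin m → Bool)) = 2 ^ 2 ^ (t * m) := by
    simp
  rw [hcard] at h
  set k := Nat.card D.Q with hk
  have hsz : k + 1 ≤ D.toMach.size := by
    unfold Mach.size
    omega
  have h1 : 2 ^ (k * k) * k + 1 ≤ 2 ^ (k * k + k + 1) := by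
    have h2 : k ≤ 2 ^ k := Nat.lt_two_pow_self.le
    have h3 : 2 ^ (k * k + k + 1) = 2 ^ (k * k) * 2 ^ k + 2 ^ (k * k) * 2 ^ k := by ring
    have h4 : 2 ^ (k * k) * k ≤ 2 ^ (k * k) * 2 ^ k := Nat.mul_le_mul_left _ h2
    have h5 : 1 ≤ 2 ^ (k * k) * 2 ^ k := Nat.mul_pos (by positivity) (by positivity)
    omega
  have h6 : 2 ^ (t * m) ≤ k * k + k + 1 :=
    (Nat.pow_le_pow_iff_right (by norm_num)).1 (h.trans h1)
  calc 2 ^ (t * m) ≤ k * k + k + 1 := h6
    _ ≤ (k + 1) ^ 2 := by nlinarith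
    _ ≤ D.toMach.size ^ 2 := Nat.pow_le_pow_left hsz 2

end Pool.Agent.P0036f5b
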