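import Pool.Agent.Lib.P0036f5b.WDefs

/-!
# B12f: the witness machine changes at most `t (m + 1) + 3` cells

Invariant for every configuration reachable on an arbitrary input `w` (tape `τ`, position `p`):
(0) state `scan`: `τ` is the initial tape, `1 ≤ p`, all seen cells are `< p`;
(1) state `mid`: one cell `g < p` with the letter `s` is marked (`τ g = wrk ms`), the others are unchanged,
    all seen cells are `< p`, and all letters in the cells `g < j < p` are block letters;
(2) otherwise there are `g < H ≤ f`: the cell `g` is marked with `ms`, the cells in `(g, H)` contain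
    unchanged block letters, the cell `H` contains the letter `h`, the cells in `(H, f]` contain marks
    `mr` (letter `r`) or `md β` (letter `d β`), all other cells are unchanged, the seen cells among
    `1, …, w.length` that are `> H` are exactly those in `(H, f]` (cells `≤ f` in general may all be
    treated as seen: every cell in `[g, f]` has been seen), and, with `R j` = number of `mr` in
    `(H, j]` and `C j` = number of `md` after the last `mr` in `(H, j]` (a cell `j` with `md` is good if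
    `1 ≤ R j ≤ t` and `1 ≤ C j ≤ m`):
    * `fr`: all `md` cells in `(H, f]` are good, `R f ≤ t`, `H < p ≤ f + 1`;
    * `fin`: (only moves right) at most the numbers below;
    * `cj β j`, `lf β j`, `se β j`, `ca β j`, `cb β i`, `rt i`, `rh i`: all `md` cells in `(H, f - 1]`
      are good, `R f ≤ t`; in the states with `i`: `1 ≤ i ≤ m`;
    * `vk β i`: (new cell `f`) all `md` cells in `(H, f - 2]` are good, `R f ≤ t`, the cell `f - 1` is an
      `md` cell, and if the head is at the position `p` then the cells in `(p, f - 1]` are `md` cells,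
      `i + (f - 1 - p) ≤ m`; when `vk β 0` sees `mr` at `p`: `C (f - 1) = f - 1 - p ≤ m`, so the cell
      `f - 1` is good;
    * `vr i`, `rw j`: the cell `f` is an `mr` cell, `R (f - 1) ≤ t`, so `R f ≤ t + 1`; for `rw j`, head at
      `p`: `j` = number of `mr` in `(p, f]`, so when `h` is reached `R f = j ≤ t`; the `md` cells in
      `(H, f - 2]` (for `vr`), `(H, f]` (for `rw`) are good;
    * `ve i`: like `vr` without a new cell.
    (`1 ≤ m`, `1 ≤ t`.)
Number of changed cells: `1` (for `g`) plus the number of marked cells in `(H, f]`.  Good `md` cells: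
at most `t m` (they are determined by `R j` and `C j`); others: in `fr`: `R f ≤ t`, so `≤ t + t m`; in the
second group `≤ t + t m + 1`; in `vk`: `≤ t + t m + 2`; in `vr`: `≤ (t + 1) + (t m + 1)`; in `rw`:
`≤ (t + 1) + t m`.  So at most `t (m + 1) + 3` changed cells in all cases.
Third part of `FewWrites`: a transition that changes the symbol it reads is used only for unmarked `s` in
`scan` (second choice) and for unmarked `d β`, `r` in `fr`, `rh`; in these states such a letter cell is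
not yet seen (in `fr`, `rh` the cells in `(H, f]` are marked and the next one, `f + 1`, is not seen).
All other transitions write the symbol they read (`blk` letters, `h`, marks).
-/

set_option autoImplicit false
set_option linter.constructorNameAsVariable false
set_option linter.unusedSimpArgs false

namespace Pool.Agent.P0036f5b

open Relation Pool.Agent.P0036f5v2 Pool.Agent.P0036f5w Pool.Agent.P0036f5g Pool.Agent.P0036f5k
  Classical

namespace WitFAux

/-- the initial tape -/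
def itp (w : List VA) (j : ℕ) : Sym VA VW :=
  if j = 0 then Sym.lend else
    match w[j - 1]? with
    | some a => Sym.inp a
    | none => Sym.rend

theorem init_eq (m t : ℕ) (w : List VA) : (vm m t).initTape w = itp w := by
  funext j
  unfold Mach.initTape itp
  by_cases h0 : j = 0
  · rw [if_pos h0, if_pos h0]
  · rw [if_neg h0, if_neg h0]
    cases w[j - 1]? <;> rfl

theorem ini_inp {w : List VA} {j : ℕ} {a : VA} (h : itp w j = Sym.inp a) :
    1 ≤ j ∧ j ≤ w.length := by
  unfold itp at h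
  by_cases h0 : j = 0
  · rw [if_pos h0] at h
    exact absurd h (by simp)
  · rw [if_neg h0] at h
    by_cases h1 : j - 1 < w.length
    · omega
    · rw [List.getElem?_eq_none (by omega)] at h
      exact absurd h (by simp)

theorem ini_letter {w : List VA} {j : ℕ} (h1 : 1 ≤ j) (h2 : j ≤ w.length) :
    ∃ a, itp w j = Sym.inp a := by
  unfold itp
  rw [if_neg (by omega), List.getElem?_eq_getElem (by omega : j - 1 < w.length)]
  exact ⟨_, rfl⟩

theorem ini_wrk {w : List VA} {j : ℕ} {x : VW} : itp w j ≠ Sym.wrk x := by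
  unfold itp
  by_cases h0 : j = 0
  · rw [if_pos h0]; simp
  · rw [if_neg h0]
    by_cases h1 : j - 1 < w.length
    · rw [List.getElem?_eq_getElem h1]; simp
    · rw [List.getElem?_eq_none (by omega)]; simp

theorem ini_rend {w : List VA} {j : ℕ} (h : itp w j = Sym.rend) : w.length < j := by
  by_contra hc
  by_cases h0 : j = 0
  · unfold itp at h
    rw [if_pos h0] at h
    exact absurd h (by simp)
  · obtain ⟨a, ha⟩ := ini_letter (w := w) (j := j) (by omega) (by omega)
    rw [ha] at h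
    exact absurd h (by simp)

/-- number of `mr` in the cells `H + 1, …, H + n` -/
noncomputable def R (τ : ℕ → Sym VA VW) (H : ℕ) : ℕ → ℕ
  | 0 => 0
  | n + 1 => R τ H n + (if τ (H + n + 1) = Sym.wrk VW.mr then 1 else 0)

theorem R_mr {τ : ℕ → Sym VA VW} {H n : ℕ} (h : τ (H + n + 1) = Sym.wrk VW.mr) :
    R τ H (n + 1) = R τ H n + 1 := by
  rw [R, if_pos h]

theorem R_md {τ : ℕ → Sym VA VW} {H n : ℕ} (h : ∃ β, τ (H + n + 1) = Sym.wrk (VW.md β)) :
    R τ H (n + 1) = R τ H n := by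
  obtain ⟨β, h⟩ := h
  rw [R, if_neg (by rw [h]; simp)]
  rfl

theorem R_congr {τ τ' : ℕ → Sym VA VW} {H : ℕ} (n : ℕ)
    (h : ∀ j, H < j → j ≤ H + n → τ' j = τ j) : R τ' H n = R τ H n := by
  induction n with
  | zero => rfl
  | succ n ih =>
    rw [R, R, ih fun j h1 h2 => h j h1 (by omega), h (H + n + 1) (by omega) (by omega)]

/-- the rows before a mark `mr` are short -/
def Row (m : ℕ) (τ : ℕ → Sym VA VW) (H n : ℕ) : Prop :=
  ∀ q, q < n → τ (H + q + 1) = Sym.wrk VW.mr → q ≤ (m + 1) * R τ H q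

/-- all rows are short -/
def Full (m : ℕ) (τ : ℕ → Sym VA VW) (H n : ℕ) : Prop :=
  Row m τ H n ∧ n ≤ (m + 1) * R τ H n

theorem full_zero (m : ℕ) (τ : ℕ → Sym VA VW) (H : ℕ) : Full m τ H 0 :=
  ⟨fun q hq => absurd hq (Nat.not_lt_zero q), Nat.zero_le _⟩

theorem Full.congr {m : ℕ} {τ τ' : ℕ → Sym VA VW} {H n : ℕ} (hF : Full m τ H n)
    (h : ∀ j, H < j → j ≤ H + n → τ' j = τ j) : Full m τ' H n := by
  refine ⟨fun q hq hq' => ?_, ?_⟩
  · rw [h _ (by omega) (by omega)] at hq'
    rw [R_congr q fun j h1 h2 => h j h1 (by omega)]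
    exact hF.1 q hq hq'
  · rw [R_congr n h]
    exact hF.2

theorem Full.succ_mr {m : ℕ} {τ : ℕ → Sym VA VW} {H n : ℕ} (hF : Full m τ H n)
    (h : τ (H + n + 1) = Sym.wrk VW.mr) : Full m τ H (n + 1) := by
  refine ⟨fun q hq hq' => ?_, ?_⟩
  · by_cases hn : q = n
    · subst hn
      exact hF.2
    · exact hF.1 q (by omega) hq'
  · rw [R_mr h]
    have := hF.2
    rw [Nat.mul_add]
    omega

theorem R_run {τ : ℕ → Sym VA VW} {H k : ℕ} (e : ℕ)
    (h : ∀ j, k < j → j ≤ k + e → ∃ β, τ (H + j) = Sym.wrk (VW.md β)) :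
    R τ H (k + e) = R τ H k := by
  induction e with
  | zero => rfl
  | succ e ih =>
    have h1 := ih fun j h1 h2 => h j h1 (by omega)
    have h2 : R τ H (k + e + 1) = R τ H (k + e) := by
      apply R_md
      obtain ⟨β, hβ⟩ := h (k + e + 1) (by omega) (by omega)
      exact ⟨β, by rw [← hβ]; congr 1⟩
    rw [← Nat.add_assoc, h2, h1]

theorem Full.close {m : ℕ} {τ : ℕ → Sym VA VW} {H n k : ℕ} (hF : Full m τ H n)
    (hd : ∃ β, τ (H + n + 1) = Sym.wrk (VW.md β)) (hk : k ≤ n)
    (hr : τ (H + k + 1) = Sym.wrk VW.mr)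
    (h : ∀ j, k + 1 < j → j ≤ n + 1 → ∃ β, τ (H + j) = Sym.wrk (VW.md β))
    (hm : n + 1 ≤ m + (k + 1)) : Full m τ H (n + 1) := by
  refine ⟨fun q hq hq' => ?_, ?_⟩
  · by_cases hn : q = n
    · subst hn
      obtain ⟨β, hd⟩ := hd
      rw [hd] at hq'
      exact absurd hq' (by simp)
    · exact hF.1 q (by omega) hq'
  · have hkn : k ≠ n := by
      rintro rfl
      obtain ⟨β, hd⟩ := hd
      rw [hd] at hr
      exact absurd hr (by simp)
    have h1 := hF.1 k (by omega) hr
    obtain ⟨e, he⟩ : ∃ e, n + 1 = k + 1 + e := ⟨n - k, by omega⟩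
    have h2 : R τ H (n + 1) = R τ H k + 1 := by
      rw [he, R_run e fun j h1 h2 => h j h1 (by omega), R_mr hr]
    rw [h2, Nat.mul_add]
    omega

/-- the form of the tape after the separator `h` was seen -/
structure Bas (w : List VA) (τ : ℕ → Sym VA VW) (S : Set ℕ) (g H n : ℕ) : Prop where
  gH : g < H
  ms : τ g = Sym.wrk VW.ms
  blk : ∀ j, g < j → j < H → ∃ x : VA, τ j = Sym.inp x ∧ x.blk = true
  hh : τ H = Sym.inp VA.h
  mrk : ∀ j, H < j → j ≤ H + n → ∃ x, τ j = Sym.wrk x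
  out : ∀ j, j ≠ g → (j ≤ H ∨ H + n < j) → τ j = itp w j
  sn : ∀ j ∈ S, j ≤ H + n ∨ w.length < j

theorem Bas.next {w : List VA} {τ : ℕ → Sym VA VW} {S : Set ℕ} {g H n p : ℕ}
    (hB : Bas w τ S g H n) (hp : p ≤ H + n ∨ w.length < p) :
    Bas w τ (insert p S) g H n := by
  refine ⟨hB.gH, hB.ms, hB.blk, hB.hh, hB.mrk, hB.out, fun j hj => ?_⟩
  rcases hj with rfl | hj
  · exact hp
  · exact hB.sn j hj

theorem Bas.mark {w : List VA} {τ : ℕ → Sym VA VW} {S : Set ℕ} {g H n : ℕ}
    (hB : Bas w τ S g H n) (x : VW) :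
    Bas w (Function.update τ (H + n + 1) (Sym.wrk x)) (insert (H + n + 1) S) g H (n + 1) := by
  have hgH := hB.gH
  refine ⟨hB.gH, ?_, ?_, ?_, ?_, ?_, ?_⟩
  · rw [Function.update_of_ne (by omega)]
    exact hB.ms
  · intro j h1 h2
    rw [Function.update_of_ne (by omega)]
    exact hB.blk j h1 h2
  · rw [Function.update_of_ne (by omega)]
    exact hB.hh
  · intro j h1 h2
    by_cases hj : j = H + n + 1
    · subst hj
      exact ⟨x, Function.update_self _ _ _⟩
    · rw [Function.update_of_ne hj]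
      exact hB.mrk j h1 (by omega)
  · intro j h1 h2
    rw [Function.update_of_ne (by omega)]
    exact hB.out j h1 (by omega)
  · intro j hj
    rcases hj with rfl | hj
    · left; omega
    · rcases hB.sn j hj with h | h
      · left; omega
      · right; exact h

/-- a mark can only be seen left of `H + n + 1` -/
theorem Bas.le_of_wrk {w : List VA} {τ : ℕ → Sym VA VW} {S : Set ℕ} {g H n p : ℕ}
    (hB : Bas w τ S g H n) {x : VW} (h : τ p = Sym.wrk x) : p ≤ H + n := by
  by_contra hc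
  have hgH := hB.gH
  rw [hB.out p (by omega) (Or.inr (by omega))] at h
  exact ini_wrk h

theorem Bas.rend {w : List VA} {τ : ℕ → Sym VA VW} {S : Set ℕ} {g H n p : ℕ}
    (hB : Bas w τ S g H n) (h : τ p = Sym.rend) : w.length < p := by
  by_cases hg : p = g
  · subst hg
    rw [hB.ms] at h
    exact absurd h (by simp)
  · by_cases h1 : H < p ∧ p ≤ H + n
    · obtain ⟨x, hx⟩ := hB.mrk p h1.1 h1.2
      rw [hx] at h
      exact absurd h (by simp)
    · rw [hB.out p hg (by omega)] at h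
      exact ini_rend h

/-- a letter right of `H` is not marked -/
theorem Bas.eq_of_inp {w : List VA} {τ : ℕ → Sym VA VW} {S : Set ℕ} {g H n p : ℕ}
    (hB : Bas w τ S g H n) {a : VA} (h : τ p = Sym.inp a) (h1 : H < p) (h2 : p ≤ H + n + 1) :
    p = H + n + 1 ∧ 1 ≤ p ∧ p ≤ w.length ∧ p ∉ S := by
  have hgH := hB.gH
  have h3 : p = H + n + 1 := by
    by_contra hc
    obtain ⟨x, hx⟩ := hB.mrk p h1 (by omega)
    rw [hx] at h
    exact absurd h (by simp)
  have h4 : itp w p = Sym.inp a := by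
    rw [← hB.out p (by omega) (Or.inr (by omega))]
    exact h
  obtain ⟨h5, h6⟩ := ini_inp h4
  refine ⟨h3, h5, h6, fun hs => ?_⟩
  rcases hB.sn p hs with h7 | h7 <;> omega

/-- a letter in `[H, H + n]` is the separator -/
theorem Bas.eq_of_inp' {w : List VA} {τ : ℕ → Sym VA VW} {S : Set ℕ} {g H n p : ℕ}
    (hB : Bas w τ S g H n) {a : VA} (h : τ p = Sym.inp a) (h1 : H ≤ p) (h2 : p ≤ H + n) :
    p = H := by
  by_contra hc
  obtain ⟨x, hx⟩ := hB.mrk p (by omega) h2
  rw [hx] at h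
  exact absurd h (by simp)

/-- the last mark is `md` and not yet tested -/
def PN (m t : ℕ) (τ : ℕ → Sym VA VW) (H n : ℕ) : Prop :=
  ∃ n', n = n' + 1 ∧ (∃ β, τ (H + n' + 1) = Sym.wrk (VW.md β)) ∧ Full m τ H n' ∧
    R τ H n' ≤ t

/-- the last but one mark is tested -/
def PV (m t : ℕ) (τ : ℕ → Sym VA VW) (H n p i : ℕ) : Prop :=
  ∃ n', n = n' + 2 ∧ (∃ β, τ (H + n' + 1) = Sym.wrk (VW.md β)) ∧ Full m τ H n' ∧
    R τ H n' ≤ t ∧ ∃ k, p = H + k ∧ k ≤ n' + 1 ∧
      (∀ j, k < j → j ≤ n' + 1 → ∃ β, τ (H + j) = Sym.wrk (VW.md β)) ∧ i + (n' + 1) ≤ m + k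

/-- what is true in the states after the separator `h` was seen -/
def St2 (m t : ℕ) (τ : ℕ → Sym VA VW) (g H n p : ℕ) : VQ → Prop
  | .scan => False
  | .mid => False
  | .fin => n ≤ t * (m + 1) + 2
  | .ve _ => n ≤ t * (m + 1) + 2
  | .fr => H < p ∧ p ≤ H + n + 1 ∧ Full m τ H n ∧ R τ H n ≤ t
  | .cj _ _ => H ≤ p ∧ p < H + n ∧ PN m t τ H n
  | .lf _ _ => g ≤ p ∧ p < H ∧ PN m t τ H n
  | .se _ _ => g < p ∧ p ≤ H ∧ PN m t τ H n
  | .ca _ _ => g < p ∧ p ≤ H ∧ PN m t τ H n
  | .cb _ i => g < p ∧ p ≤ H ∧ PN m t τ H n ∧ i ≤ m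
  | .rt i => g < p ∧ p ≤ H ∧ PN m t τ H n ∧ i ≤ m
  | .rh i => H < p ∧ p ≤ H + n + 1 ∧ PN m t τ H n ∧ i ≤ m
  | .vk _ i => PV m t τ H n p i ∧ ∃ β, τ (H + n) = Sym.wrk (VW.md β)
  | .vr i => PV m t τ H n p i ∧ τ (H + n) = Sym.wrk VW.mr
  | .rw j => ∃ n', n = n' + 1 ∧ τ (H + n) = Sym.wrk VW.mr ∧ Full m τ H n' ∧
      R τ H n' ≤ t ∧ ∃ k, p = H + k ∧ k ≤ n' ∧ j + R τ H k = R τ H n ∧ j ≤ t

theorem PN.bound {m t : ℕ} {τ : ℕ → Sym VA VW} {H n : ℕ} (h : PN m t τ H n) :
    n ≤ t * (m + 1) + 2 := by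
  obtain ⟨n', rfl, _, hF, hR⟩ := h
  have h1 := hF.2
  have h2 : (m + 1) * R τ H n' ≤ (m + 1) * t := Nat.mul_le_mul_left _ hR
  rw [Nat.mul_comm t]
  omega

theorem PV.bound {m t : ℕ} {τ : ℕ → Sym VA VW} {H n p i : ℕ} (h : PV m t τ H n p i) :
    n ≤ t * (m + 1) + 2 := by
  obtain ⟨n', rfl, _, hF, hR, _⟩ := h
  have h1 := hF.2
  have h2 : (m + 1) * R τ H n' ≤ (m + 1) * t := Nat.mul_le_mul_left _ hR
  rw [Nat.mul_comm t]
  omega

theorem St2.bound {m t : ℕ} {τ : ℕ → Sym VA VW} {g H n p : ℕ} {q : VQ}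
    (h : St2 m t τ g H n p q) : n ≤ t * (m + 1) + 2 := by
  rcases q with _ | _ | _ | _ | _ | _ | _ | _ | _ | _ | _ | _ | _ | _ | _
  · exact absurd h id
  · exact absurd h id
  · obtain ⟨_, _, hF, hR⟩ := h
    have h1 := hF.2
    have h2 : (m + 1) * R τ H n ≤ (m + 1) * t := Nat.mul_le_mul_left _ hR
    rw [Nat.mul_comm t]
    omega
  · exact h
  · exact h.2.2.bound
  · exact h.2.2.bound
  · exact h.2.2.bound
  · exact h.2.2.bound
  · exact h.2.2.1.bound
  · exact h.2.2.1.bound
  · exact h.2.2.1.bound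
  · exact h.1.bound
  · exact h.1.bound
  · exact h
  · obtain ⟨n', rfl, _, hF, hR, _⟩ := h
    have h1 := hF.2
    have h2 : (m + 1) * R τ H n' ≤ (m + 1) * t := Nat.mul_le_mul_left _ hR
    rw [Nat.mul_comm t]
    omega

/-- the head after a move -/
abbrev mv (d : Bool) (p : ℕ) : ℕ := if d = true then p + 1 else p - 1

/-- a move that does not change the tape -/
def QC (m t : ℕ) (w : List VA) (τ : ℕ → Sym VA VW) (g H n p : ℕ) (q' : VQ) (x : VA ⊕ VW)
    (d : Bool) : Prop :=
  (Sym.ofW x = τ p ∨ w.length < p) ∧ St2 m t τ g H n (mv d p) q' ∧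
    (p ≤ H + n ∨ w.length < p)

/-- a move that marks the next cell -/
def MC (m t : ℕ) (w : List VA) (τ : ℕ → Sym VA VW) (S : Set ℕ) (g H n p : ℕ) (q' : VQ)
    (x : VA ⊕ VW) (d : Bool) : Prop :=
  p = H + n + 1 ∧ (1 ≤ p ∧ p ≤ w.length ∧ p ∉ S) ∧ ∃ y, x = Sum.inr y ∧
    St2 m t (Function.update τ (H + n + 1) (Sym.wrk y)) g H (n + 1) (mv d p) q'

section

variable {m t : ℕ} {w : List VA} {τ : ℕ → Sym VA VW} {S : Set ℕ} {g H n p : ℕ}
  {q' : VQ} {x : VA ⊕ VW} {d : Bool}

theorem Bas.neH (hB : Bas w τ S g H n) (h : τ p ≠ Sym.inp VA.h) : p ≠ H := by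
  rintro rfl
  exact h hB.hh

theorem q_cj (hB : Bas w τ S g H n) {β : Bool} {j : ℕ} (h : St2 m t τ g H n p (.cj β j))
    (hx : vtr1 m t (.cj β j) (τ p) = some (q', x, d)) : QC m t w τ g H n p q' x d := by
  obtain ⟨h1, h2, h3⟩ := h
  have hgH := hB.gH
  rcases hs : τ p with a | y | _ | _
  · have hpH := hB.eq_of_inp' hs h1 (by omega)
    rw [hs] at hx
    rcases a with _ | _ | _ | _ | _ | _ | _ <;>
      simp only [vtr1, reduceCtorEq, Option.some.injEq, Prod.mk.injEq] at hx
    obtain ⟨rfl, rfl, rfl⟩ := hx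
    refine ⟨Or.inl hs.symm, ⟨?_, ?_, h3⟩, by omega⟩ <;> simp [mv] <;> omega
  · have hne := hB.neH (p := p) (by rw [hs]; simp)
    rw [hs] at hx
    rcases y with _ | _ | β'
    · simp only [vtr1, reduceCtorEq] at hx
    · simp only [vtr1] at hx
      split_ifs at hx
      simp only [Option.some.injEq, Prod.mk.injEq] at hx
      obtain ⟨rfl, rfl, rfl⟩ := hx
      refine ⟨Or.inl hs.symm, ⟨?_, ?_, h3⟩, by omega⟩ <;> simp [mv] <;> omega
    · simp only [vtr1, Option.some.injEq, Prod.mk.injEq] at hx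
      obtain ⟨rfl, rfl, rfl⟩ := hx
      refine ⟨Or.inl hs.symm, ⟨?_, ?_, h3⟩, by omega⟩ <;> simp [mv] <;> omega
  · rw [hs] at hx
    simp only [vtr1, reduceCtorEq] at hx
  · rw [hs] at hx
    simp only [vtr1, reduceCtorEq] at hx

theorem q_lf (hB : Bas w τ S g H n) {β : Bool} {j : ℕ} (h : St2 m t τ g H n p (.lf β j))
    (hx : vtr1 m t (.lf β j) (τ p) = some (q', x, d)) : QC m t w τ g H n p q' x d := by
  obtain ⟨h1, h2, h3⟩ := h
  have hgH := hB.gH
  rcases hs : τ p with a | y | _ | _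
  · have hne : p ≠ g := by
      rintro rfl
      rw [hB.ms] at hs
      exact absurd hs (by simp)
    rw [hs] at hx
    simp only [vtr1] at hx
    split_ifs at hx
    simp only [Option.some.injEq, Prod.mk.injEq] at hx
    obtain ⟨rfl, rfl, rfl⟩ := hx
    refine ⟨Or.inl hs.symm, ⟨?_, ?_, h3⟩, by omega⟩ <;> simp [mv] <;> omega
  · rw [hs] at hx
    rcases y with _ | _ | β'
    · simp only [vtr1, Option.some.injEq, Prod.mk.injEq] at hx
      obtain ⟨rfl, rfl, rfl⟩ := hx
      refine ⟨Or.inl hs.symm, ⟨?_, ?_, h3⟩, by omega⟩ <;> simp [mv] <;> omega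
    · simp only [vtr1, reduceCtorEq] at hx
    · simp only [vtr1, reduceCtorEq] at hx
  · rw [hs] at hx
    simp only [vtr1, reduceCtorEq] at hx
  · rw [hs] at hx
    simp only [vtr1, reduceCtorEq] at hx

theorem q_se (hB : Bas w τ S g H n) {β : Bool} {j : ℕ} (h : St2 m t τ g H n p (.se β j))
    (hx : vtr1 m t (.se β j) (τ p) = some (q', x, d) ∨
      vtr2 (.se β j) (τ p) = some (q', x, d)) : QC m t w τ g H n p q' x d := by
  obtain ⟨h1, h2, h3⟩ := h
  have hgH := hB.gH
  have hne := hB.neH (p := p)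
  rcases hs : τ p with a | y | _ | _
  · rw [hs] at hx hne
    rcases a with _ | _ | _ | _ | _ | _ | _ <;>
      simp only [vtr1, vtr2, reduceCtorEq, Option.some.injEq, Prod.mk.injEq, or_false, or_self,
        ne_eq, not_false_eq_true, forall_const, Sym.inp.injEq] at hx hne
    · rcases hx with hx | hx <;>
      · obtain ⟨rfl, rfl, rfl⟩ := hx
        refine ⟨Or.inl hs.symm, ⟨?_, ?_, h3⟩, by omega⟩ <;> simp [mv] <;> omega
    all_goals
      obtain ⟨rfl, rfl, rfl⟩ := hx
      refine ⟨Or.inl hs.symm, ⟨?_, ?_, h3⟩, by omega⟩ <;> simp [mv] <;> omega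
  · rw [hs] at hx
    rcases y with _ | _ | _ <;> simp only [vtr1, vtr2, reduceCtorEq, or_self] at hx
  · rw [hs] at hx
    simp only [vtr1, vtr2, reduceCtorEq, or_self] at hx
  · rw [hs] at hx
    simp only [vtr1, vtr2, reduceCtorEq, or_self] at hx

theorem q_ca (hm : 1 ≤ m) (hB : Bas w τ S g H n) {β : Bool} {j : ℕ}
    (h : St2 m t τ g H n p (.ca β j))
    (hx : vtr1 m t (.ca β j) (τ p) = some (q', x, d)) : QC m t w τ g H n p q' x d := by
  obtain ⟨h1, h2, h3⟩ := h
  have hgH := hB.gH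
  have hne := hB.neH (p := p)
  rcases hs : τ p with a | y | _ | _
  · rw [hs] at hx hne
    rcases j with _ | j <;> rcases a with _ | _ | _ | _ | _ | _ | _ <;>
      simp only [vtr1, vtr2, reduceCtorEq, Option.some.injEq, Prod.mk.injEq, or_false, or_self,
        ne_eq, not_false_eq_true, forall_const, Sym.inp.injEq] at hx hne
    · obtain ⟨rfl, rfl, rfl⟩ := hx
      refine ⟨Or.inl hs.symm, ⟨?_, ?_, h3, hm⟩, by omega⟩ <;> simp [mv] <;> omega
    · obtain ⟨rfl, rfl, rfl⟩ := hx
      refine ⟨Or.inl hs.symm, ⟨?_, ?_, h3⟩, by omega⟩ <;> simp [mv] <;> omega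
  · rw [hs] at hx
    rcases j with _ | j <;> rcases y with _ | _ | _ <;>
      simp only [vtr1, vtr2, reduceCtorEq, or_self] at hx
  · rw [hs] at hx
    rcases j with _ | j <;> simp only [vtr1, vtr2, reduceCtorEq, or_self] at hx
  · rw [hs] at hx
    rcases j with _ | j <;> simp only [vtr1, vtr2, reduceCtorEq, or_self] at hx

theorem q_cb (hB : Bas w τ S g H n) {β : Bool} {i : ℕ} (h : St2 m t τ g H n p (.cb β i))
    (hx : vtr1 m t (.cb β i) (τ p) = some (q', x, d)) : QC m t w τ g H n p q' x d := by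
  obtain ⟨h1, h2, h3, h4⟩ := h
  have hgH := hB.gH
  have hne := hB.neH (p := p)
  rcases hs : τ p with a | y | _ | _
  · rw [hs] at hx hne
    rcases a with _ | _ | _ | _ | _ | _ | _ <;>
      simp only [vtr1, vtr2, reduceCtorEq, Option.some.injEq, Prod.mk.injEq, or_false, or_self,
        ne_eq, not_false_eq_true, forall_const, Sym.inp.injEq] at hx hne
    · split_ifs at hx with hi
      simp only [Option.some.injEq, Prod.mk.injEq] at hx
      obtain ⟨rfl, rfl, rfl⟩ := hx
      refine ⟨Or.inl hs.symm, ⟨?_, ?_, h3, hi⟩, by omega⟩ <;> simp [mv] <;> omega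
    · split_ifs at hx with hi
      simp only [Option.some.injEq, Prod.mk.injEq] at hx
      obtain ⟨rfl, rfl, rfl⟩ := hx
      refine ⟨Or.inl hs.symm, ⟨?_, ?_, h3, h4⟩, by omega⟩ <;> simp [mv] <;> omega
  · rw [hs] at hx
    rcases y with _ | _ | _ <;> simp only [vtr1, vtr2, reduceCtorEq, or_self] at hx
  · rw [hs] at hx
    simp only [vtr1, vtr2, reduceCtorEq, or_self] at hx
  · rw [hs] at hx
    simp only [vtr1, vtr2, reduceCtorEq, or_self] at hx

theorem q_rt (hB : Bas w τ S g H n) {i : ℕ} (h : St2 m t τ g H n p (.rt i))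
    (hx : vtr1 m t (.rt i) (τ p) = some (q', x, d)) : QC m t w τ g H n p q' x d := by
  obtain ⟨h1, h2, h3, h4⟩ := h
  have hgH := hB.gH
  rcases hs : τ p with a | y | _ | _
  · rw [hs] at hx
    simp only [vtr1] at hx
    split_ifs at hx with hb hh
    · have hne : p ≠ H := hB.neH (by
        rw [hs]
        intro hc
        simp only [Sym.inp.injEq] at hc
        rw [hc] at hb
        exact absurd hb (by simp [VA.blk]))
      simp only [Option.some.injEq, Prod.mk.injEq] at hx
      obtain ⟨rfl, rfl, rfl⟩ := hx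
      refine ⟨Or.inl hs.symm, ⟨?_, ?_, h3, h4⟩, by omega⟩ <;> simp [mv] <;> omega
    · have hpH : p = H := by
        by_contra hc
        obtain ⟨z, hz, hz'⟩ := hB.blk p h1 (by omega)
        rw [hs] at hz
        simp only [Sym.inp.injEq] at hz
        rw [← hz] at hz'
        exact hb hz'
      simp only [Option.some.injEq, Prod.mk.injEq] at hx
      obtain ⟨rfl, rfl, rfl⟩ := hx
      refine ⟨Or.inl hs.symm, ⟨?_, ?_, h3, h4⟩, by omega⟩ <;> simp [mv] <;> omega
  · rw [hs] at hx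
    rcases y with _ | _ | _ <;> simp only [vtr1, reduceCtorEq] at hx
  · rw [hs] at hx
    simp only [vtr1, reduceCtorEq] at hx
  · rw [hs] at hx
    simp only [vtr1, reduceCtorEq] at hx

theorem PV.step {i : ℕ} (hB : Bas w τ S g H n) (h : PV m t τ H n p (i + 1))
    (hs : ∃ β, τ p = Sym.wrk (VW.md β)) : PV m t τ H n (p - 1) i ∧ p ≤ H + n := by
  obtain ⟨n', hn, h1, h2, h3, k, rfl, h4, h5, h6⟩ := h
  have hk : k ≠ 0 := by
    rintro rfl
    obtain ⟨β, hs⟩ := hs
    rw [Nat.add_zero, hB.hh] at hs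
    exact absurd hs (by simp)
  refine ⟨⟨n', hn, h1, h2, h3, k - 1, by omega, by omega, fun j hj hj' => ?_, by omega⟩,
    by omega⟩
  by_cases hjk : j = k
  · subst hjk
    exact hs
  · exact h5 j (by omega) hj'

theorem PV.last (hB : Bas w τ S g H n) (h : PV m t τ H n p 0)
    (hs : τ p = Sym.wrk VW.mr) : ∃ n' k, n = n' + 2 ∧ p = H + k + 1 ∧ k ≤ n' ∧
      Full m τ H (n' + 1) ∧ R τ H (n' + 1) ≤ t ∧ R τ H (n' + 1) = R τ H k + 1 ∧
      ∃ β, τ (H + n' + 1) = Sym.wrk (VW.md β) := by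
  obtain ⟨n', hn, h1, h2, h3, k, rfl, h4, h5, h6⟩ := h
  have hk : k ≠ 0 := by
    rintro rfl
    rw [Nat.add_zero, hB.hh] at hs
    exact absurd hs (by simp)
  obtain ⟨k, rfl⟩ : ∃ k', k = k' + 1 := ⟨k - 1, by omega⟩
  obtain ⟨e, he⟩ : ∃ e, n' + 1 = k + 1 + e := ⟨n' - k, by omega⟩
  have hR : R τ H (n' + 1) = R τ H k + 1 := by
    rw [he, R_run e fun j h1 h2 => h5 j h1 (by omega)]
    exact R_mr hs
  refine ⟨n', k, hn, rfl, by omega, ?_, ?_, hR, h1⟩
  · exact h2.close h1 (by omega) hs h5 (by omega)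
  · rw [R_md h1]
    exact h3

theorem q_vk (hB : Bas w τ S g H n) {β : Bool} {i : ℕ} (h : St2 m t τ g H n p (.vk β i))
    (hx : vtr1 m t (.vk β i) (τ p) = some (q', x, d)) : QC m t w τ g H n p q' x d := by
  obtain ⟨h1, h2⟩ := h
  rcases hs : τ p with a | y | _ | _
  · rw [hs] at hx
    rcases i with _ | i <;> simp only [vtr1, reduceCtorEq] at hx
  · rcases i with _ | i
    · rw [hs] at hx
      rcases y with _ | _ | _ <;>
        simp only [vtr1, reduceCtorEq, Option.some.injEq, Prod.mk.injEq] at hx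
      obtain ⟨rfl, rfl, rfl⟩ := hx
      obtain ⟨n', k, hn, hp, hk, hF, hR, _, _⟩ := h1.last hB hs
      subst hn
      refine ⟨Or.inl hs.symm, ⟨?_, ?_, n' + 1, rfl, h2, hF, hR⟩, by omega⟩ <;>
        simp [mv] <;> omega
    · rw [hs] at hx
      rcases y with _ | _ | β' <;>
        simp only [vtr1, reduceCtorEq, Option.some.injEq, Prod.mk.injEq] at hx
      obtain ⟨rfl, rfl, rfl⟩ := hx
      obtain ⟨h3, h4⟩ := h1.step hB ⟨β', hs⟩
      exact ⟨Or.inl hs.symm, ⟨h3, h2⟩, Or.inl h4⟩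
  · rw [hs] at hx
    rcases i with _ | i <;> simp only [vtr1, reduceCtorEq] at hx
  · rw [hs] at hx
    rcases i with _ | i <;> simp only [vtr1, reduceCtorEq] at hx

theorem q_vr (hB : Bas w τ S g H n) {i : ℕ} (h : St2 m t τ g H n p (.vr i))
    (hx : vtr1 m t (.vr i) (τ p) = some (q', x, d)) : QC m t w τ g H n p q' x d := by
  obtain ⟨h1, h2⟩ := h
  rcases hs : τ p with a | y | _ | _
  · rw [hs] at hx
    rcases i with _ | i <;> simp only [vtr1, reduceCtorEq] at hx
  · rcases i with _ | i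
    · rw [hs] at hx
      rcases y with _ | _ | _ <;>
        simp only [vtr1, reduceCtorEq] at hx
      split_ifs at hx with ht2
      simp only [Option.some.injEq, Prod.mk.injEq] at hx
      obtain ⟨rfl, rfl, rfl⟩ := hx
      obtain ⟨n', k, hn, hp, hk, hF, hR, hRk, _⟩ := h1.last hB hs
      subst hn
      refine ⟨Or.inl hs.symm, ⟨n' + 1, rfl, h2, hF, hR, k, ?_, by omega, ?_, ht2⟩, by omega⟩
      · simp [mv]
        omega
      · have h3 : R τ H (n' + 2) = R τ H (n' + 1) + 1 := R_mr h2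
        omega
    · rw [hs] at hx
      rcases y with _ | _ | β' <;>
        simp only [vtr1, reduceCtorEq, Option.some.injEq, Prod.mk.injEq] at hx
      obtain ⟨rfl, rfl, rfl⟩ := hx
      obtain ⟨h3, h4⟩ := h1.step hB ⟨β', hs⟩
      exact ⟨Or.inl hs.symm, ⟨h3, h2⟩, Or.inl h4⟩
  · rw [hs] at hx
    rcases i with _ | i <;> simp only [vtr1, reduceCtorEq] at hx
  · rw [hs] at hx
    rcases i with _ | i <;> simp only [vtr1, reduceCtorEq] at hx

theorem q_ve (hB : Bas w τ S g H n) {i : ℕ} (h : St2 m t τ g H n p (.ve i))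
    (hx : vtr1 m t (.ve i) (τ p) = some (q', x, d)) : QC m t w τ g H n p q' x d := by
  rcases hs : τ p with a | y | _ | _
  · rw [hs] at hx
    rcases i with _ | i <;> simp only [vtr1, reduceCtorEq] at hx
  · have hp := hB.le_of_wrk hs
    rcases i with _ | i
    · rw [hs] at hx
      rcases y with _ | _ | _ <;>
        simp only [vtr1, reduceCtorEq, Option.some.injEq, Prod.mk.injEq] at hx
      obtain ⟨rfl, rfl, rfl⟩ := hx
      exact ⟨Or.inl hs.symm, h, Or.inl hp⟩
    · rw [hs] at hx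
      rcases y with _ | _ | β' <;>
        simp only [vtr1, reduceCtorEq, Option.some.injEq, Prod.mk.injEq] at hx
      obtain ⟨rfl, rfl, rfl⟩ := hx
      exact ⟨Or.inl hs.symm, h, Or.inl hp⟩
  · rw [hs] at hx
    rcases i with _ | i <;> simp only [vtr1, reduceCtorEq] at hx
  · rw [hs] at hx
    rcases i with _ | i <;> simp only [vtr1, reduceCtorEq] at hx

theorem q_fin (hB : Bas w τ S g H n) (h : St2 m t τ g H n p .fin)
    (hx : vtr1 m t .fin (τ p) = some (q', x, d)) : QC m t w τ g H n p q' x d := by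
  rcases hs : τ p with a | y | _ | _
  · rw [hs] at hx
    simp only [vtr1, reduceCtorEq] at hx
  · have hp := hB.le_of_wrk hs
    rw [hs] at hx
    rcases y with _ | _ | _ <;>
      simp only [vtr1, reduceCtorEq, Option.some.injEq, Prod.mk.injEq] at hx <;>
    · obtain ⟨rfl, rfl, rfl⟩ := hx
      exact ⟨Or.inl hs.symm, h, Or.inl hp⟩
  · rw [hs] at hx
    simp only [vtr1, reduceCtorEq] at hx
  · have hp := hB.rend hs
    rw [hs] at hx
    simp only [vtr1, reduceCtorEq, Option.some.injEq, Prod.mk.injEq] at hx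
    obtain ⟨rfl, rfl, rfl⟩ := hx
    exact ⟨Or.inr hp, h, Or.inr hp⟩

theorem q_rw (hB : Bas w τ S g H n) {j : ℕ} (h : St2 m t τ g H n p (.rw j))
    (hx : vtr1 m t (.rw j) (τ p) = some (q', x, d)) : QC m t w τ g H n p q' x d := by
  obtain ⟨n', hn, h1, h2, h3, k, hp, h4, h5, h6⟩ := h
  subst hn
  rcases hs : τ p with a | y | _ | _
  · have hpH := hB.eq_of_inp' hs (by omega) (by omega)
    rw [hs] at hx
    rcases a with _ | _ | _ | _ | _ | _ | _ <;>
      simp only [vtr1, reduceCtorEq, Option.some.injEq, Prod.mk.injEq] at hx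
    obtain ⟨rfl, rfl, rfl⟩ := hx
    have hk : k = 0 := by omega
    subst hk
    refine ⟨Or.inl hs.symm, ⟨?_, ?_, h2.succ_mr h1, ?_⟩, by omega⟩
    · simp [mv]; omega
    · simp [mv]; omega
    · rw [← h5, R]
      omega
  · have hne := hB.neH (p := p) (by rw [hs]; simp)
    obtain ⟨k, rfl⟩ : ∃ k', k = k' + 1 := ⟨k - 1, by omega⟩
    rw [hs] at hx
    rcases y with _ | _ | β'
    · simp only [vtr1, reduceCtorEq] at hx
    · simp only [vtr1] at hx
      split_ifs at hx with hj
      simp only [Option.some.injEq, Prod.mk.injEq] at hx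
      obtain ⟨rfl, rfl, rfl⟩ := hx
      refine ⟨Or.inl hs.symm, ⟨n', rfl, h1, h2, h3, k, ?_, by omega, ?_, hj⟩, by omega⟩
      · simp [mv]; omega
      · rw [← h5, R_mr (by rw [← hs, hp]; rfl)]
        omega
    · simp only [vtr1, Option.some.injEq, Prod.mk.injEq] at hx
      obtain ⟨rfl, rfl, rfl⟩ := hx
      refine ⟨Or.inl hs.symm, ⟨n', rfl, h1, h2, h3, k, ?_, by omega, ?_, h6⟩, by omega⟩
      · simp [mv]; omega
      · rw [← h5, R_md ⟨β', by rw [← hs, hp]; rfl⟩]
  · rw [hs] at hx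
    simp only [vtr1, reduceCtorEq] at hx
  · rw [hs] at hx
    simp only [vtr1, reduceCtorEq] at hx

theorem upd_eq {y : VW} : ∀ j, H < j → j ≤ H + n →
    Function.update τ (H + n + 1) (Sym.wrk y) j = τ j := fun j _ h2 =>
  Function.update_of_ne (by omega) _ _

theorem m_fr (ht : 1 ≤ t) (hB : Bas w τ S g H n) (h : St2 m t τ g H n p .fr)
    (hx : vtr1 m t .fr (τ p) = some (q', x, d)) :
    QC m t w τ g H n p q' x d ∨ MC m t w τ S g H n p q' x d := by
  have hbd := h.bound
  obtain ⟨h1, h2, h3, h4⟩ := h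
  rcases hs : τ p with a | y | _ | _
  · right
    obtain ⟨h5, h6, h7, h8⟩ := hB.eq_of_inp hs h1 h2
    rw [hs] at hx
    rcases a with _ | _ | _ | _ | β | _ | _ <;>
      simp only [vtr1, reduceCtorEq, Option.some.injEq, Prod.mk.injEq] at hx
    · obtain ⟨rfl, rfl, rfl⟩ := hx
      refine ⟨h5, ⟨h6, h7, h8⟩, _, rfl, ?_, ?_, n, rfl, ⟨β, Function.update_self _ _ _⟩,
        h3.congr upd_eq, ?_⟩
      · simp [mv]; omega
      · simp [mv]; omega
      · rw [R_congr n upd_eq]
        exact h4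
    · obtain ⟨rfl, rfl, rfl⟩ := hx
      refine ⟨h5, ⟨h6, h7, h8⟩, _, rfl, n, rfl, Function.update_self _ _ _,
        h3.congr upd_eq, ?_, n, ?_, le_refl _, ?_, ht⟩
      · rw [R_congr n upd_eq]
        exact h4
      · simp [mv]; omega
      · rw [R_mr (Function.update_self _ _ _)]
        omega
  · left
    have hp := hB.le_of_wrk hs
    rw [hs] at hx
    rcases y with _ | _ | _ <;>
      simp only [vtr1, reduceCtorEq, Option.some.injEq, Prod.mk.injEq] at hx <;>
    · obtain ⟨rfl, rfl, rfl⟩ := hx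
      refine ⟨Or.inl hs.symm, ⟨?_, ?_, h3, h4⟩, Or.inl hp⟩ <;> simp [mv] <;> omega
  · rw [hs] at hx
    simp only [vtr1, reduceCtorEq] at hx
  · left
    have hp := hB.rend hs
    rw [hs] at hx
    simp only [vtr1, Option.some.injEq, Prod.mk.injEq] at hx
    obtain ⟨rfl, rfl, rfl⟩ := hx
    exact ⟨Or.inr hp, hbd, Or.inr hp⟩

theorem PV.start {i : ℕ} {y : VW} (h3 : PN m t τ H n) (h4 : i ≤ m) (hp : p = H + n) :
    PV m t (Function.update τ (H + n + 1) (Sym.wrk y)) H (n + 1) p i := by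
  obtain ⟨n', rfl, ⟨β, hβ⟩, hF, hR⟩ := h3
  have he : ∀ j, H < j → j ≤ H + n' →
      Function.update τ (H + (n' + 1) + 1) (Sym.wrk y) j = τ j := fun j _ h2 =>
    Function.update_of_ne (by omega) _ _
  have hβ' : Function.update τ (H + (n' + 1) + 1) (Sym.wrk y) (H + n' + 1) =
      Sym.wrk (VW.md β) := by
    rw [Function.update_of_ne (by omega)]
    exact hβ
  refine ⟨n', rfl, ⟨β, hβ'⟩, hF.congr he, ?_, n' + 1, hp, le_refl _, fun j h5 h6 => ?_,
    by omega⟩
  · rw [R_congr n' he]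
    exact hR
  · omega

theorem m_rh (hB : Bas w τ S g H n) {i : ℕ} (h : St2 m t τ g H n p (.rh i))
    (hx : vtr1 m t (.rh i) (τ p) = some (q', x, d)) :
    QC m t w τ g H n p q' x d ∨ MC m t w τ S g H n p q' x d := by
  have hbd := h.bound
  obtain ⟨h1, h2, h3, h4⟩ := h
  rcases hs : τ p with a | y | _ | _
  · right
    obtain ⟨h5, h6, h7, h8⟩ := hB.eq_of_inp hs h1 h2
    rw [hs] at hx
    rcases a with _ | _ | _ | _ | β | _ | _ <;>
      simp only [vtr1, reduceCtorEq, Option.some.injEq, Prod.mk.injEq] at hx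
    · obtain ⟨rfl, rfl, rfl⟩ := hx
      refine ⟨h5, ⟨h6, h7, h8⟩, _, rfl, ?_, β, Function.update_self _ _ _⟩
      exact PV.start h3 h4 (by simp [mv]; omega)
    · obtain ⟨rfl, rfl, rfl⟩ := hx
      refine ⟨h5, ⟨h6, h7, h8⟩, _, rfl, ?_, Function.update_self _ _ _⟩
      exact PV.start h3 h4 (by simp [mv]; omega)
  · left
    have hp := hB.le_of_wrk hs
    rw [hs] at hx
    rcases y with _ | _ | _ <;>
      simp only [vtr1, reduceCtorEq, Option.some.injEq, Prod.mk.injEq] at hx <;>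
    · obtain ⟨rfl, rfl, rfl⟩ := hx
      refine ⟨Or.inl hs.symm, ⟨?_, ?_, h3, h4⟩, Or.inl hp⟩ <;> simp [mv] <;> omega
  · rw [hs] at hx
    simp only [vtr1, reduceCtorEq] at hx
  · left
    have hp := hB.rend hs
    rw [hs] at hx
    simp only [vtr1, Option.some.injEq, Prod.mk.injEq] at hx
    obtain ⟨rfl, rfl, rfl⟩ := hx
    exact ⟨Or.inr hp, hbd, Or.inr hp⟩

/-- a move in the second phase -/
theorem move2 (hm : 1 ≤ m) (ht : 1 ≤ t) (hB : Bas w τ S g H n) {q : VQ}
    (h : St2 m t τ g H n p q)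
    (hx : vtr1 m t q (τ p) = some (q', x, d) ∨ vtr2 q (τ p) = some (q', x, d)) :
    QC m t w τ g H n p q' x d ∨ MC m t w τ S g H n p q' x d := by
  have h2 : ∀ {q : VQ}, q ≠ .scan → (∀ β j, q ≠ .se β j) →
      vtr2 q (τ p) ≠ some (q', x, d) := by
    intro q hq1 hq2 hc
    rcases q with _ | _ | _ | _ | _ | _ | ⟨β, j⟩ | _ | _ | _ | _ | _ | _ | _ | _
    · exact hq1 rfl
    any_goals (simp only [vtr2, reduceCtorEq] at hc)
    exact hq2 β j rfl
  by_cases hse : ∃ β j, q = .se β j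
  · obtain ⟨β, j, rfl⟩ := hse
    exact Or.inl (q_se hB h hx)
  · have hsc : q ≠ .scan := by
      rintro rfl
      exact h
    have hx1 : vtr1 m t q (τ p) = some (q', x, d) := by
      rcases hx with hx | hx
      · exact hx
      · exact absurd hx (h2 hsc fun β j hc => hse ⟨β, j, hc⟩)
    rcases q with _ | _ | _ | _ | _ | _ | ⟨β, j⟩ | _ | _ | _ | _ | _ | _ | _ | _
    · exact absurd rfl hsc
    · exact absurd h id
    · exact m_fr ht hB h hx1
    · exact Or.inl (q_fin hB h hx1)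
    · exact Or.inl (q_cj hB h hx1)
    · exact Or.inl (q_lf hB h hx1)
    · exact absurd ⟨β, j, rfl⟩ hse
    · exact Or.inl (q_ca hm hB h hx1)
    · exact Or.inl (q_cb hB h hx1)
    · exact Or.inl (q_rt hB h hx1)
    · exact m_rh hB h hx1
    · exact Or.inl (q_vk hB h hx1)
    · exact Or.inl (q_vr hB h hx1)
    · exact Or.inl (q_ve hB h hx1)
    · exact Or.inl (q_rw hB h hx1)

end

/-- what is true during a computation -/
def Inv (m t : ℕ) (w : List VA) (c : (vm m t).Cfg) : Prop :=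
  (c.st = VQ.scan ∧ c.tape = itp w ∧ ∀ j ∈ c.seen, j < c.pos) ∨
  (c.st = VQ.mid ∧ (∀ j ∈ c.seen, j < c.pos) ∧ ∃ g, g < c.pos ∧ c.tape g = Sym.wrk VW.ms ∧
    (∀ j, j ≠ g → c.tape j = itp w j) ∧
    ∀ j, g < j → j < c.pos → ∃ x : VA, c.tape j = Sym.inp x ∧ x.blk = true) ∨
  ∃ g H n, Bas w c.tape c.seen g H n ∧ St2 m t c.tape g H n c.pos c.st

theorem Inv.not_rend {m t : ℕ} {w : List VA} {c : (vm m t).Cfg} (h : Inv m t w c) {j : ℕ}
    (h2 : j ≤ w.length) : c.tape j ≠ Sym.rend := by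
  intro hc
  rcases h with ⟨_, h3, _⟩ | ⟨_, _, g, _, h3, h4, _⟩ | ⟨g, H, n, hB, _⟩
  · rw [h3] at hc
    have := ini_rend hc
    omega
  · by_cases hj : j = g
    · subst hj
      rw [h3] at hc
      exact absurd hc (by simp)
    · rw [h4 j hj] at hc
      have := ini_rend hc
      omega
  · have := hB.rend hc
    omega

theorem inv_step {m t : ℕ} (hm : 1 ≤ m) (ht : 1 ≤ t) {cv : Bool} {w : List VA}
    {c c' : (vm m t).Cfg} (hi : Inv m t w c) (hs : (vm m t).Step cv w.length c c') :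
    Inv m t w c' := by
  obtain ⟨_, x, d, hx, _, hpos, hw, hnw, hseen⟩ := hs
  have hx' : vtr1 m t c.st (c.tape c.pos) = some (c'.st, x, d) ∨
      vtr2 c.st (c.tape c.pos) = some (c'.st, x, d) := hx
  clear hx
  have hq : (Sym.ofW x = c.tape c.pos ∨ w.length < c.pos) → c'.tape = c.tape := by
    intro hq
    by_cases hc : 1 ≤ c.pos ∧ c.pos ≤ w.length ∧ c.pos ∉ c.seen
    · rcases hq with hq | hq
      · rw [hw hc, hq]
        exact Function.update_eq_self _ _
      · omega
    · exact (hnw hc).1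
  have hsn : (∀ j ∈ c.seen, j < c.pos) → d = true → ∀ j ∈ c'.seen, j < c'.pos := by
    intro h1 hd j hj
    rw [hpos, if_pos hd]
    rw [hseen] at hj
    rcases hj with rfl | hj
    · exact Nat.lt_succ_self _
    · exact Nat.lt_succ_of_lt (h1 j hj)
  rcases hi with ⟨h1, h2, h3⟩ | ⟨h1, h2, g, hg, h3, h4, h5⟩ | ⟨g, H, n, hB, hS⟩
  · -- first phase
    rw [h1] at hx'
    rcases hs : c.tape c.pos with a | y | _ | _
    · have h4 : itp w c.pos = Sym.inp a := by
        rw [← h2]
        exact hs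
      obtain ⟨h5, h6⟩ := ini_inp h4
      have h7 : c.pos ∉ c.seen := fun h => absurd (h3 _ h) (lt_irrefl _)
      have hw' := hw ⟨h5, h6, h7⟩
      rw [hs] at hx'
      rcases hx' with hx' | hx'
      · simp only [vtr1] at hx'
        split_ifs at hx'
        simp only [Option.some.injEq, Prod.mk.injEq] at hx'
        obtain ⟨h8, rfl, rfl⟩ := hx'
        refine Or.inl ⟨h8.symm, ?_, hsn h3 rfl⟩
        rw [hq (Or.inl hs.symm)]
        exact h2
      · rcases a with _ | _ | _ | _ | _ | _ | _ <;>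
          simp only [vtr2, reduceCtorEq, Option.some.injEq, Prod.mk.injEq] at hx'
        obtain ⟨h8, rfl, rfl⟩ := hx'
        refine Or.inr (Or.inl ⟨h8.symm, hsn h3 rfl, c.pos, ?_, ?_, ?_, ?_⟩)
        · rw [hpos, if_pos rfl]
          exact Nat.lt_succ_self _
        · rw [hw']
          exact Function.update_self _ _ _
        · intro j hj
          rw [hw', Function.update_of_ne hj, h2]
        · intro j hj hj'
          rw [hpos, if_pos rfl] at hj'
          omega
    · rw [h2] at hs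
      exact absurd hs ini_wrk
    · rw [hs] at hx'
      simp only [vtr1, vtr2, reduceCtorEq, or_self] at hx'
    · rw [hs] at hx'
      simp only [vtr1, vtr2, reduceCtorEq, or_self] at hx'
  · -- second phase
    rw [h1] at hx'
    rcases hs : c.tape c.pos with a | y | _ | _
    · rw [hs] at hx'
      simp only [vtr1, vtr2, reduceCtorEq, or_false] at hx'
      split_ifs at hx' with hb hh
      · simp only [Option.some.injEq, Prod.mk.injEq] at hx'
        obtain ⟨h8, rfl, rfl⟩ := hx'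
        have hT := hq (Or.inl hs.symm)
        refine Or.inr (Or.inl ⟨h8.symm, hsn h2 rfl, g, ?_, ?_, ?_, ?_⟩)
        · rw [hpos, if_pos rfl]
          exact Nat.lt_succ_of_lt hg
        · rw [hT]
          exact h3
        · rw [hT]
          exact h4
        · intro j hj hj'
          rw [hT]
          rw [hpos, if_pos rfl] at hj'
          by_cases hjp : j = c.pos
          · subst hjp
            exact ⟨a, hs, hb⟩
          · exact h5 j hj (by omega)
      · simp only [Option.some.injEq, Prod.mk.injEq] at hx'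
        obtain ⟨h8, rfl, rfl⟩ := hx'
        have hT := hq (Or.inl hs.symm)
        refine Or.inr (Or.inr ⟨g, c.pos, 0, ?_, ?_⟩)
        · rw [hT]
          refine ⟨hg, h3, h5, ?_, fun j h6 h7 => absurd h6 (by omega), fun j h6 _ => h4 j h6,
            ?_⟩
          · rw [hs, hh]
          · intro j hj
            rw [hseen] at hj
            rcases hj with rfl | hj
            · left; omega
            · left
              have := h2 j hj
              omega
        · rw [← h8, hT, hpos, if_pos rfl]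
          exact ⟨by omega, by omega, full_zero _ _ _, Nat.zero_le _⟩
    · have hpg : c.pos = g := by
        by_contra hc
        rw [h4 _ hc] at hs
        exact ini_wrk hs
      omega
    · rw [hs] at hx'
      simp only [vtr1, vtr2, reduceCtorEq, or_self] at hx'
    · rw [hs] at hx'
      simp only [vtr1, vtr2, reduceCtorEq, or_self] at hx'
  · -- third phase
    rcases move2 hm ht hB hS hx' with ⟨h1, h2, h3⟩ | ⟨h1, h2, y, rfl, h3⟩
    · refine Or.inr (Or.inr ⟨g, H, n, ?_, ?_⟩)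
      · rw [hq h1, hseen]
        exact hB.next h3
      · rw [hq h1, hpos]
        exact h2
    · refine Or.inr (Or.inr ⟨g, H, n + 1, ?_, ?_⟩)
      · rw [hw h2, hseen, h1]
        exact hB.mark y
      · rw [hw h2, hpos, h1]
        rw [h1] at h3
        exact h3

theorem inv_reach {m t : ℕ} (hm : 1 ≤ m) (ht : 1 ≤ t) {cv : Bool} {w : List VA}
    {c : (vm m t).Cfg} (h : Reach (vm m t) cv w c) : Inv m t w c := by
  induction h with
  | refl => exact Or.inl ⟨rfl, init_eq m t w, fun j hj => absurd hj (Set.notMem_empty j)⟩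
  | tail _ hbc ih => exact inv_step hm ht ih hbc

theorem card_le {w : List VA} {τ : ℕ → Sym VA VW} {g H n : ℕ}
    (h : ∀ j, j ≠ g → (j ≤ H ∨ H + n < j) → τ j = itp w j) :
    {j | τ j ≠ itp w j}.Finite ∧ {j | τ j ≠ itp w j}.ncard ≤ n + 1 := by
  have hsub : {j | τ j ≠ itp w j} ⊆ insert g (Set.Ioc H (H + n)) := by
    intro j hj
    by_cases hg : j = g
    · exact Or.inl hg
    · right
      by_contra hc
      refine hj (h j hg ?_)
      rw [Set.mem_Ioc] at hc
      omega
  have hfin : (insert g (Set.Ioc H (H + n))).Finite := (Set.finite_Ioc _ _).insert _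
  refine ⟨hfin.subset hsub, (Set.ncard_le_ncard hsub hfin).trans ?_⟩
  refine (Set.ncard_insert_le _ _).trans ?_
  have h1 : (Set.Ioc H (H + n)).ncard = n := by
    rw [Set.ncard_eq_toFinset_card', Set.toFinset_Ioc, Nat.card_Ioc]
    omega
  rw [h1]

theorem few_third {m t : ℕ} (hm : 1 ≤ m) (ht : 1 ≤ t) {w : List VA} {c : (vm m t).Cfg}
    (hi : Inv m t w c) (h1 : c.pos ∈ c.seen) (h3 : c.pos ≤ w.length)
    {q : VQ} {x : VA ⊕ VW} {d : Bool}
    (hx : vtr1 m t c.st (c.tape c.pos) = some (q, x, d) ∨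
      vtr2 c.st (c.tape c.pos) = some (q, x, d)) : Sym.ofW x = c.tape c.pos := by
  rcases hi with ⟨_, _, h4⟩ | ⟨_, h4, _⟩ | ⟨g, H, n, hB, hS⟩
  · exact absurd (h4 _ h1) (lt_irrefl _)
  · exact absurd (h4 _ h1) (lt_irrefl _)
  · rcases move2 hm ht hB hS hx with ⟨h5 | h5, _, _⟩ | ⟨_, h5, _⟩
    · exact h5
    · omega
    · exact absurd h1 h5.2.2

end WitFAux

open WitFAux in
theorem vm_few (m t : ℕ) (hm : 1 ≤ m) (ht : 1 ≤ t) (cv : Bool) (k : ℕ)
    (hk : t * (m + 1) + 3 ≤ k) : FewWrites (vm m t) cv k := by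
  intro w c hr
  have hi := inv_reach hm ht hr
  rw [init_eq m t w]
  have hb : ∃ g H n, (∀ j, j ≠ g → (j ≤ H ∨ H + n < j) → c.tape j = itp w j) ∧
      n ≤ t * (m + 1) + 2 := by
    rcases hi with ⟨_, h, _⟩ | ⟨_, _, g, _, _, h, _⟩ | ⟨g, H, n, hB, hS⟩
    · exact ⟨0, 0, 0, fun j _ _ => congrFun h j, Nat.zero_le _⟩
    · exact ⟨g, 0, 0, fun j hj _ => h j hj, Nat.zero_le _⟩
    · exact ⟨g, H, n, hB.out, hS.bound⟩
  obtain ⟨g, H, n, h1, h2⟩ := hb
  obtain ⟨h3, h4⟩ := card_le h1
  exact ⟨h3, by omega, fun h5 _ h6 q x d hx _ => few_third hm ht hi h5 h6 hx⟩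

end Pool.Agent.P0036f5b
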