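import Pool.Agent.Lib.P0036f5b.Prog
import Pool.Agent.Lib.P0036f5b.Codes
import Pool.Agent.Lib.P0036f5b.Num
import Pool.Agent.Lib.P0036f5b.NfaA
import Pool.Agent.Lib.P0036f5b.NfaB
import Pool.Agent.Lib.P0036f5b.NfaC
import Pool.Agent.Lib.P0036f5b.WitA
import Pool.Agent.Lib.P0036f5b.WitF
import Pool.Agent.Lib.P0036f5b.WitC
import Pool.Agent.Lib.P0036f5k.Main

/-!
# The cost of determinising 1-limited automata that change at most `k` cells
-/

set_option autoImplicit false

namespace Pool.Agent.P0036f5b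

open Relation Pool.Agent.P0036f5v2 Pool.Agent.P0036f5w Pool.Agent.P0036f5g Pool.Agent.P0036f5k

/-- Determinisation of the language of a local system with at most `k` marks. -/
theorem upper_fs {A Q M : Type} [Finite A] [Finite Q] [Finite M] [Nonempty M] (S : FS A Q M)
    (k n : ℕ) (hn : 4 ≤ n) (hQ : Nat.card Q ≤ n) (hA : Nat.card A ≤ n) (hM : Nat.card M ≤ n)
    (hk : k + 1 ≤ 2 ^ (n ^ 2)) :
    ∃ D : LA A, D.toMach.Det ∧ (∀ cv, D.toMach.lang cv = Lb S k) ∧
      D.toMach.size ≤ 2 ^ (1000 * n ^ 2 * (Nat.log 2 (k + 1) + 1)) := by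
  have nQ : Nonempty Q := ⟨S.p0⟩
  have hQ0 : 0 < Nat.card Q := Nat.card_pos
  obtain ⟨κ, mx, hκ, hN, hsz⟩ := num_mainB (k := k) (n := n) (K := 2 * Nat.card Q)
    (a := Nat.card A) (μ := Nat.card M) hn (by omega) hA hM hk
  obtain ⟨ρ, π, h1, h2, h3⟩ := exists_enum Q
  obtain ⟨info, h4, h5⟩ := exists_infoB Q k
  obtain ⟨mks, h6⟩ := exists_marks M
  let Z : PB A Q M := ⟨S, k, mx, 2 * Nat.card Q, ρ, π, info, mks, κ, Nat.log 2 (k + 1) + 1,
    Nat.card M⟩
  have hd : k < 2 ^ (Nat.log 2 (k + 1) + 1) := by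
    have := Nat.lt_pow_succ_log_self (b := 2) (by norm_num) (k + 1)
    omega
  have hZ : Z.Ok := ⟨by show 0 < 2 * Nat.card Q; omega, h1, h2, h3, h4, h5, h6, hκ, hN, hd⟩
  obtain ⟨D, hD, hL, hs⟩ := PB.exists_det hZ
  exact ⟨D, hD, hL, hs.trans hsz⟩

theorem lang_fs {A : Type} (M : Mach A) (cv : Bool) (k : ℕ) (hM : FewWrites M cv k) :
    M.lang cv = Lb (fs M) k := by
  have key : ∀ hM : FewWrites M true k, M.lang true = Lb (fs M) k := by
    intro hM
    ext w
    exact ⟨lb_of_lang M k hM, lang_of_lb M k⟩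
  cases cv with
  | true => exact key hM
  | false =>
    obtain ⟨h1, h2⟩ := few_false M k hM
    rw [h2]
    exact key h1

/-- Over the empty alphabet nothing is ever changed. -/
theorem few_of_isEmpty {A : Type} [IsEmpty A] (M : Mach A) (cv : Bool) : FewWrites M cv 0 := by
  intro w c hc
  have hw : w = [] := by
    cases w with
    | nil => rfl
    | cons a _ => exact isEmptyElim a
  subst hw
  have ht : c.tape = M.initTape [] := by
    induction hc with
    | refl => rfl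
    | @tail b c _ h2 ih =>
      obtain ⟨-, x, d, -, -, -, -, h3, -⟩ := h2
      rw [(h3 (by
        rintro ⟨h4, h5, -⟩
        simp at h5
        omega)).1, ih]
  have h0 : {j | c.tape j ≠ M.initTape [] j} = ∅ := by
    ext j
    simp [ht]
  rw [h0]
  refine ⟨Set.finite_empty, by rw [Set.ncard_empty], ?_⟩
  intro _ h1 h2
  simp at h2
  omega

/-- A machine of size at most `n` that changes at most `k` cells has an equivalent deterministic
1-limited automaton of size at most `2 ^ (1000 n ^ 2 (log₂ (k + 1) + 1))`. -/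
theorem upper_many {A : Type} [Finite A] (M : LA A) (cv : Bool) (k n : ℕ)
    (hM : FewWrites M.toMach cv k) (hn : 4 ≤ n) (hs : M.toMach.size ≤ n) :
    ∃ D : LA A, D.toMach.Det ∧ D.toMach.lang cv = M.toMach.lang cv ∧
      D.toMach.size ≤ 2 ^ (1000 * n ^ 2 * (Nat.log 2 (k + 1) + 1)) := by
  have fQ := M.finQ
  have fW := M.finW
  have hc := card_sym A M.W
  have hsize : Nat.card M.Q + Nat.card A + Nat.card (Sym A M.W) ≤ n := by
    refine le_trans ?_ hs
    unfold Mach.size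
    omega
  by_cases hk : k + 1 ≤ 2 ^ (n ^ 2)
  · rcases isEmpty_or_nonempty (A ⊕ M.W) with he | he
    · have hA : IsEmpty A := ⟨fun a => he.elim (Sum.inl a)⟩
      obtain ⟨D, hD, hL, hsz⟩ := upper_few M cv 0 n (few_of_isEmpty M.toMach cv) hn hs
      refine ⟨D, hD, hL cv, hsz.trans (Nat.pow_le_pow_right (by norm_num) ?_)⟩
      have h1 : 1000 * n ^ 2 * 1 ≤ 1000 * n ^ 2 * (Nat.log 2 (k + 1) + 1) :=
        Nat.mul_le_mul_left _ (by omega)
      nlinarith
    · obtain ⟨D, hD, hL, hsz⟩ := upper_fs (fs M.toMach) k n hn (by omega) (by omega) (by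
        rw [Nat.card_sum]
        omega) hk
      exact ⟨D, hD, by rw [hL cv, lang_fs M.toMach cv k hM], hsz⟩
  · obtain ⟨D, hD, hL, hsz⟩ := upper M cv n hs
    refine ⟨D, hD, hL cv, hsz.trans (Nat.pow_le_pow_right (by norm_num) ?_)⟩
    have h1 : n ^ 2 ≤ Nat.log 2 (k + 1) :=
      Nat.le_log_of_pow_le (by norm_num) (by omega)
    have h2 : n ^ 2 * n ^ 2 ≤ n ^ 2 * (Nat.log 2 (k + 1) + 1) := Nat.mul_le_mul_left _ (by omega)
    have h3 : n ^ 4 = n ^ 2 * n ^ 2 := by ring
    have h4 : 1000 * n ^ 2 * (Nat.log 2 (k + 1) + 1) =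
        1000 * (n ^ 2 * (Nat.log 2 (k + 1) + 1)) := by ring
    omega

theorem costsMany_le {cv : Bool} {k n s : ℕ} (hn : 4 ≤ n)
    (h : s ∈ costsFor (fun _ M => FewWrites M cv k) cv n) :
    s ≤ 2 ^ (1000 * n ^ 2 * (Nat.log 2 (k + 1) + 1)) := by
  obtain ⟨A, fA, M, hM, hs, hl⟩ := h
  obtain ⟨D, hD, hL, hsz⟩ := upper_many M cv k n hM hn hs
  exact (hl.2 ⟨D, hD, hL, rfl⟩).trans hsz

theorem finite_VA : Finite VA := by
  refine Finite.of_injective (β := Fin 6 ⊕ Bool)
    (fun y => match y with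
      | .s => Sum.inl 0
      | .c => Sum.inl 1
      | .a => Sum.inl 2
      | .b => Sum.inl 3
      | .d β => Sum.inr β
      | .h => Sum.inl 4
      | .r => Sum.inl 5) ?_
  rintro (_ | _ | _ | _ | _ | _ | _) (_ | _ | _ | _ | _ | _ | _) h <;> simp_all

/-- lower bound from the matrix language -/
theorem lower_matrix {cv : Bool} {k n m t d : ℕ} (hn : 4 ≤ n) (hm : 1 ≤ m) (ht : 1 ≤ t)
    (htm : t ≤ m) (hmn : 5500 * m ≤ n) (hk : t * (m + 1) + 3 ≤ k)
    (hd : IsGreatest (costsFor (fun _ M => FewWrites M cv k) cv n) d) :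
    2 ^ (t * m / 2) ≤ d := by
  have fVA := finite_VA
  obtain ⟨M, hL, hsz, hF⟩ := vexists_small m t hm ht htm
  obtain ⟨s, hs, D, hD, hL', hsize⟩ := exists_costFew M cv (k := k) (n := n) hn
    (hF cv k (vm_few m t hm ht cv k hk)) (by omega)
  have h2 := vdet_lower m t hm ht D hD cv (by rw [hL', hL cv])
  rw [hsize] at h2
  have h3 : 2 ^ (t * m / 2) ≤ s := by
    have h4 : (2 ^ (t * m / 2)) ^ 2 ≤ s ^ 2 := by
      rw [← pow_mul]
      refine le_trans (Nat.pow_le_pow_right (by norm_num) ?_) h2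
      omega
    exact (Nat.pow_le_pow_iff_left (by norm_num)).1 h4
  exact h3.trans (hd.2 hs)

/-- the choice of the parameters -/
theorem num_lower {k n : ℕ} (hn : 500000 ≤ n) (hk : 500000 * n ≤ k) :
    ∃ m t, 1 ≤ m ∧ 1 ≤ t ∧ t ≤ m ∧ 5500 * m ≤ n ∧ t * (m + 1) + 3 ≤ k ∧
      min k (n ^ 2) / 1000000000 ≤ t * m / 2 := by
  set m := n / 5500 with hm
  have hm1 : 90 ≤ m := by omega
  have hm2 : 5500 * m ≤ n := by omega
  have hm3 : n ≤ 5600 * m := by omega
  have hmk : 500000 * n ≤ k := hk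
  set t := min m ((k - 3) / (m + 1)) with ht
  have hdiv : 1 ≤ (k - 3) / (m + 1) := (Nat.le_div_iff_mul_le (by omega)).2 (by omega)
  have ht1 : 1 ≤ t := le_min (by omega) hdiv
  refine ⟨m, t, by omega, ht1, min_le_left _ _, hm2, ?_, ?_⟩
  · have h1 : t * (m + 1) ≤ (k - 3) / (m + 1) * (m + 1) :=
      Nat.mul_le_mul_right _ (min_le_right _ _)
    have h2 := Nat.div_mul_le_self (k - 3) (m + 1)
    omega
  · rcases le_total m ((k - 3) / (m + 1)) with h | h
    · have h1 : t = m := by rw [ht, min_eq_left h]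
      rw [h1]
      have h2 : min k (n ^ 2) ≤ n ^ 2 := min_le_right _ _
      have h3 : n ^ 2 ≤ 31360000 * (m * m) := by nlinarith
      have h4 : 31360000 * (m * m) / 1000000000 ≤ m * m / 2 := by omega
      exact (Nat.div_le_div_right (h2.trans h3)).trans h4
    · have h1 : t = (k - 3) / (m + 1) := by rw [ht, min_eq_right h]
      have h2 : k - 3 < (t + 1) * (m + 1) := by
        rw [h1]
        have h7 := Nat.div_add_mod (k - 3) (m + 1)
        have h8 := Nat.mod_lt (k - 3) (show 0 < m + 1 by omega)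
        have h9 : ((k - 3) / (m + 1) + 1) * (m + 1) =
            (m + 1) * ((k - 3) / (m + 1)) + (m + 1) := by ring
        omega
      have h3 : min k (n ^ 2) ≤ k := min_le_left _ _
      have h7 : (t + 1) * (m + 1) = t * m + t + m + 1 := by ring
      have h8 : t * 1 ≤ t * m := Nat.mul_le_mul_left _ (by omega)
      have h4 : k ≤ 2 * (t * m) + m + 4 := by omega
      have h5 : k ≤ 8 * (t * m) := by omega
      have h6 : k / 1000000000 ≤ t * m / 2 := by omega
      exact (Nat.div_le_div_right h3).trans h6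

/-- The cost of determinising 1-limited automata that change at most `k` cells. -/
theorem main_all (cv : Bool) (k n : ℕ) (hn : 4 ≤ n) :
    ∃ d, IsGreatest (costsFor (fun _ M => FewWrites M cv k) cv n) d ∧
      d ≤ 2 ^ (300 * (k + 1) ^ 2 * n) ∧
      d ≤ 2 ^ (1000 * n ^ 2 * (Nat.log 2 (k + 1) + 1)) ∧
      (1 ≤ k → 2 ^ (n / 2000) ≤ d) ∧
      2 ^ (min k (n ^ 2) / 1000000000) ≤ d := by
  obtain ⟨d, hd, h1, h2⟩ := main_few cv k n hn
  refine ⟨d, hd, h1, costsMany_le hn hd.1, h2, ?_⟩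
  rcases Nat.eq_zero_or_pos k with h0 | h0
  · subst h0
    rw [Nat.zero_min, Nat.zero_div, pow_zero]
    obtain ⟨A, fA, M, hM, hs', ⟨D, hD, hL, hs⟩, _⟩ := hd.1
    rw [← hs]
    unfold Mach.size
    omega
  · by_cases hn2 : 500000 ≤ n
    · by_cases hk2 : 500000 * n ≤ k
      · obtain ⟨m, t, g1, g2, g3, g4, g5, g6⟩ := num_lower hn2 hk2
        exact (Nat.pow_le_pow_right (by norm_num) g6).trans (lower_matrix hn g1 g2 g3 g4 g5 hd)
      · refine (Nat.pow_le_pow_right (by norm_num) ?_).trans (h2 h0)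
        have h3 : min k (n ^ 2) ≤ k := min_le_left _ _
        omega
    · refine (Nat.pow_le_pow_right (by norm_num) ?_).trans (h2 h0)
      have h3 : min k (n ^ 2) ≤ n ^ 2 := min_le_right _ _
      have h4 : n ^ 2 ≤ 500000 * n := by nlinarith
      omega

end Pool.Agent.P0036f5b
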