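import Pool.Agent.Lib.P0036f5b.RFc

/-!
# B4: paths of informations

* `pt_mono`: induction on `n`, with `sle_trans` and `st_mono`.
* `pt_add`: induction on `n'`; for `n' = 0` use `pt_mono` (`Pt S w a 0 z y` is `Sle z y`) and
  `sle_refl`.
* `pt_drop`: `(w.drop c)[a + n]? = w[c + (a + n)]?`.
* `pt_count`: every step keeps or increases the first component (`Sg`: equal, `Mc`: plus one).
* `pt_of_sg`: induction on `n` with `sg_split` at the boundary `a + n`; the last segment
  `Sg (vr S w) (a + n) (a + n + 1) z y` is `Sg (fun _ => S.L0 c) 0 1 z y` for the letter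
  `w[a + n]? = some c` by `sg_shift` and `sg_congr`.
* `sg_of_pt`: induction on `n`; by `pt_count` no step is a mark; `sg_trans`; `n = 0`: `sg_self`.
* `pt_split`: induction on `n` (generalising `y`): if the last step is unmarked or
  `x.1 + m < z.1` use the induction hypothesis for `z` and append the last step (`pt_add` or
  directly); otherwise the last step is a mark and `z.1 = x.1 + m`, take `o = n`.
* `pt_mark`: `pt_add` twice.
-/

set_option autoImplicit false

namespace Pool.Agent.P0036f5b

open Relation Pool.Agent.P0036f5v2 Pool.Agent.P0036f5w Pool.Agent.P0036f5g Pool.Agent.P0036f5k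
  Classical

variable {A Q M : Type}

theorem pt_mono {S : FS A Q M} {w : List A} {a n : ℕ} {x' x y y' : Inf Q} (h1 : Sle x' x)
    (h : Pt S w a n x y) (h2 : Sle y y') : Pt S w a n x' y' := by
  induction n generalizing y y' with
  | zero => exact sle_trans h1 (sle_trans h h2)
  | succ n ih =>
    obtain ⟨z, hz, c, hc, hs⟩ := h
    exact ⟨z, ih hz (sle_refl z), c, hc, st_mono (sle_refl z) hs h2⟩

theorem pt_add {S : FS A Q M} {w : List A} {a n n' : ℕ} {x y : Inf Q} :
    Pt S w a (n + n') x y ↔ ∃ z, Pt S w a n x z ∧ Pt S w (a + n) n' z y := by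
  induction n' generalizing y with
  | zero =>
    constructor
    · intro h
      exact ⟨y, h, sle_refl y⟩
    · rintro ⟨z, h1, h2⟩
      exact pt_mono (sle_refl x) h1 h2
  | succ n' ih =>
    constructor
    · rintro ⟨z', h1, c, hc, hs⟩
      obtain ⟨z, h2, h3⟩ := ih.1 h1
      exact ⟨z, h2, z', h3, c, by rw [add_assoc]; exact hc, hs⟩
    · rintro ⟨z, h2, z', h3, c, hc, hs⟩
      have hc' : w[a + (n + n')]? = some c := by
        rw [← add_assoc]
        exact hc
      exact ⟨z', ih.2 ⟨z, h2, h3⟩, c, hc', hs⟩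

theorem pt_drop {S : FS A Q M} {w : List A} {c a n : ℕ} {x y : Inf Q} :
    Pt S (w.drop c) a n x y ↔ Pt S w (c + a) n x y := by
  induction n generalizing y with
  | zero => exact Iff.rfl
  | succ n ih =>
    constructor
    · rintro ⟨z, h1, d, hd, hs⟩
      rw [List.getElem?_drop, ← add_assoc] at hd
      exact ⟨z, ih.1 h1, d, hd, hs⟩
    · rintro ⟨z, h1, d, hd, hs⟩
      refine ⟨z, ih.2 h1, d, ?_, hs⟩
      rw [List.getElem?_drop, ← add_assoc]
      exact hd

theorem pt_count {S : FS A Q M} {w : List A} {a n : ℕ} {x y : Inf Q} (h : Pt S w a n x y) :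
    x.1 ≤ y.1 := by
  induction n generalizing y with
  | zero => exact h.1.symm.le
  | succ n ih =>
    obtain ⟨z, h1, c, hc, hs⟩ := h
    have h2 := ih h1
    rcases hs with hs | ⟨μ, hs⟩
    · have h3 := hs.1
      omega
    · have h3 := hs.1
      omega

/-- an unmarked letter is a segment of length one -/
private theorem path_sg_one {S : FS A Q M} {w : List A} {b : ℕ} {c : A} (hc : w[b]? = some c)
    {x y : Inf Q} : Sg (fun _ => S.L0 c) 0 1 x y ↔ Sg (vr S w) b (b + 1) x y := by
  have h1 : Sg (fun i => vr S w (b + i)) 0 1 x y ↔ Sg (vr S w) (b + 0) (b + 1) x y := sg_shift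
  rw [Nat.add_zero] at h1
  rw [← h1]
  refine sg_congr fun i _ hi => ?_
  have hi0 : i = 0 := by omega
  subst hi0
  simp only [vr, Nat.add_zero, hc]

theorem pt_of_sg {S : FS A Q M} {w : List A} {a n : ℕ} (hn : a + n ≤ w.length) {x y : Inf Q}
    (h : Sg (vr S w) a (a + n) x y) : Pt S w a n x y := by
  induction n generalizing y with
  | zero => exact sg_self.1 h
  | succ n ih =>
    obtain ⟨z, h1, h2⟩ := sg_split (b := a + n) (by omega) (by omega) h
    have hlt : a + n < w.length := by omega
    have hc : w[a + n]? = some w[a + n] := List.getElem?_eq_getElem hlt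
    exact ⟨z, ih (by omega) h1, _, hc, Or.inl ((path_sg_one hc).2 h2)⟩

theorem sg_of_pt {S : FS A Q M} {w : List A} {a n : ℕ} {x y : Inf Q} (h : Pt S w a n x y)
    (hc : y.1 = x.1) : Sg (vr S w) a (a + n) x y := by
  induction n generalizing y with
  | zero => exact sg_self.2 h
  | succ n ih =>
    obtain ⟨z, h1, c, hcz, hs⟩ := h
    have h2 := pt_count h1
    rcases hs with hs | ⟨μ, hs⟩
    · have h3 := hs.1
      exact sg_trans (b := a + n) (by omega) (by omega) (ih h1 (by omega))
        ((path_sg_one hcz).1 hs)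
    · have h3 := hs.1
      omega

theorem pt_split {S : FS A Q M} {w : List A} {a n m : ℕ} {x y : Inf Q} (h : Pt S w a n x y)
    (hm : x.1 + m < y.1) : ∃ (o : ℕ) (z z' : Inf Q) (c : A) (μ : M), o < n ∧ Pt S w a o x z ∧
      z.1 = x.1 + m ∧ w[a + o]? = some c ∧ Mc S c μ z z' ∧
      Pt S w (a + (o + 1)) (n - (o + 1)) z' y := by
  induction n generalizing y with
  | zero =>
    have h1 := h.1
    omega
  | succ n ih =>
    obtain ⟨z0, h0, c0, hc0, hs⟩ := h
    by_cases hlt : x.1 + m < z0.1
    · obtain ⟨o, z, z', c, μ, ho, h1, h2, h3, h4, h5⟩ := ih h0 hlt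
      refine ⟨o, z, z', c, μ, by omega, h1, h2, h3, h4, ?_⟩
      have e1 : n + 1 - (o + 1) = n - (o + 1) + 1 := by omega
      have e2 : a + (o + 1) + (n - (o + 1)) = a + n := by omega
      rw [e1]
      exact ⟨z0, h5, c0, by rw [e2]; exact hc0, hs⟩
    · rcases hs with hs | ⟨μ, hs⟩
      · have h3 := hs.1
        omega
      · have h3 := hs.1
        refine ⟨n, z0, y, c0, μ, by omega, h0, by omega, hc0, hs, ?_⟩
        rw [Nat.sub_self]
        exact sle_refl y

theorem pt_mark {S : FS A Q M} {w : List A} {a o n' : ℕ} {x z z' y : Inf Q} {c : A} {μ : M}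
    (h1 : Pt S w a o x z) (h2 : w[a + o]? = some c) (h3 : Mc S c μ z z')
    (h4 : Pt S w (a + (o + 1)) n' z' y) : Pt S w a (o + 1 + n') x y :=
  pt_add.2 ⟨z', ⟨z, h1, c, h2, Or.inr ⟨μ, h3⟩⟩, h4⟩

end Pool.Agent.P0036f5b
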