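import Pool.Agent.Lib.P0036f5b.SegT
import Pool.Agent.Lib.P0036f5b.Path

/-!
# B9: correctness of the trees for segments with marks

Let `u = w.drop (t * Z.bl)`; the `h` cells of the region are letters, `t * B + h ≤ w.length`
(from `Z.Vw` if `0 < h`; `u[o]? ≠ none` for `o < h`).  Induction on `d`, generalising `lo, hi, x, y`.
* sound: `zT`: `eval_zT` and `pt_of_sg` (`lo + (hi - lo) = hi ≤ u.length`).  Otherwise there are
  `lo ≤ o < hi`, `μ`, `z`, `z'`; by induction `Pt S u lo (o - lo) x z`,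
  `Pt S u (o + 1) (hi - (o + 1)) z' y`, and `eval_clT`; `pt_mark`.
* complete (`Pt S u lo (hi - lo) x y`, `y.1 < x.1 + 2 ^ d`, `y.1 ≤ k`): if `y.1 = x.1`: `sg_of_pt`,
  `eval_zT`.  Otherwise `x.1 < y.1` (`pt_count`), `d = d' + 1`; put `m = (y.1 - x.1 - 1) / 2` and use
  `pt_split`: `z.1 = x.1 + m < x.1 + 2 ^ d'`, `z'.1 = x.1 + m + 1`, `y.1 < z'.1 + 2 ^ d'`; the
  informations `z, z'` have codes `< N` since `z.1 ≤ z'.1 ≤ y.1 ≤ k` (`Ok.hinfo`), `μ` has a code
  (`Ok.hmk`), `o < h < 2 B`.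
-/

set_option autoImplicit false

namespace Pool.Agent.P0036f5b

open Relation Pool.Agent.P0036f5v2 Pool.Agent.P0036f5w Pool.Agent.P0036f5g Pool.Agent.P0036f5k
  Classical

variable {A Q M : Type}

namespace PB

theorem mkT_sound {Z : PB A Q M} (hZ : Z.Ok) {w : List A} {t h : ℕ} {v : ℕ → Sy A}
    (hv : Z.Vw w (t * Z.bl) h v) (hh : h < 2 * Z.bl) (hw : t * Z.bl + h ≤ w.length) :
    ∀ (d lo hi : ℕ) (x y : Inf Q), lo ≤ hi → hi ≤ h → (Z.mkT h d lo hi x y).eval v = true →
      Pt Z.S (w.drop (t * Z.bl)) lo (hi - lo) x y := by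
  have hlen : h ≤ (w.drop (t * Z.bl)).length := by
    rw [List.length_drop]
    omega
  have base : ∀ (lo hi : ℕ) (x y : Inf Q), lo ≤ hi → hi ≤ h →
      (Z.zT h (sgP Z.sl Z.mx h lo hi) x y).eval v = true →
      Pt Z.S (w.drop (t * Z.bl)) lo (hi - lo) x y := by
    intro lo hi x y h1 h2 he
    have h3 := (eval_zT hZ hv hh h1 h2 x y).mp he
    have h4 : lo + (hi - lo) = hi := by omega
    apply pt_of_sg
    · rw [h4]
      exact h2.trans hlen
    · rw [h4]
      exact h3
  intro d
  induction d with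
  | zero =>
    intro lo hi x y h1 h2 he
    exact base lo hi x y h1 h2 he
  | succ d ih =>
    intro lo hi x y h1 h2 he
    rw [mkT, DT.eval_or, Bool.or_eq_true] at he
    rcases he with he | he
    · exact base lo hi x y h1 h2 he
    · rw [DT.eval_orN] at he
      obtain ⟨o, -, he⟩ := he
      rw [DT.eval_orN] at he
      obtain ⟨m, -, he⟩ := he
      rw [DT.eval_orN] at he
      obtain ⟨z, -, he⟩ := he
      rw [DT.eval_orN] at he
      obtain ⟨z', -, he⟩ := he
      split_ifs at he with hc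
      · rw [DT.eval_and, Bool.and_eq_true, DT.eval_and, Bool.and_eq_true] at he
        obtain ⟨e1, e2, e3⟩ := he
        have p1 := ih lo o x (Z.info z) hc.1 (by omega) e1
        have p3 := ih (o + 1) hi (Z.info z') y (by omega) h2 e3
        obtain ⟨c, hc1, hc2⟩ := (eval_clT hv (by omega : o < h) (Z.mks m) (Z.info z)
          (Z.info z')).mp e2
        have q1 : lo + (o - lo) = o := by omega
        have q2 : lo + (o - lo + 1) = o + 1 := by omega
        have q3 : hi - lo = o - lo + 1 + (hi - (o + 1)) := by omega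
        rw [q3]
        refine pt_mark p1 (c := c) ?_ hc2 ?_
        · rw [q1]
          exact hc1
        · rw [q2]
          exact p3
      · exact absurd he (by simp [DT.eval])

theorem mkT_complete {Z : PB A Q M} (hZ : Z.Ok) {w : List A} {t h : ℕ} {v : ℕ → Sy A}
    (hv : Z.Vw w (t * Z.bl) h v) (hh : h < 2 * Z.bl) (hw : t * Z.bl + h ≤ w.length) :
    ∀ (d lo hi : ℕ) (x y : Inf Q), lo ≤ hi → hi ≤ h →
      Pt Z.S (w.drop (t * Z.bl)) lo (hi - lo) x y → y.1 < x.1 + 2 ^ d → y.1 ≤ Z.k →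
      (Z.mkT h d lo hi x y).eval v = true := by
  have base : ∀ (lo hi : ℕ) (x y : Inf Q), lo ≤ hi → hi ≤ h →
      Pt Z.S (w.drop (t * Z.bl)) lo (hi - lo) x y → y.1 = x.1 →
      (Z.zT h (sgP Z.sl Z.mx h lo hi) x y).eval v = true := by
    intro lo hi x y h1 h2 hp hxy
    have h4 : lo + (hi - lo) = hi := by omega
    have h3 := sg_of_pt hp hxy
    rw [h4] at h3
    exact (eval_zT hZ hv hh h1 h2 x y).mpr h3
  intro d
  induction d with
  | zero =>
    intro lo hi x y h1 h2 hp hd hk
    have h3 := pt_count hp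
    exact base lo hi x y h1 h2 hp (by simp at hd; omega)
  | succ d ih =>
    intro lo hi x y h1 h2 hp hd hk
    rw [mkT, DT.eval_or, Bool.or_eq_true]
    have h3 := pt_count hp
    by_cases hxy : y.1 = x.1
    · left
      exact base lo hi x y h1 h2 hp hxy
    · right
      rw [pow_succ] at hd
      obtain ⟨o, z, z', c, μ, ho, p1, hz, hc, hm, p3⟩ :=
        pt_split (m := (y.1 - x.1 - 1) / 2) hp (by omega)
      have hz' : z'.1 = z.1 + 1 := hm.1
      have h5 := pt_count p3
      obtain ⟨cz, hcz, ez⟩ := hZ.hinfo z (by omega)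
      obtain ⟨cz', hcz', ez'⟩ := hZ.hinfo z' (by omega)
      obtain ⟨cm, hcm, em⟩ := hZ.hmk μ
      rw [DT.eval_orN]
      refine ⟨lo + o, by omega, ?_⟩
      rw [DT.eval_orN]
      refine ⟨cm, hcm, ?_⟩
      rw [DT.eval_orN]
      refine ⟨cz, hcz, ?_⟩
      rw [DT.eval_orN]
      refine ⟨cz', hcz', ?_⟩
      rw [if_pos ⟨by omega, by omega⟩, DT.eval_and, Bool.and_eq_true, DT.eval_and,
        Bool.and_eq_true, ez, ez', em]
      refine ⟨?_, ?_, ?_⟩
      · refine ih lo (lo + o) x z (by omega) (by omega) ?_ (by omega) (by omega)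
        have q1 : lo + o - lo = o := by omega
        rw [q1]
        exact p1
      · exact (eval_clT hv (by omega : lo + o < h) μ z z').mpr ⟨c, hc, hm⟩
      · refine ih (lo + o + 1) hi z' y (by omega) h2 ?_ (by omega) hk
        have q2 : lo + o + 1 = lo + (o + 1) := by omega
        have q3 : hi - (lo + o + 1) = hi - lo - (o + 1) := by omega
        rw [q3, q2]
        exact p3

end PB

end Pool.Agent.P0036f5b
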