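import Pool.Agent.Lib.P0036f5b.Defs
import Pool.Agent.Lib.P0036f5k.LocA

/-!
# B1: reachability with reflections, simple facts

* `rf_mono`: `ReflTransGen.mono`.  `rf_congr`: the moves in `[a, b)` are the same.
* `rf_shift`: shifting all boundaries by `c` is injective and maps the steps onto the steps (from a
  node with boundary `≥ c` all steps of the shifted system lead to boundaries `≥ c`); compare
  `tb_shift` in `P0036f5k/LocA.lean`.
* `sg_shift`, `sg_congr`: from these.  `sg_self`: without cells the only steps are reflections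
  `(a, false, p) → (a, true, p')`, and nothing leaves `(a, true, p')`.
* `sle_refl`, `sle_trans`, `sg_mono`, `mc_mono`, `st_mono`: monotonicity in the table (`Sle x y` says
  that `y` is weaker than `x`), `tab_mono`.
-/

set_option autoImplicit false

namespace Pool.Agent.P0036f5b

open Relation Pool.Agent.P0036f5v2 Pool.Agent.P0036f5w Pool.Agent.P0036f5g Pool.Agent.P0036f5k
  Classical

variable {A Q M : Type}

namespace RFaAux

theorem step_shift {v : ℕ → CR Q} {T : Set (Q × Q)} {a b c : ℕ} {x y : Nd Q} :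
    ((∃ i, a ≤ i ∧ i < b ∧ EC (fun i => v (c + i)) i x y) ∨
      ∃ p p', x = (a, false, p) ∧ y = (a, true, p') ∧ (p, p') ∈ T) ↔
    ((∃ i, c + a ≤ i ∧ i < c + b ∧ EC v i (c + x.1, x.2) (c + y.1, y.2)) ∨
      ∃ p p', ((c + x.1, x.2) : Nd Q) = (c + a, false, p) ∧
        ((c + y.1, y.2) : Nd Q) = (c + a, true, p') ∧ (p, p') ∈ T) := by
  constructor
  · rintro (⟨i, h1, h2, h3⟩ | ⟨p, p', rfl, rfl, h⟩)
    · exact Or.inl ⟨c + i, by omega, by omega, LocAAux.ec_shift.1 h3⟩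
    · exact Or.inr ⟨p, p', rfl, rfl, h⟩
  · rintro (⟨i, h1, h2, h3⟩ | ⟨p, p', h1, h2, h⟩)
    · obtain ⟨j, rfl⟩ : ∃ j, i = c + j := ⟨i - c, by omega⟩
      exact Or.inl ⟨j, by omega, by omega, LocAAux.ec_shift.2 h3⟩
    · rw [Prod.mk.injEq] at h1 h2
      refine Or.inr ⟨p, p', ?_, ?_, h⟩
      · exact Prod.ext (by show x.1 = a; omega) h1.2
      · exact Prod.ext (by show y.1 = a; omega) h2.2

theorem rf_shift_mpr {v : ℕ → CR Q} {T : Set (Q × Q)} {a b c : ℕ} {x z : Nd Q}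
    (h : RF v T (c + a) (c + b) (c + x.1, x.2) z) :
    ∃ y : Nd Q, z = (c + y.1, y.2) ∧ RF (fun i => v (c + i)) T a b x y := by
  induction h with
  | refl => exact ⟨x, rfl, ReflTransGen.refl⟩
  | @tail z w _ hs ih =>
    obtain ⟨y, rfl, hy⟩ := ih
    have hw : c ≤ w.1 := by
      rcases hs with ⟨i, h1, h2, h3⟩ | ⟨p, p', _, h2, _⟩
      · have h4 := h3.2.2
        split_ifs at h4 <;> omega
      · rw [h2]
        show c ≤ c + a
        omega
    have hw' : w = (c + (w.1 - c), w.2) := Prod.ext (by show w.1 = c + (w.1 - c); omega) rfl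
    rw [hw'] at hs
    exact ⟨(w.1 - c, w.2), hw', hy.tail (step_shift.2 hs)⟩

theorem rf_congr' {v v' : ℕ → CR Q} {T : Set (Q × Q)} {a b : ℕ}
    (h : ∀ i, a ≤ i → i < b → v i = v' i) {x y : Nd Q} (hr : RF v T a b x y) :
    RF v' T a b x y := by
  refine ReflTransGen.mono ?_ _ _ hr
  rintro x y (⟨i, h1, h2, h3⟩ | h3)
  · refine Or.inl ⟨i, h1, h2, ?_⟩
    unfold EC at h3 ⊢
    rw [← h i h1 h2]
    exact h3
  · exact Or.inr h3

theorem rf_self_true {v : ℕ → CR Q} {T : Set (Q × Q)} {a : ℕ} {p : Q} {z : Nd Q}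
    (h : RF v T a a (a, true, p) z) : z = (a, true, p) := by
  rcases h.cases_head with h0 | ⟨w, hw, _⟩
  · exact h0.symm
  · exfalso
    rcases hw with ⟨i, h1, h2, _⟩ | ⟨q, q', h1, _, _⟩
    · omega
    · simp only [Prod.mk.injEq] at h1
      exact Bool.noConfusion h1.2.1

theorem rf_self_false {v : ℕ → CR Q} {T : Set (Q × Q)} {a : ℕ} {p p' : Q} :
    RF v T a a (a, false, p) (a, true, p') ↔ (p, p') ∈ T := by
  constructor
  · intro h
    rcases h.cases_head with h0 | ⟨w, hw, hr⟩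
    · exfalso
      simp only [Prod.mk.injEq] at h0
      exact Bool.noConfusion h0.2.1
    · rcases hw with ⟨i, h1, h2, _⟩ | ⟨q, q', h1, h2, h3⟩
      · omega
      · subst h2
        have h4 := rf_self_true hr
        simp only [Prod.mk.injEq] at h1 h4
        obtain ⟨_, _, h5⟩ := h1
        obtain ⟨_, _, h6⟩ := h4
        rw [h5, h6]
        exact h3
  · intro h
    exact ReflTransGen.single (Or.inr ⟨p, p', rfl, rfl, h⟩)

end RFaAux

open RFaAux

theorem rf_mono {v : ℕ → CR Q} {T T' : Set (Q × Q)} (hT : T ⊆ T') {a b : ℕ} {x y : Nd Q}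
    (h : RF v T a b x y) : RF v T' a b x y := by
  refine ReflTransGen.mono ?_ _ _ h
  rintro x y (h1 | ⟨p, p', h1, h2, h3⟩)
  · exact Or.inl h1
  · exact Or.inr ⟨p, p', h1, h2, hT h3⟩

theorem tab_mono {v : ℕ → CR Q} {T T' : Set (Q × Q)} (hT : T ⊆ T') (a b : ℕ) :
    tab v T a b ⊆ tab v T' a b := fun _ ht => rf_mono hT ht

theorem rf_congr {v v' : ℕ → CR Q} {T : Set (Q × Q)} {a b : ℕ}
    (h : ∀ i, a ≤ i → i < b → v i = v' i) {x y : Nd Q} : RF v T a b x y ↔ RF v' T a b x y := 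
  ⟨fun hr => rf_congr' h hr, fun hr => rf_congr' (fun i h1 h2 => (h i h1 h2).symm) hr⟩

theorem rf_shift {v : ℕ → CR Q} {T : Set (Q × Q)} {a b c : ℕ} {x y : Nd Q} :
    RF (fun i => v (c + i)) T a b x y ↔
      RF v T (c + a) (c + b) (c + x.1, x.2) (c + y.1, y.2) := by
  constructor
  · intro h
    refine ReflTransGen.lift (fun x : Nd Q => ((c + x.1, x.2) : Nd Q)) ?_ _ _ h
    intro x y hxy
    exact step_shift.1 hxy
  · intro h
    obtain ⟨y', h1, h2⟩ := rf_shift_mpr h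
    rw [Prod.mk.injEq] at h1
    have : y = y' := Prod.ext (by omega) h1.2
    rw [this]
    exact h2

theorem sg_congr {v v' : ℕ → CR Q} {a b : ℕ} (h : ∀ i, a ≤ i → i < b → v i = v' i)
    {x y : Inf Q} : Sg v a b x y ↔ Sg v' a b x y := by
  unfold Sg tab
  simp only [rf_congr (T := x.2.2) h]

theorem sg_shift {v : ℕ → CR Q} {a b c : ℕ} {x y : Inf Q} :
    Sg (fun i => v (c + i)) a b x y ↔ Sg v (c + a) (c + b) x y := by
  unfold Sg tab
  simp only [rf_shift]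

theorem sg_self {v : ℕ → CR Q} {a : ℕ} {x y : Inf Q} : Sg v a a x y ↔ Sle x y := by
  unfold Sg Sle tab
  constructor
  · rintro ⟨h1, h2, h3⟩
    have h4 := rf_self_true h2
    simp only [Prod.mk.injEq] at h4
    exact ⟨h1, h4.2.2, fun t ht => rf_self_false.1 (h3 ht)⟩
  · rintro ⟨h1, h2, h3⟩
    refine ⟨h1, ?_, fun t ht => rf_self_false.2 (h3 ht)⟩
    rw [h2]
    exact ReflTransGen.refl

theorem sle_refl (x : Inf Q) : Sle x x := ⟨rfl, rfl, subset_rfl⟩

theorem sle_trans {x y z : Inf Q} (h1 : Sle x y) (h2 : Sle y z) : Sle x z := 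
  ⟨h2.1.trans h1.1, h2.2.1.trans h1.2.1, h2.2.2.trans h1.2.2⟩

theorem sg_mono {v : ℕ → CR Q} {a b : ℕ} {x' x y y' : Inf Q} (h1 : Sle x' x) (h : Sg v a b x y)
    (h2 : Sle y y') : Sg v a b x' y' := by
  obtain ⟨g1, g2, g3⟩ := h
  refine ⟨by rw [h2.1, g1, h1.1], ?_, h2.2.2.trans (g3.trans (tab_mono h1.2.2 a b))⟩
  rw [h2.2.1, ← h1.2.1]
  exact rf_mono h1.2.2 g2

theorem mc_mono {S : FS A Q M} {a : A} {μ : M} {x' x y y' : Inf Q} (h1 : Sle x' x)
    (h : Mc S a μ x y) (h2 : Sle y y') : Mc S a μ x' y' := by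
  obtain ⟨g1, ⟨d, q, g2, g3⟩, g4⟩ := h
  refine ⟨by rw [h2.1, g1, h1.1], ⟨d, q, ?_, ?_⟩, h2.2.2.trans (g4.trans (tab_mono h1.2.2 0 1))⟩
  · rw [← h1.2.1]
    exact g2
  · rw [h2.2.1]
    exact rf_mono h1.2.2 g3

theorem st_mono {S : FS A Q M} {a : A} {x' x y y' : Inf Q} (h1 : Sle x' x) (h : St S a x y)
    (h2 : Sle y y') : St S a x' y' := by
  rcases h with h | ⟨μ, h⟩
  · exact Or.inl (sg_mono h1 h h2)
  · exact Or.inr ⟨μ, mc_mono h1 h h2⟩

theorem ac_mono {S : FS A Q M} {x' x : Inf Q} (h1 : Sle x' x) (h : Ac S x) : Ac S x' := by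
  obtain ⟨f, hf, h⟩ := h
  refine ⟨f, hf, ?_⟩
  rw [← h1.2.1]
  exact rf_mono h1.2.2 h

end Pool.Agent.P0036f5b
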