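import Pool.Agent.Lib.P0036f5b.RFa

/-!
# B2: composition of segments

Let `T' = tab v T a b`.  Claims, for `a ≤ b ≤ c`:
(1) a path of `RF v T a c` between two nodes with boundary `≥ b`, the last one of the form
`(c', true, q)` with `c' ≥ b` (or any node that is not strictly left of `b`), is a path of
`RF v T' b c`: cut it at its crossings of the boundary `b`: a maximal part left of `b` starts with a
node `(b, false, p)` (all moves to the left across `b` end there) and ends with a node `(b, true, p')`,
it uses only cells in `[a, b)` and reflections at `a`, so `(p, p') ∈ T'`.  Invariant for the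
induction along the path from a node `x` with boundary `≥ b`: for the current node `z` either
`b ≤ z.1` and `z` is not in the middle of such a part and `RF v T' b c x z`, or there is `p` with
`RF v T' b c x (b, false, p)` and `RF v T a b (b, false, p) z`; the second case changes into the first
one when `z = (b, true, p')` is reached.  (For a node `(b, false, p)` itself both descriptions hold;
the next step from it is a move in the cell `b - 1 < b` or, if `a = b`, a reflection.)
(2) conversely every step of `RF v T' b c` is a path of `RF v T a c` (`RF v T a b ≤ RF v T a c`).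
* `tab_tab`: from (1), (2) for `(c, false, p)`, `(c, true, p')`.
* `rf_split`: a path from `(a, true, q)` to `(c, true, q')` has a first node of the form
  `(b, true, q1)` (a path that starts at a boundary `≤ b` and stays left of `b` can leave only by
  such a node); the part before is in `RF v T a b`, the part after is a path from `(b, true, q1)`,
  use (1).
* `sg_trans`, `sg_split`: from these with monotonicity; for `sg_split` take
  `y = (x.1, q1, tab v x.2.2 a b)`.
-/

set_option autoImplicit false

namespace Pool.Agent.P0036f5b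

open Relation Pool.Agent.P0036f5v2 Pool.Agent.P0036f5w Pool.Agent.P0036f5g Pool.Agent.P0036f5k
  Classical

variable {A Q M : Type}

namespace RFcAux

theorem rf_le {v : ℕ → CR Q} {T : Set (Q × Q)} {a b : ℕ} (hab : a ≤ b) {x z : Nd Q}
    (hx : x.1 ≤ b) (h : RF v T a b x z) : z.1 ≤ b := by
  induction h with
  | refl => exact hx
  | @tail z w _ hs _ =>
    rcases hs with ⟨i, _, h2, h3⟩ | ⟨p, p', _, rfl, _⟩
    · have h4 := h3.2.2
      rw [h4]
      split_ifs <;> omega
    · exact hab

theorem rf_wide {v : ℕ → CR Q} {T : Set (Q × Q)} {a b c : ℕ} (hbc : b ≤ c) {x z : Nd Q}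
    (h : RF v T a b x z) : RF v T a c x z := by
  refine ReflTransGen.mono ?_ _ _ h
  rintro x y (⟨i, h1, h2, h3⟩ | h1)
  · exact Or.inl ⟨i, h1, by omega, h3⟩
  · exact Or.inr h1

theorem rf_back {v : ℕ → CR Q} {T : Set (Q × Q)} {a b c : ℕ} (hab : a ≤ b) (hbc : b ≤ c)
    {x z : Nd Q} (h : RF v (tab v T a b) b c x z) : RF v T a c x z := by
  induction h with
  | refl => exact ReflTransGen.refl
  | @tail z w _ hs ih =>
    rcases hs with ⟨i, h1, h2, h3⟩ | ⟨p, p', rfl, rfl, h3⟩
    · exact ReflTransGen.tail ih (Or.inl ⟨i, by omega, h2, h3⟩)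
    · exact ReflTransGen.trans ih (rf_wide hbc h3)

theorem rf_inv {v : ℕ → CR Q} {T : Set (Q × Q)} {a b c : ℕ} (hab : a ≤ b) (hbc : b ≤ c)
    {x z : Nd Q} (hx : b ≤ x.1) (h : RF v T a c x z) :
    (b ≤ z.1 ∧ RF v (tab v T a b) b c x z) ∨
      ∃ p, RF v (tab v T a b) b c x (b, false, p) ∧ RF v T a b (b, false, p) z := by
  induction h with
  | refl => exact Or.inl ⟨hx, ReflTransGen.refl⟩
  | @tail z w _ hs ih =>
    rcases ih with ⟨h1, h2⟩ | ⟨p, h1, h2⟩
    · rcases hs with ⟨i, hi1, hi2, hi3⟩ | ⟨p, p', rfl, rfl, h3⟩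
      · by_cases hib : b ≤ i
        · refine Or.inl ⟨?_, ReflTransGen.tail h2 (Or.inl ⟨i, hib, hi2, hi3⟩)⟩
          have h4 := hi3.2.2
          rw [h4]
          split_ifs <;> omega
        · right
          obtain ⟨z1, z2, z3⟩ := z
          have h4 := hi3.1
          simp only at h4 h1
          have hz2 : z2 = false := by
            cases z2
            · rfl
            · exfalso
              simp only [if_true] at h4
              omega
          subst hz2
          simp only [Bool.false_eq_true, if_false] at h4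
          have hz1 : z1 = b := by omega
          subst hz1
          exact ⟨z3, h2, ReflTransGen.single (Or.inl ⟨i, hi1, by omega, hi3⟩)⟩
      · simp only at h1
        have hb : b = a := by omega
        subst hb
        refine Or.inr ⟨p, h2, ReflTransGen.single (Or.inr ⟨p, p', rfl, rfl, h3⟩)⟩
    · rcases hs with ⟨i, hi1, hi2, hi3⟩ | ⟨p1, p', rfl, rfl, h3⟩
      · by_cases hib : b ≤ i
        · left
          have hz := rf_le hab (le_refl b) h2
          obtain ⟨z1, z2, z3⟩ := z
          have h4 := hi3.1
          simp only at h4 hz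
          have hz2 : z2 = true := by
            cases z2
            · exfalso
              simp only [Bool.false_eq_true, if_false] at h4
              omega
            · rfl
          subst hz2
          simp only [if_true] at h4
          have hz1 : z1 = b := by omega
          subst hz1
          have h5 : RF v (tab v T a z1) z1 c x (z1, true, z3) :=
            ReflTransGen.tail h1 (Or.inr ⟨p, z3, rfl, rfl, h2⟩)
          refine ⟨?_, ReflTransGen.tail h5 (Or.inl ⟨i, hib, hi2, hi3⟩)⟩
          have h6 := hi3.2.2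
          rw [h6]
          split_ifs <;> omega
        · exact Or.inr ⟨p, h1, ReflTransGen.tail h2 (Or.inl ⟨i, hi1, by omega, hi3⟩)⟩
      · exact Or.inr ⟨p, h1, ReflTransGen.tail h2 (Or.inr ⟨p1, p', rfl, rfl, h3⟩)⟩

theorem rf_cut {v : ℕ → CR Q} {T : Set (Q × Q)} {a b c c' : ℕ} (hab : a ≤ b) (hbc : b ≤ c)
    {x : Nd Q} {q : Q} (hx : b ≤ x.1) (hc : b ≤ c') (h : RF v T a c x (c', true, q)) :
    RF v (tab v T a b) b c x (c', true, q) := by
  rcases rf_inv hab hbc hx h with ⟨_, h1⟩ | ⟨p, h1, h2⟩
  · exact h1
  · have h3 := rf_le hab (le_refl b) h2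
    simp only at h3
    have h4 : c' = b := by omega
    subst h4
    exact ReflTransGen.tail h1 (Or.inr ⟨p, q, rfl, rfl, h2⟩)

theorem rf_first {v : ℕ → CR Q} {T : Set (Q × Q)} {a b c : ℕ} (hab : a ≤ b) (hbc : b ≤ c)
    {x z : Nd Q} (hx : x.1 ≤ b) (h : RF v T a c x z) :
    (z.1 ≤ b ∧ RF v T a b x z) ∨
      ∃ q1, RF v T a b x (b, true, q1) ∧ RF v T a c (b, true, q1) z := by
  induction h with
  | refl => exact Or.inl ⟨hx, ReflTransGen.refl⟩
  | @tail z w _ hs ih =>
    rcases ih with ⟨h1, h2⟩ | ⟨p, h1, h2⟩
    · rcases hs with ⟨i, hi1, hi2, hi3⟩ | ⟨p, p', rfl, rfl, h3⟩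
      · by_cases hib : b ≤ i
        · right
          obtain ⟨z1, z2, z3⟩ := z
          have h4 := hi3.1
          simp only at h4 h1
          have hz2 : z2 = true := by
            cases z2
            · exfalso
              simp only [Bool.false_eq_true, if_false] at h4
              omega
            · rfl
          subst hz2
          simp only [if_true] at h4
          have hz1 : z1 = b := by omega
          subst hz1
          exact ⟨z3, h2, ReflTransGen.single (Or.inl ⟨i, hi1, hi2, hi3⟩)⟩
        · refine Or.inl ⟨?_, ReflTransGen.tail h2 (Or.inl ⟨i, hi1, by omega, hi3⟩)⟩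
          have h4 := hi3.2.2
          rw [h4]
          split_ifs <;> omega
      · exact Or.inl ⟨hab, ReflTransGen.tail h2 (Or.inr ⟨p, p', rfl, rfl, h3⟩)⟩
    · exact Or.inr ⟨p, h1, ReflTransGen.tail h2 hs⟩

end RFcAux

open RFcAux

theorem tab_tab {v : ℕ → CR Q} {T : Set (Q × Q)} {a b c : ℕ} (hab : a ≤ b) (hbc : b ≤ c) :
    tab v (tab v T a b) b c = tab v T a c := by
  ext t
  constructor
  · intro h
    exact rf_back hab hbc h
  · intro h
    exact rf_cut hab hbc hbc hbc h

theorem rf_split {v : ℕ → CR Q} {T : Set (Q × Q)} {a b c : ℕ} (hab : a ≤ b) (hbc : b ≤ c)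
    {q q' : Q} :
    RF v T a c (a, true, q) (c, true, q') ↔
      ∃ q1, RF v T a b (a, true, q) (b, true, q1) ∧
        RF v (tab v T a b) b c (b, true, q1) (c, true, q') := by
  constructor
  · intro h
    rcases rf_first hab hbc (x := (a, true, q)) hab h with ⟨h1, h2⟩ | ⟨q1, h1, h2⟩
    · simp only at h1
      have hc : c = b := by omega
      subst hc
      exact ⟨q', h2, ReflTransGen.refl⟩
    · exact ⟨q1, h1, rf_cut hab hbc (le_refl b) hbc h2⟩
  · rintro ⟨q1, h1, h2⟩
    exact ReflTransGen.trans (rf_wide hbc h1) (rf_back hab hbc h2)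

theorem sg_trans {v : ℕ → CR Q} {a b c : ℕ} (hab : a ≤ b) (hbc : b ≤ c) {x y z : Inf Q}
    (h1 : Sg v a b x y) (h2 : Sg v b c y z) : Sg v a c x z := by
  obtain ⟨h11, h12, h13⟩ := h1
  obtain ⟨h21, h22, h23⟩ := h2
  refine ⟨h21.trans h11, (rf_split hab hbc).2 ⟨y.2.1, h12, rf_mono h13 h22⟩, ?_⟩
  rw [← tab_tab hab hbc]
  exact h23.trans (tab_mono h13 b c)

theorem sg_split {v : ℕ → CR Q} {a b c : ℕ} (hab : a ≤ b) (hbc : b ≤ c) {x z : Inf Q}
    (h : Sg v a c x z) : ∃ y, Sg v a b x y ∧ Sg v b c y z := by
  obtain ⟨h1, h2, h3⟩ := h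
  obtain ⟨q1, h4, h5⟩ := (rf_split hab hbc).1 h2
  refine ⟨(x.1, q1, tab v x.2.2 a b), ⟨rfl, h4, subset_rfl⟩, ⟨h1, h5, ?_⟩⟩
  rw [tab_tab hab hbc]
  exact h3

end Pool.Agent.P0036f5b
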