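import Pool.Agent.Lib.P0036f5b.RFa

/-!
# B3: the graph of entries and exits of a segment

`PG v T a b` is a graph on `(false, x)` (entry with the port `x`) and `(true, y)` (exit with the port
`y`): edges from the entry `x` to the exit `y` if `TB v a b x y`, and from the exit `(false, p)` (to
the left) to the entry `(true, p')` (from the left) if `(p, p') ∈ T`.

(←) Along the path in `PG` from `(false, x)`: if `(false, x')` is reached then
`RF v T a b (ent a b x) (ent a b x')`, if `(true, y)` is reached then `RF v T a b (ent a b x) (ext a b y)`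
(an edge of the first kind is a path of moves, `RB v a b ≤ RF v T a b`; an edge of the second kind is a
reflection; `ext a b (false, p) = (a, false, p)`, `ent a b (true, p') = (a, true, p')`).
(→) Along the path in `RF` from `ent a b x`, invariant for the current node `z`: there is an entry
`x'` with `ReflTransGen (PG …) (false, x) (false, x')` and `RB v a b (ent a b x') z`.  At the end
`z = (b, true, q) = ext a b (true, q)` gives `TB v a b x' (true, q)`.  For a reflection from
`z = (a, false, p)`: `z = ext a b (false, p)`, so `TB v a b x' (false, p)`, then the edge to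
`(false, true, p')`.
-/

set_option autoImplicit false

namespace Pool.Agent.P0036f5b

open Relation Pool.Agent.P0036f5v2 Pool.Agent.P0036f5w Pool.Agent.P0036f5g Pool.Agent.P0036f5k
  Classical

variable {A Q M : Type}

/-- the graph of entries `(false, x)` and exits `(true, y)` -/
def PG (v : ℕ → CR Q) (T : Set (Q × Q)) (a b : ℕ) (u w : Bool × Bool × Q) : Prop :=
  (u.1 = false ∧ w.1 = true ∧ TB v a b u.2 w.2) ∨
    (u.1 = true ∧ w.1 = false ∧ u.2.1 = false ∧ w.2.1 = true ∧ (u.2.2, w.2.2) ∈ T)

namespace RFpAux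

theorem rb_rf {v : ℕ → CR Q} {T : Set (Q × Q)} {a b : ℕ} {x y : Nd Q}
    (h : Pool.Agent.P0036f5k.RB v a b x y) : RF v T a b x y :=
  ReflTransGen.mono (fun _ _ h => Or.inl h) _ _ h

/-- the node of the crossing graph of a node of the graph of entries and exits -/
def nd (a b : ℕ) (u : Bool × Bool × Q) : Nd Q :=
  if u.1 = false then ent a b u.2 else ext a b u.2

theorem nd_false (a b : ℕ) (x : Bool × Q) : nd a b (false, x) = ent a b x := rfl

theorem nd_true (a b : ℕ) (x : Bool × Q) : nd a b (true, x) = ext a b x := rfl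

theorem pg_rf {v : ℕ → CR Q} {T : Set (Q × Q)} {a b : ℕ} {u w : Bool × Bool × Q}
    (h : PG v T a b u w) : RF v T a b (nd a b u) (nd a b w) := by
  obtain ⟨u1, u2⟩ := u
  obtain ⟨w1, w2⟩ := w
  rcases h with ⟨h1, h2, h3⟩ | ⟨h1, h2, h3, h4, h5⟩
  · simp only at h1 h2 h3
    subst h1
    subst h2
    exact rb_rf h3
  · obtain ⟨d, p⟩ := u2
    obtain ⟨d', p'⟩ := w2
    simp only at h1 h2 h3 h4 h5
    subst h1
    subst h2
    subst h3
    subst h4
    exact ReflTransGen.single (Or.inr ⟨p, p', rfl, rfl, h5⟩)

theorem pg_path {v : ℕ → CR Q} {T : Set (Q × Q)} {a b : ℕ} {u w : Bool × Bool × Q}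
    (h : ReflTransGen (PG v T a b) u w) : RF v T a b (nd a b u) (nd a b w) := by
  induction h with
  | refl => exact ReflTransGen.refl
  | tail _ h ih => exact ReflTransGen.trans ih (pg_rf h)

theorem rf_inv {v : ℕ → CR Q} {T : Set (Q × Q)} {a b : ℕ} {x : Bool × Q} {z : Nd Q}
    (h : RF v T a b (ent a b x) z) :
    ∃ x' : Bool × Q, ReflTransGen (PG v T a b) (false, x) (false, x') ∧
      Pool.Agent.P0036f5k.RB v a b (ent a b x') z := by
  unfold RF at h
  induction h with
  | refl => exact ⟨x, ReflTransGen.refl, ReflTransGen.refl⟩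
  | tail _ hs ih =>
    obtain ⟨x', h1, h2⟩ := ih
    rcases hs with hs | ⟨p, p', rfl, rfl, hT⟩
    · exact ⟨x', h1, ReflTransGen.tail h2 hs⟩
    · refine ⟨(true, p'), (h1.tail (c := (true, false, p)) ?_).tail ?_, ?_⟩
      · exact Or.inl ⟨rfl, rfl, h2⟩
      · exact Or.inr ⟨rfl, rfl, rfl, rfl, hT⟩
      · exact ReflTransGen.refl

end RFpAux

open RFpAux in
theorem rf_port {v : ℕ → CR Q} {T : Set (Q × Q)} {a b : ℕ} {x : Bool × Q} {q : Q} :
    RF v T a b (ent a b x) (b, true, q) ↔
      ReflTransGen (PG v T a b) (false, x) (true, true, q) := by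
  constructor
  · intro h
    obtain ⟨x', h1, h2⟩ := rf_inv h
    exact h1.tail (Or.inl ⟨rfl, rfl, h2⟩)
  · intro h
    exact pg_path h

end Pool.Agent.P0036f5b
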