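import Pool.Agent.Lib.P0036f5b.Defs
import Pool.Agent.Lib.P0036f5k.Pieces

/-!
# B6: pieces of a segment

`sgP ℓ mx h lo hi` consists of the pieces of `finP (flg lo hi) ℓ mx h` inside `[lo, hi)`; the cells
`lo` and `hi` are annotated, so (`val_finP`) no `blk` piece contains them, and they are `raw` pieces of
their own if `< h`; `h` is a boundary because the last piece is `rnd` (`lo = h`).
* `chn_sgP`: general lemma, by induction on `l`: if `Chn ℓ h l a b`, `a ≤ lo`, `hi ≤ b`, `lo ≤ hi` and every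
  piece `p ∈ l` satisfies `¬ (p.lo < lo ∧ lo < p.hi)` and `¬ (p.lo < hi ∧ hi < p.hi)`, then
  `Chn ℓ h (l.filter …) lo hi` (if `lo = hi` the filtered list is `[]`; distinguish `a < lo` (the first
  piece is dropped, its end is `≤ lo`), `a = lo` (the first piece is kept if `lo < hi`); after `hi`
  everything is dropped).  The condition for the pieces of `finP`: `raw o` and `rnd` have length one;
  for `blk s u` the last part of `Val` (with `val_finP`, for any `K` with `ℓ = (mx + 1) * (K * K)`; or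
  prove directly, by induction on the level in `pcs`, that no `blk` piece contains an annotated cell:
  `gd` contains this).  Use `chn_finP`.
* `val_sgP`: `val_finP` and `List.mem_filter`; the annotation part of `Val` for `none` is trivial.
* `rnd_sgP`: `Pc.rnd.hi ℓ h = h + 1 > hi`.
* `length_sgP`: `List.length_filter_le`, `length_finP` with `k = 2` (`cnt (flg lo hi) h ≤ 2`).
-/

set_option autoImplicit false

namespace Pool.Agent.P0036f5b

open Relation Pool.Agent.P0036f5v2 Pool.Agent.P0036f5w Pool.Agent.P0036f5g Pool.Agent.P0036f5k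
  Classical

variable {A Q M : Type}

namespace SegPAux

private theorem filter_nil {ℓ h lo hi : ℕ} : ∀ (l : List Pc) (a b : ℕ), Chn ℓ h l a b → hi ≤ a →
    (l.filter fun p => decide (lo ≤ p.lo ℓ h ∧ p.hi ℓ h ≤ hi)) = [] := by
  intro l
  induction l with
  | nil => intro a b _ _; rfl
  | cons p l ih =>
    intro a b hc ha
    obtain ⟨c1, c2, c3⟩ := hc
    rw [List.filter_cons_of_neg]
    · exact ih _ _ c3 (by omega)
    · rw [decide_eq_true_eq]
      omega

private theorem chn_right {ℓ h lo hi : ℕ} : ∀ (l : List Pc) (a b : ℕ), Chn ℓ h l a b → lo ≤ a →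
    a ≤ hi → hi ≤ b → (∀ p ∈ l, ¬ (p.lo ℓ h < hi ∧ hi < p.hi ℓ h)) →
    Chn ℓ h (l.filter fun p => decide (lo ≤ p.lo ℓ h ∧ p.hi ℓ h ≤ hi)) a hi := by
  intro l
  induction l with
  | nil =>
    intro a b hc h1 h2 h3 _
    have hc' : a = b := hc
    change a = hi
    omega
  | cons p l ih =>
    intro a b hc h1 h2 h3 hp
    obtain ⟨c1, c2, c3⟩ := hc
    have hp0 := hp p List.mem_cons_self
    rcases Nat.lt_or_ge a hi with h4 | h4
    · rw [List.filter_cons_of_pos]
      · exact ⟨c1, c2, ih _ _ c3 (by omega) (by omega) h3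
          (fun q hq => hp q (List.mem_cons_of_mem _ hq))⟩
      · rw [decide_eq_true_eq]
        omega
    · rw [filter_nil (p :: l) a b ⟨c1, c2, c3⟩ h4]
      change a = hi
      omega

private theorem chn_filter {ℓ h lo hi : ℕ} (h0 : lo ≤ hi) : ∀ (l : List Pc) (a b : ℕ),
    Chn ℓ h l a b → a ≤ lo → hi ≤ b → (∀ p ∈ l, ¬ (p.lo ℓ h < lo ∧ lo < p.hi ℓ h)) →
    (∀ p ∈ l, ¬ (p.lo ℓ h < hi ∧ hi < p.hi ℓ h)) →
    Chn ℓ h (l.filter fun p => decide (lo ≤ p.lo ℓ h ∧ p.hi ℓ h ≤ hi)) lo hi := by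
  intro l
  induction l with
  | nil =>
    intro a b hc h1 h2 _ _
    have hc' : a = b := hc
    change lo = hi
    omega
  | cons p l ih =>
    intro a b hc h1 h2 hp hq
    rcases Nat.lt_or_ge a lo with h4 | h4
    · obtain ⟨c1, c2, c3⟩ := hc
      have hp0 := hp p List.mem_cons_self
      rw [List.filter_cons_of_neg]
      · exact ih _ _ c3 (by omega) h2 (fun q hq' => hp q (List.mem_cons_of_mem _ hq'))
          (fun q hq' => hq q (List.mem_cons_of_mem _ hq'))
      · rw [decide_eq_true_eq]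
        omega
    · have e : a = lo := by omega
      subst e
      exact chn_right (p :: l) a b hc le_rfl h0 h2 hq

private theorem flg_lo (lo hi : ℕ) : flg lo hi lo = some () := by
  unfold flg
  rw [if_pos (Or.inl rfl)]

private theorem flg_hi (lo hi : ℕ) : flg lo hi hi = some () := by
  unfold flg
  rw [if_pos (Or.inr rfl)]

private theorem no_cut {ℓ K mx h lo hi x : ℕ} (hx : flg lo hi x = some ()) {p : Pc}
    (hp : Val (flg lo hi) ℓ K mx h p) : ¬ (p.lo ℓ h < x ∧ x < p.hi ℓ h) := by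
  rintro ⟨h1, h2⟩
  cases p with
  | raw o =>
    change o < x at h1
    change x < o + 1 at h2
    omega
  | blk s u =>
    change (u - 2 ^ s) * ℓ < x at h1
    change x < u * ℓ at h2
    have h3 := hp.2.2.2.2 x h1.le h2
    rw [hx] at h3
    exact absurd h3 (by simp)
  | rnd =>
    change h < x at h1
    change x < h + 1 at h2
    omega

private theorem cnt_flg (lo hi h : ℕ) : cnt (flg lo hi) h ≤ 2 := by
  unfold cnt
  refine le_trans (Finset.card_le_card (t := {lo, hi}) ?_) Finset.card_le_two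
  intro o ho
  rw [Finset.mem_filter] at ho
  rw [Finset.mem_insert, Finset.mem_singleton]
  by_contra hc
  have h1 := ho.2
  unfold flg at h1
  rw [if_neg hc] at h1
  exact absurd h1 (by simp)

end SegPAux

open SegPAux

theorem chn_sgP {ℓ K mx h lo hi : ℕ} (hℓ : ℓ = (mx + 1) * (K * K)) (hK : 0 < K)
    (hh : h < 2 * (2 ^ mx * ℓ)) (h1 : lo ≤ hi) (h2 : hi ≤ h) :
    Chn ℓ h (sgP ℓ mx h lo hi) lo hi := by
  have hℓ' : 0 < ℓ := by
    rw [hℓ]
    positivity
  have hv := val_finP (flg lo hi) (h := h) hℓ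
  exact chn_filter h1 _ 0 (h + 1) (chn_finP (flg lo hi) hℓ' hh) (Nat.zero_le _) (by omega)
    (fun p hp => no_cut (flg_lo lo hi) (hv p hp)) (fun p hp => no_cut (flg_hi lo hi) (hv p hp))

theorem val_sgP {ℓ K mx h lo hi : ℕ} (hℓ : ℓ = (mx + 1) * (K * K)) :
    ∀ p ∈ sgP ℓ mx h lo hi, Val (fun _ => none : ℕ → Option Unit) ℓ K mx h p := by
  intro p hp
  have h1 := val_finP (flg lo hi) (h := h) hℓ p (List.mem_of_mem_filter hp)
  cases p with
  | raw o => exact h1
  | blk s u => exact ⟨h1.1, h1.2.1, h1.2.2.1, h1.2.2.2.1, fun _ _ _ => rfl⟩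
  | rnd => exact trivial

theorem rnd_sgP {ℓ mx h lo hi : ℕ} (h2 : hi ≤ h) : Pc.rnd ∉ sgP ℓ mx h lo hi := by
  intro hp
  have h3 := (List.mem_filter.1 hp).2
  rw [decide_eq_true_eq] at h3
  have h4 : h + 1 ≤ hi := h3.2
  omega

theorem length_sgP {ℓ mx h lo hi : ℕ} (hℓ : 0 < ℓ) :
    (sgP ℓ mx h lo hi).length ≤ 3 + 2 * (2 + 2) * (mx + ℓ) :=
  (List.length_filter_le _ _).trans (length_finP hℓ (cnt_flg lo hi h))

end Pool.Agent.P0036f5b
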