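import Pool.Agent.Lib.P0036f5b.Defs
import Pool.Agent.Lib.P0036f5k.Coarse
import Pool.Agent.Lib.P0036f5w.PathT

/-!
# B7a: correctness of the table trees

This is the same as `P0036f5k/TreeA.lean`,
without annotations: the behaviour of a visited letter cell is `S.L0 c`.  Let `ℓ = Z.sl`,
`B = Z.bl = 2 ^ mx * ℓ`, `a = t * B`, `u = w.drop a`.
* `eval_pcT`: `raw o`: `v (h - o) = some (c, _)`, `w[a + o]? = some c`, so `vr Z.S u o = Z.S.L0 c`;
  `tb_single`.  `blk s u'`: the table bit of the cell `a + (u' ℓ + (s K² + (π x K + π y)))`; shift by `a`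
  (`tb_shift`, `tb_congr`; `vr Z.S w (a + i) = vr Z.S (w.drop a) i`).
* `eval_lsT`: `eval_pathT`, then `tb_chn` (here as `tb_chn'`, without the
  hypothesis `l ≠ []`, which is not used in its proof; the lemmas of `CoarseAux` are used).
-/

set_option autoImplicit false

namespace Pool.Agent.P0036f5b

open Relation Pool.Agent.P0036f5v2 Pool.Agent.P0036f5w Pool.Agent.P0036f5g Pool.Agent.P0036f5k
  Classical

variable {A Q M : Type}

namespace TreeAAux

theorem vr_drop {S : FS A Q M} {w : List A} {a o : ℕ} {c : A} (h : w[a + o]? = some c) :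
    vr S (w.drop a) o = S.L0 c := by
  unfold vr
  rw [List.getElem?_drop, h]

theorem vr_of {S : FS A Q M} {w : List A} {i : ℕ} {c : A} (h : w[i]? = some c) :
    vr S w i = S.L0 c := by
  unfold vr
  rw [h]

theorem arith {ℓ mx K s px py t u i : ℕ} (hK : 0 < K) (hℓ : ℓ = (mx + 1) * (K * K)) (hs : s ≤ mx)
    (hx : px < K) (hy : py < K)
    (hi : i = t * (2 ^ mx * ℓ) + (u * ℓ + (s * (K * K) + (px * K + py)))) :
    i / ℓ = t * 2 ^ mx + u ∧ i % ℓ / (K * K) = s ∧ i % ℓ % (K * K) / K = px ∧ i % ℓ % K = py := by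
  have h1 : px * K + py < K * K := by
    calc px * K + py < px * K + K := by omega
      _ = (px + 1) * K := by ring
      _ ≤ K * K := Nat.mul_le_mul_right _ (by omega)
  have h2 : s * (K * K) + (px * K + py) < ℓ := by
    rw [hℓ]
    calc s * (K * K) + (px * K + py) < s * (K * K) + K * K := by omega
      _ = (s + 1) * (K * K) := by ring
      _ ≤ (mx + 1) * (K * K) := Nat.mul_le_mul_right _ (by omega)
  have hKK : 0 < K * K := Nat.mul_pos hK hK
  have hℓ0 : 0 < ℓ := by omega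
  have e : i = (s * (K * K) + (px * K + py)) + ℓ * (t * 2 ^ mx + u) := by
    rw [hi]
    ring
  have hdiv : i / ℓ = t * 2 ^ mx + u := by
    rw [e, Nat.add_mul_div_left _ _ hℓ0, Nat.div_eq_of_lt h2, Nat.zero_add]
  have hmod : i % ℓ = s * (K * K) + (px * K + py) := by
    rw [e, Nat.add_mul_mod_self_left, Nat.mod_eq_of_lt h2]
  refine ⟨hdiv, ?_, ?_, ?_⟩
  · rw [hmod, Nat.add_comm, Nat.add_mul_div_right _ _ hKK, Nat.div_eq_of_lt h1, Nat.zero_add]
  · rw [hmod, Nat.add_comm, Nat.add_mul_mod_self_right, Nat.mod_eq_of_lt h1, Nat.add_comm,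
      Nat.add_mul_div_right _ _ hK, Nat.div_eq_of_lt hy, Nat.zero_add]
  · rw [hmod, show s * (K * K) + (px * K + py) = py + K * (s * K + px) by ring,
      Nat.add_mul_mod_self_left, Nat.mod_eq_of_lt hy]

theorem idx_ent (i : ℕ) (x : Bool × Q) :
    Pool.Agent.P0036f5k.Par.idx (ent i (i + 1) x) = i := by
  unfold Pool.Agent.P0036f5k.Par.idx ent
  by_cases h : x.1 = true
  · simp [h]
  · simp [h]

/-- `tb_chn` without the hypothesis that the list is not empty -/
theorem tb_chn' {v : ℕ → CR Q} {ℓ h : ℕ} {l : List Pc} {a b : ℕ} (hl : Chn ℓ h l a b)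
    {x y : Bool × Q} :
    TB v a b x y ↔ ReflTransGen (CE v ℓ h l) (ent 0 l.length x) (ext 0 l.length y) := by
  obtain ⟨c, hc0, hcl, hc⟩ := CoarseAux.chn_bd l a b hl
  have hCE : CE v ℓ h l = CoarseAux.CG v l.length c := by
    funext X Y
    apply propext
    constructor
    · rintro ⟨i, hi, x, y, hX, hY, hT⟩
      refine ⟨i, x, y, hi, hX, hY, ?_⟩
      rw [← (hc i hi).1, ← (hc i hi).2.1]
      exact hT
    · rintro ⟨i, x, y, hi, hX, hY, hT⟩
      refine ⟨i, hi, x, y, hX, hY, ?_⟩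
      rw [(hc i hi).1, (hc i hi).2.1]
      exact hT
  rw [hCE, ← CoarseAux.tb_cg (fun i hi => (hc i hi).2.2), hc0, hcl]

end TreeAAux

open TreeAAux

namespace PB

theorem eval_pcT {Z : PB A Q M} (hZ : Z.Ok) {w : List A} {t h : ℕ} {v : ℕ → Sy A}
    (hv : Z.Vw w (t * Z.bl) h v) {p : Pc}
    (hp : Val (fun _ => none : ℕ → Option Unit) Z.sl Z.K Z.mx h p) (hr : p ≠ .rnd)
    (x y : Bool × Q) :
    (Z.pcT h p x y).eval v = true ↔
      TB (vr Z.S (w.drop (t * Z.bl))) (p.lo Z.sl h) (p.hi Z.sl h) x y := by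
  cases p with
  | raw o =>
    have ho : o < h := hp
    obtain ⟨c, hc1, hc2⟩ := hv o ho
    unfold pcT Pc.lo Pc.hi
    rw [tb_single, vr_drop hc1]
    simp only [DT.eval, hc2, decide_eq_true_eq]
  | rnd => exact absurd rfl hr
  | blk s u =>
    obtain ⟨hs, hdvd, hu, hle, -⟩ := hp
    have hx := hZ.hπ x
    have hy := hZ.hπ y
    have h1 : Z.π x * Z.K + Z.π y < Z.K * Z.K := by
      calc Z.π x * Z.K + Z.π y < Z.π x * Z.K + Z.K := by omega
        _ = (Z.π x + 1) * Z.K := by ring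
        _ ≤ Z.K * Z.K := Nat.mul_le_mul_right _ (by omega)
    have h2 : (s + 1) * (Z.K * Z.K) = s * (Z.K * Z.K) + Z.K * Z.K := by ring
    have ho : u * Z.sl + (s * (Z.K * Z.K) + (Z.π x * Z.K + Z.π y)) < h := by
      rw [h2] at hle
      omega
    obtain ⟨c, hc1, hc2⟩ := hv _ ho
    obtain ⟨a1, a2, a3, a4⟩ := arith (t := t) (u := u) hZ.hK (rfl : Z.sl = _) hs hx hy
      (rfl : t * Z.bl + (u * Z.sl + (s * (Z.K * Z.K) + (Z.π x * Z.K + Z.π y))) = _)
    have hpow : 2 ^ s ≤ u := Nat.le_of_dvd hu hdvd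
    unfold pcT Pc.lo Pc.hi
    simp only [DT.eval, hc2]
    unfold note
    rw [decide_eq_true_eq]
    unfold tbit
    rw [a1, a2, a3, a4, hZ.hρ, hZ.hρ]
    have hbl : t * Z.bl = t * 2 ^ Z.mx * Z.sl := by
      change t * (2 ^ Z.mx * Z.sl) = _
      ring
    have e1 : (t * 2 ^ Z.mx + u - 2 ^ s) * Z.sl = t * Z.bl + (u - 2 ^ s) * Z.sl := by
      rw [Nat.add_sub_assoc hpow, Nat.add_mul, hbl]
    have e2 : (t * 2 ^ Z.mx + u) * Z.sl = t * Z.bl + u * Z.sl := by
      rw [Nat.add_mul, hbl]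
    have hdv : 2 ^ s ∣ t * 2 ^ Z.mx + u :=
      Nat.dvd_add (Dvd.dvd.mul_left (Nat.pow_dvd_pow 2 hs) t) hdvd
    rw [e1, e2, ← tb_shift]
    have hcongr : TB (fun i => vr Z.S w (t * Z.bl + i)) ((u - 2 ^ s) * Z.sl)
        (u * Z.sl) x y ↔ TB (vr Z.S (w.drop (t * Z.bl))) ((u - 2 ^ s) * Z.sl)
        (u * Z.sl) x y := by
      refine tb_congr fun i hi1 hi2 => ?_
      have hih : i < h := by omega
      obtain ⟨c', hc1', -⟩ := hv i hih
      rw [vr_drop hc1']
      exact vr_of hc1'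
    rw [hcongr]
    constructor
    · rintro ⟨-, -, h3⟩
      exact h3
    · intro h3
      exact ⟨by omega, hdv, h3⟩

private theorem treeA_edT {Z : PB A Q M} (hZ : Z.Ok) {w : List A} {t h : ℕ} {v : ℕ → Sy A}
    (hv : Z.Vw w (t * Z.bl) h v) {l : List Pc}
    (hval : ∀ p ∈ l, Val (fun _ => none : ℕ → Option Unit) Z.sl Z.K Z.mx h p)
    (hr : Pc.rnd ∉ l) (X Y : Nd Q) :
    (Z.edT h l X Y).eval v = true ↔
      CE (vr Z.S (w.drop (t * Z.bl))) Z.sl h l X Y := by
  unfold edT CE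
  constructor
  · intro hE
    cases hl : l[Pool.Agent.P0036f5k.Par.idx X]? with
    | none =>
      rw [hl] at hE
      simp [DT.eval] at hE
    | some p =>
      rw [hl] at hE
      simp only at hE
      split_ifs at hE with hc
      · obtain ⟨hi, hp⟩ := List.getElem?_eq_some_iff.1 hl
        have hmem : p ∈ l := by
          rw [← hp]
          exact List.getElem_mem hi
        rw [eval_pcT hZ hv (hval p hmem) (fun e => hr (e ▸ hmem))] at hE
        refine ⟨Pool.Agent.P0036f5k.Par.idx X, hi, X.2, Y.2, hc.1, hc.2, ?_⟩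
        rw [hp]
        exact hE
      · simp [DT.eval] at hE
  · rintro ⟨i, hi, x, y, rfl, rfl, hT⟩
    rw [idx_ent, List.getElem?_eq_getElem hi]
    simp only
    rw [if_pos ⟨rfl, rfl⟩]
    have hmem : l[i] ∈ l := List.getElem_mem hi
    rw [eval_pcT hZ hv (hval _ hmem) (fun e => hr (e ▸ hmem))]
    exact hT

theorem eval_lsT {Z : PB A Q M} (hZ : Z.Ok) {w : List A} {t h : ℕ} {v : ℕ → Sy A}
    (hv : Z.Vw w (t * Z.bl) h v) {l : List Pc} {lo hi : ℕ}
    (hl : Chn Z.sl h l lo hi)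
    (hval : ∀ p ∈ l, Val (fun _ => none : ℕ → Option Unit) Z.sl Z.K Z.mx h p)
    (hr : Pc.rnd ∉ l) (hlen : l.length ≤ LK 2 Z.mx Z.K) (x y : Bool × Q) :
    (Z.lsT h l x y).eval v = true ↔
      TB (vr Z.S (w.drop (t * Z.bl))) lo hi x y := by
  have hER : ER (Z.edT h l) v = CE (vr Z.S (w.drop (t * Z.bl))) Z.sl h l := by
    funext X Y
    exact propext (treeA_edT hZ hv hval hr X Y)
  have hreach : ∀ Y, ReflTransGen (ER (Z.edT h l) v) (ent 0 l.length x) Y →
      Y.1 ≤ l.length := by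
    intro Y hY
    rw [hER] at hY
    rcases hY.cases_tail with h0 | ⟨W, -, hW⟩
    · rw [h0]
      unfold ent
      split_ifs
      · exact Nat.zero_le _
      · exact le_rfl
    · obtain ⟨i, hi, x', y', -, rfl, -⟩ := hW
      unfold ext
      simp only
      split_ifs <;> omega
  unfold lsT
  rw [eval_pathT (Z.edT h l) (fun c => (c / Z.K, Z.ρ (c % Z.K))) ((l.length + 1) * Z.K) v
    ?_ ?_, hER, tb_chn' hl]
  · intro Y hY
    have hb := hreach Y hY
    have hπ := hZ.hπ Y.2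
    refine ⟨Y.1 * Z.K + Z.π Y.2, ?_, ?_⟩
    · calc Y.1 * Z.K + Z.π Y.2 < Y.1 * Z.K + Z.K := by omega
        _ = (Y.1 + 1) * Z.K := by ring
        _ ≤ (l.length + 1) * Z.K := Nat.mul_le_mul_right _ (by omega)
    · have h1 : (Y.1 * Z.K + Z.π Y.2) / Z.K = Y.1 := by
        rw [Nat.add_comm, Nat.add_mul_div_right _ _ hZ.hK, Nat.div_eq_of_lt hπ, Nat.zero_add]
      have h2 : (Y.1 * Z.K + Z.π Y.2) % Z.K = Z.π Y.2 := by
        rw [Nat.add_comm, Nat.add_mul_mod_self_right, Nat.mod_eq_of_lt hπ]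
      simp only [h1, h2, hZ.hρ]
  · refine le_trans ?_ hZ.hκ
    unfold VK
    exact Nat.mul_le_mul_right _ (by omega)

end PB

end Pool.Agent.P0036f5b
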