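import Pool.Agent.Lib.P0036f5b.Defs

/-!
# The witness machine with about `t m` marks

Letters: `s` (start of a block), `c` (start of an entry), `a`, `b` (unary numbers), `d β` (bits), `h`
(start of the test), `r` (start of a row of the test).  A block for the matrix
`F : {1, …, t} × {1, …, m} → Bool` is `s` followed by all entries `c a ^ j b ^ i d (F (j, i))`; the test for
`G` is `h` followed by the rows `r d (G (j, 1)) … d (G (j, m))`, `j = 1, …, t`.  The machine marks the
separator `s` of one block and every cell of the test (keeping the information about the letter), and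
accepts if `G` is the matrix of the marked block.  In every computation it changes at most
`t (m + 1) + 3` cells.

The last visited cell of the test is at the position `f`.  In the state `cj β j` the machine goes left
and counts the rows, `β` is the bit in the cell `f`; `lf β j`: on the way to the marked block; `se β j`:
looking for an entry; `ca β j`, `cb β i`: reading the entry; `rt i`, `rh i`: on the way back with the
column number `i`; at the next fresh cell `f + 1` (whose letter it keeps in the state) it goes left again
and checks that the column of the cell `f` is `i` (`vk β i`, or `vr i` if the fresh letter is `r`, or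
`ve i` at the right end-marker); then it counts the rows for the new cell (`cj β`), or checks that
there are at most `t` rows (`rw j`), or accepts (`fin`).
-/

set_option autoImplicit false

namespace Pool.Agent.P0036f5b

open Relation Pool.Agent.P0036f5v2

/-- input letters -/
inductive VA : Type
  | s
  | c
  | a
  | b
  | d (β : Bool)
  | h
  | r
  deriving DecidableEq

/-- marks -/
inductive VW : Type
  | ms
  | mr
  | md (β : Bool)
  deriving DecidableEq

/-- states -/
inductive VQ : Type
  | scan
  | mid
  | fr
  | fin
  | cj (β : Bool) (j : ℕ)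
  | lf (β : Bool) (j : ℕ)
  | se (β : Bool) (j : ℕ)
  | ca (β : Bool) (j : ℕ)
  | cb (β : Bool) (i : ℕ)
  | rt (i : ℕ)
  | rh (i : ℕ)
  | vk (β : Bool) (i : ℕ)
  | vr (i : ℕ)
  | ve (i : ℕ)
  | rw (j : ℕ)

/-- the letters of the blocks -/
def VA.blk : VA → Bool
  | .h => false
  | .r => false
  | _ => true

/-- first choice -/
def vtr1 (m t : ℕ) : VQ → Sym VA VW → Option (VQ × (VA ⊕ VW) × Bool)
  | .scan, .inp x => if x.blk = true then some (.scan, .inl x, true) else none
  | .mid, .inp x => if x.blk = true then some (.mid, .inl x, true)
      else if x = .h then some (.fr, .inl x, true) else none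
  | .fr, .wrk .ms => none
  | .fr, .wrk x => some (.fr, .inr x, true)
  | .fr, .inp (.d β) => some (.cj β 0, .inr (.md β), false)
  | .fr, .inp .r => some (.rw 1, .inr .mr, false)
  | .fr, .rend => some (.fin, .inl .s, true)
  | .cj β j, .wrk (.md β') => some (.cj β j, .inr (.md β'), false)
  | .cj β j, .wrk .mr => if j + 1 ≤ t then some (.cj β (j + 1), .inr .mr, false) else none
  | .cj β j, .inp .h => some (.lf β j, .inl .h, false)
  | .lf β j, .inp x => if x.blk = true then some (.lf β j, .inl x, false) else none
  | .lf β j, .wrk .ms => some (.se β j, .inr .ms, true)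
  | .se β j, .inp .c => some (.ca β j, .inl .c, true)
  | .se β j, .inp .a => some (.se β j, .inl .a, true)
  | .se β j, .inp .b => some (.se β j, .inl .b, true)
  | .se β j, .inp (.d β') => some (.se β j, .inl (.d β'), true)
  | .ca β (j + 1), .inp .a => some (.ca β j, .inl .a, true)
  | .ca β 0, .inp .b => some (.cb β 1, .inl .b, true)
  | .cb β i, .inp .b => if i + 1 ≤ m then some (.cb β (i + 1), .inl .b, true) else none
  | .cb β i, .inp (.d β') => if β' = β then some (.rt i, .inl (.d β'), true) else none
  | .rt i, .inp x => if x.blk = true then some (.rt i, .inl x, true)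
      else if x = .h then some (.rh i, .inl x, true) else none
  | .rh _, .wrk .ms => none
  | .rh i, .wrk x => some (.rh i, .inr x, true)
  | .rh i, .inp (.d β) => some (.vk β i, .inr (.md β), false)
  | .rh i, .inp .r => some (.vr i, .inr .mr, false)
  | .rh i, .rend => some (.ve i, .inl .s, false)
  | .vk β (i + 1), .wrk (.md β') => some (.vk β i, .inr (.md β'), false)
  | .vk β 0, .wrk .mr => some (.cj β 1, .inr .mr, false)
  | .vr (i + 1), .wrk (.md β') => some (.vr i, .inr (.md β'), false)
  | .vr 0, .wrk .mr => if 2 ≤ t then some (.rw 2, .inr .mr, false) else none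
  | .ve (i + 1), .wrk (.md β') => some (.ve i, .inr (.md β'), false)
  | .ve 0, .wrk .mr => some (.fin, .inr .mr, true)
  | .rw j, .wrk (.md β') => some (.rw j, .inr (.md β'), false)
  | .rw j, .wrk .mr => if j + 1 ≤ t then some (.rw (j + 1), .inr .mr, false) else none
  | .rw _, .inp .h => some (.fr, .inl .h, true)
  | .fin, .wrk .ms => none
  | .fin, .wrk x => some (.fin, .inr x, true)
  | .fin, .rend => some (.fin, .inl .s, true)
  | _, _ => none

/-- second choice -/
def vtr2 : VQ → Sym VA VW → Option (VQ × (VA ⊕ VW) × Bool)
  | .scan, .inp .s => some (.mid, .inr .ms, true)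
  | .se β j, .inp .c => some (.se β j, .inl .c, true)
  | _, _ => none

/-- the machine -/
@[reducible] def vm (m t : ℕ) : Mach VA where
  Q := VQ
  W := VW
  δ := fun q x => {y | vtr1 m t q x = some y ∨ vtr2 q x = some y}
  qI := .scan
  F := {.fin}

/-- the entry of the matrix `F` at `(j, i)` -/
def vE (F : ℕ → ℕ → Bool) (j i : ℕ) : List VA :=
  VA.c :: (List.replicate j VA.a ++ (List.replicate i VA.b ++ [VA.d (F j i)]))

/-- the block of the matrix `F`, with the entries for `1 ≤ j ≤ t`, `1 ≤ i ≤ m` -/
def vB (m t : ℕ) (F : ℕ → ℕ → Bool) : List VA :=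
  VA.s :: (List.range t).flatMap fun j => (List.range m).flatMap fun i => vE F (j + 1) (i + 1)

/-- the first part of the test words -/
def vX (m t : ℕ) (Fs : List (ℕ → ℕ → Bool)) : List VA := Fs.flatMap (vB m t)

/-- the second part of the test words -/
def vY (m t : ℕ) (G : ℕ → ℕ → Bool) : List VA :=
  VA.h :: (List.range t).flatMap fun j =>
    VA.r :: (List.range m).map fun i => VA.d (G (j + 1) (i + 1))

/-- `F` and `G` agree on `{1, …, t} × {1, …, m}` -/
def vEq (m t : ℕ) (F G : ℕ → ℕ → Bool) : Prop :=
  ∀ j i, 1 ≤ j → j ≤ t → 1 ≤ i → i ≤ m → F j i = G j i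

end Pool.Agent.P0036f5b
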