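import Pool.Agent.Lib.P0036f5b.WDefs

/-!
# B12b: accepted test words are correct

The input is `w = vX m t Fs ++ vY m t G`.  Tape positions: the block of `Fs[l]` starts at some `g_l`
(letter `s`), the letter `h` is at `H = (vX m t Fs).length + 1`; the row `j ∈ {1, …, t}` of the test starts
with `r` at `H + (j - 1) (m + 1) + 1`, and the bit `(j, i)` is at `P (j, i) = H + (j - 1) (m + 1) + 1 + i`.
After the block `l` has been marked, the test cells in `(H, f]` are marked.
The cycle for the cell `f = P (j, i)`, `β = G (j, i)`: `cj β j'` on the cells left of `f` with `j'` = number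
of `mr` already passed, then `lf β j` from `H - 1` down to `g_l`, `se β j` inside the block, `ca β`, `cb β` in
the entry `(j, i')` with `F (j, i') = β`, `rt i'`, `rh i'` to the fresh cell `f + 1`; there: `vk β' i'` if
`f + 1 = P (j, i + 1)`, `vr i'` if `i = m`, `j < t`, `ve i'` if `f` is the last cell; the number of marked
bits from `f` to the left up to the first `mr` is `i`, so `i' = i`.  After `vk`: `cj β' 1` at the `mr` of the
row `j`, the same cycle with `f + 1`; after `vr`: `rw` counts to `j + 1 ≤ t` and `fr` goes to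
`P (j + 1, 1)`; after `ve`: `fin`.

Invariant for all reachable configurations after the block `l` has been marked (`F = Fs[l]`): all test
cells before the cell under verification satisfy `F (j, i) = G (j, i)`; in the states `rt i'`, `rh i'`
(and `vk _ i''`, `vr i''`, `ve i''` with `i'' +` (number of cells already passed) `= i'`):
`F (j, i') = G (j, i)`, `1 ≤ i' ≤ m` for the cell `f = P (j, i)` (resp. `f - 1`).
Inside the block one needs where the head is: in `se`, `ca`, `cb` the head is in the block of `F`; `ca β j''`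
with the number of `a` already passed; `cb β i'` = number of `b` already passed in the current entry.
At the end (`fin`, entered from `ve` at the `mr` of the last row) all entries agree.
A convenient description: decompose `w` as `pre ++ vB m t F ++ post` and describe the position inside the
block by the entry and the offset in it.  Compare `P0036f5k/WitB1.lean` (helper42).
-/

set_option autoImplicit false

namespace Pool.Agent.P0036f5b

open Relation Pool.Agent.P0036f5v2 Pool.Agent.P0036f5w Pool.Agent.P0036f5g Pool.Agent.P0036f5k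
  Classical

namespace WitB1Aux

/-- the bit cells with index `< K` agree (the index of the bit `(j + 1, i)` is `j (m + 1) + i`) -/
def Ag (m t : ℕ) (F G : ℕ → ℕ → Bool) (K : ℕ) : Prop :=
  ∀ j i, j < t → 1 ≤ i → i ≤ m → j * (m + 1) + i < K → F (j + 1) i = G (j + 1) i

/-- the last marked cell is the bit `(j + 1, i)` -/
def Cur (m t K j i : ℕ) : Prop := j < t ∧ 1 ≤ i ∧ i ≤ m ∧ K = j * (m + 1) + i + 1

/-- the column `i'` fits to the bit `(j + 1, i)` -/
def Fit (m : ℕ) (F G : ℕ → ℕ → Bool) (j i i' : ℕ) : Prop :=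
  1 ≤ i' ∧ i' ≤ m ∧ F (j + 1) i' = G (j + 1) i

/-- an entry at the position `e` -/
def Ent (m t : ℕ) (F : ℕ → ℕ → Bool) (Z : ℕ) (T : ℕ → Sym VA VW) (e j i : ℕ) : Prop :=
  1 ≤ j ∧ j ≤ t ∧ 1 ≤ i ∧ i ≤ m ∧ (∀ u < j, T (e + 1 + u) = .inp .a) ∧
    (∀ u < i, T (e + 1 + j + u) = .inp .b) ∧ T (e + 1 + j + i) = .inp (.d (F j i)) ∧
    e + 1 + j + i < Z

/-- what is needed about the initial tape; `Z` is the position after the block -/
structure TF (m t A H Z : ℕ) (F G : ℕ → ℕ → Bool) (T : ℕ → Sym VA VW) : Prop where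
  hA : 1 ≤ A
  hAZ : A < Z
  hZH : Z ≤ H
  fH : T H = .inp .h
  fr : ∀ j < t, T (H + 1 + j * (m + 1)) = .inp .r
  fd : ∀ j < t, ∀ i, 1 ≤ i → i ≤ m → T (H + 1 + (j * (m + 1) + i)) = .inp (.d (G (j + 1) i))
  fe : T (H + 1 + t * (m + 1)) = .rend
  fb : ∀ p, A ≤ p → p < H → ∃ x, T p = .inp x ∧ x.blk = true
  fZ : T Z = .inp .s ∨ T Z = .inp .h
  fc : ∀ p, A < p → p < Z → T p = .inp .c → ∃ j i, Ent m t F Z T p j i

/-- the mark for a letter -/
def mk : Sym VA VW → VW
  | .inp .r => .mr
  | .inp (.d β) => .md β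
  | _ => .ms

/-- the tape with `K` marked test cells -/
def TK (A H : ℕ) (T : ℕ → Sym VA VW) (K p : ℕ) : Sym VA VW :=
  if p = A then .wrk .ms else if H < p ∧ p ≤ H + K then .wrk (mk (T p)) else T p

/-- the state part of the invariant -/
def St (m t A H Z : ℕ) (F G : ℕ → ℕ → Bool) (T : ℕ → Sym VA VW) (K : ℕ) : VQ → ℕ → Prop
  | .scan, _ => False
  | .mid, p => K = 0 ∧ A < p ∧ p ≤ H
  | .fr, p => Ag m t F G K ∧ H < p ∧ p ≤ H + K + 1
  | .fin, _ => K = t * (m + 1) ∧ Ag m t F G (t * (m + 1))
  | .cj β j, p => ∃ jj ii x q, Cur m t K jj ii ∧ Ag m t F G (jj * (m + 1) + ii) ∧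
      β = G (jj + 1) ii ∧ p = H + x ∧ x < K ∧ x ≤ q * (m + 1) ∧ q * (m + 1) < x + (m + 1) ∧
      j + q = jj + 1
  | .lf β j, p => ∃ jj ii, Cur m t K jj ii ∧ Ag m t F G (jj * (m + 1) + ii) ∧
      β = G (jj + 1) ii ∧ j = jj + 1 ∧ A ≤ p ∧ p < H
  | .se β j, p => ∃ jj ii, Cur m t K jj ii ∧ Ag m t F G (jj * (m + 1) + ii) ∧
      β = G (jj + 1) ii ∧ j = jj + 1 ∧ A < p ∧ p ≤ Z
  | .ca β j, p => ∃ jj ii e j1 i1 u, Cur m t K jj ii ∧ Ag m t F G (jj * (m + 1) + ii) ∧
      β = G (jj + 1) ii ∧ Ent m t F Z T e j1 i1 ∧ A < e ∧ j + u = jj + 1 ∧ u ≤ j1 ∧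
      p = e + 1 + u
  | .cb β i, p => ∃ jj ii e i1, Cur m t K jj ii ∧ Ag m t F G (jj * (m + 1) + ii) ∧
      β = G (jj + 1) ii ∧ Ent m t F Z T e (jj + 1) i1 ∧ A < e ∧ 1 ≤ i ∧ i ≤ i1 ∧
      p = e + 1 + (jj + 1) + i
  | .rt i, p => ∃ jj ii, Cur m t K jj ii ∧ Ag m t F G (jj * (m + 1) + ii) ∧
      Fit m F G jj ii i ∧ A < p ∧ p ≤ H
  | .rh i, p => ∃ jj ii, Cur m t K jj ii ∧ Ag m t F G (jj * (m + 1) + ii) ∧
      Fit m F G jj ii i ∧ H < p ∧ p ≤ H + K + 1
  | .vk β i, p => ∃ jj ii x, Cur m t K jj (ii + 1) ∧ 1 ≤ ii ∧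
      Ag m t F G (jj * (m + 1) + ii) ∧ β = G (jj + 1) (ii + 1) ∧
      p = H + 1 + (jj * (m + 1) + x) ∧ x ≤ ii ∧ Fit m F G jj ii (i + (ii - x))
  | .vr i, p => ∃ jj x, jj + 1 < t ∧ K = (jj + 1) * (m + 1) + 1 ∧
      Ag m t F G (jj * (m + 1) + m) ∧ p = H + 1 + (jj * (m + 1) + x) ∧ x ≤ m ∧
      Fit m F G jj m (i + (m - x))
  | .ve i, p => ∃ jj x, jj + 1 = t ∧ K = (jj + 1) * (m + 1) ∧
      Ag m t F G (jj * (m + 1) + m) ∧ p = H + 1 + (jj * (m + 1) + x) ∧ x ≤ m ∧
      Fit m F G jj m (i + (m - x))
  | .rw _, p => Ag m t F G K ∧ H ≤ p ∧ p < H + K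

/-- uniqueness of row and column -/
theorem uniq {m j i j' i' : ℕ} (hi : i ≤ m) (hi' : i' ≤ m)
    (h : j * (m + 1) + i = j' * (m + 1) + i') : j = j' ∧ i = i' := by
  have h1 : (j * (m + 1) + i) / (m + 1) = j := by
    rw [Nat.mul_comm, Nat.mul_add_div (by omega), Nat.div_eq_of_lt (by omega)]; omega
  have h2 : (j' * (m + 1) + i') / (m + 1) = j' := by
    rw [Nat.mul_comm, Nat.mul_add_div (by omega), Nat.div_eq_of_lt (by omega)]; omega
  have h3 : j = j' := by rw [← h1, ← h2, h]
  subst h3
  exact ⟨rfl, by omega⟩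

theorem Ag.snoc {m t : ℕ} {F G : ℕ → ℕ → Bool} {j i : ℕ} (hi : i ≤ m)
    (h : Ag m t F G (j * (m + 1) + i)) (h1 : F (j + 1) i = G (j + 1) i) :
    Ag m t F G (j * (m + 1) + i + 1) := by
  intro j' i' hj' h1' h2' hlt
  rcases Nat.lt_or_ge (j' * (m + 1) + i') (j * (m + 1) + i) with hc | hc
  · exact h j' i' hj' h1' h2' hc
  · obtain ⟨rfl, rfl⟩ := uniq h2' hi (show j' * (m + 1) + i' = j * (m + 1) + i by omega)
    exact h1

theorem Ag.row {m t : ℕ} {F G : ℕ → ℕ → Bool} {j : ℕ}
    (h : Ag m t F G (j * (m + 1))) : Ag m t F G (j * (m + 1) + 1) := by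
  intro j' i' hj' h1' h2' hlt
  rcases Nat.lt_or_ge (j' * (m + 1) + i') (j * (m + 1)) with hc | hc
  · exact h j' i' hj' h1' h2' hc
  · exfalso
    obtain ⟨-, h3⟩ := uniq (j := j') (i := i') (j' := j) (i' := 0) h2' (Nat.zero_le _)
      (show j' * (m + 1) + i' = j * (m + 1) + 0 by omega)
    omega

section

variable {m t A H Z K : ℕ} {F G : ℕ → ℕ → Bool} {T : ℕ → Sym VA VW}

theorem TF.cell (h : TF m t A H Z F G T) {k : ℕ} (hk : k < t * (m + 1)) :
    (∃ j, j < t ∧ k = j * (m + 1) ∧ T (H + 1 + k) = .inp .r) ∨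
    ∃ j i, j < t ∧ 1 ≤ i ∧ i ≤ m ∧ k = j * (m + 1) + i ∧
      T (H + 1 + k) = .inp (.d (G (j + 1) i)) := by
  have hj : k / (m + 1) < t := by
    rw [Nat.div_lt_iff_lt_mul (by omega)]; exact hk
  have hdm := Nat.div_add_mod k (m + 1)
  rw [Nat.mul_comm] at hdm
  have hmod : k % (m + 1) < m + 1 := Nat.mod_lt _ (by omega)
  rcases Nat.eq_zero_or_pos (k % (m + 1)) with h2 | h2
  · left
    have e : k = k / (m + 1) * (m + 1) := by omega
    refine ⟨_, hj, e, ?_⟩
    have := h.fr _ hj
    rw [← e] at this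
    exact this
  · right
    refine ⟨_, _, hj, h2, by omega, hdm.symm, ?_⟩
    have := h.fd _ hj _ h2 (by omega)
    rw [hdm] at this
    exact this

theorem tk_A : TK A H T K A = .wrk .ms := by simp [TK]

theorem tk_low {p : ℕ} (h1 : p ≠ A) (h2 : p ≤ H) : TK A H T K p = T p := by
  unfold TK
  rw [if_neg h1, if_neg (by omega)]

theorem tk_mark {p : ℕ} (hA : A ≤ H) (h1 : H < p) (h2 : p ≤ H + K) :
    TK A H T K p = .wrk (mk (T p)) := by
  unfold TK
  rw [if_neg (by omega), if_pos ⟨h1, h2⟩]

theorem tk_high {p : ℕ} (hA : A ≤ H) (h1 : H + K < p) : TK A H T K p = T p := by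
  unfold TK
  rw [if_neg (by omega), if_neg (by omega)]

/-- what one step gives -/
def Out (m t A H Z : ℕ) (F G : ℕ → ℕ → Bool) (T : ℕ → Sym VA VW) (K p : ℕ) (q' : VQ)
    (x : VA ⊕ VW) (d : Bool) : Prop :=
  ((Sym.ofW x = TK A H T K p ∨ TK A H T K p = .rend) ∧ (p ≤ H + K ∨ H + t * (m + 1) < p) ∧
      St m t A H Z F G T K q' (if d = true then p + 1 else p - 1)) ∨
    (p = H + 1 + K ∧ K < t * (m + 1) ∧ Sym.ofW x = .wrk (mk (T p)) ∧
      St m t A H Z F G T (K + 1) q' (if d = true then p + 1 else p - 1))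

theorem TF.marked (h : TF m t A H Z F G T) {k : ℕ} (hk : k < K) (hK : K ≤ t * (m + 1)) :
    (∃ j, j < t ∧ k = j * (m + 1) ∧ TK A H T K (H + 1 + k) = .wrk .mr) ∨
    ∃ j i, j < t ∧ 1 ≤ i ∧ i ≤ m ∧ k = j * (m + 1) + i ∧
      TK A H T K (H + 1 + k) = .wrk (.md (G (j + 1) i)) := by
  have hAH : A ≤ H := by have := h.hAZ; have := h.hZH; omega
  rw [tk_mark hAH (by omega) (by omega)]
  rcases h.cell (lt_of_lt_of_le hk hK) with ⟨j, h1, h2, h3⟩ | ⟨j, i, h1, h2, h3, h4, h5⟩
  · left
    exact ⟨j, h1, h2, by rw [h3]; rfl⟩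
  · right
    exact ⟨j, i, h1, h2, h3, h4, by rw [h5]; rfl⟩

theorem cur_le {jj ii : ℕ} (h : Cur m t K jj ii) : K ≤ t * (m + 1) := by
  obtain ⟨h1, h2, h3, h4⟩ := h
  have : (jj + 1) * (m + 1) ≤ t * (m + 1) := Nat.mul_le_mul_right _ h1
  rw [Nat.succ_mul] at this
  omega

theorem step_mid (h : TF m t A H Z F G T) {p : ℕ} {q' : VQ} {x : VA ⊕ VW} {d : Bool}
    (hst : St m t A H Z F G T K .mid p)
    (htr : vtr1 m t .mid (TK A H T K p) = some (q', x, d)) :
    Out m t A H Z F G T K p q' x d := by
  obtain ⟨h1, h2, h3⟩ := hst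
  have hAH : A < H := by have := h.hAZ; have := h.hZH; omega
  subst h1
  have e : TK A H T 0 p = T p := tk_low (by omega) h3
  left
  rcases Nat.lt_or_ge p H with hp | hp
  · obtain ⟨y, hy, hb⟩ := h.fb p (by omega) hp
    rw [e, hy] at htr
    simp only [vtr1, if_pos hb, Option.some.injEq, Prod.mk.injEq] at htr
    obtain ⟨rfl, rfl, rfl⟩ := htr
    refine ⟨Or.inl (by rw [e, hy]; rfl), by omega, ?_⟩
    simp only [St, if_true]
    exact ⟨trivial, by omega, by omega⟩
  · have hpe : p = H := by omega
    subst hpe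
    rw [e, h.fH] at htr
    simp only [vtr1, VA.blk, Bool.false_eq_true, if_false, if_true, Option.some.injEq,
      Prod.mk.injEq] at htr
    obtain ⟨rfl, rfl, rfl⟩ := htr
    refine ⟨Or.inl (by rw [e, h.fH]; rfl), by omega, ?_⟩
    simp only [St, if_true]
    exact ⟨fun j i _ _ _ hlt => absurd hlt (Nat.not_lt_zero _), by omega, by omega⟩

theorem step_fr (h : TF m t A H Z F G T) (hK : K ≤ t * (m + 1)) {p : ℕ} {q' : VQ}
    {x : VA ⊕ VW} {d : Bool} (hst : St m t A H Z F G T K .fr p)
    (htr : vtr1 m t .fr (TK A H T K p) = some (q', x, d)) :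
    Out m t A H Z F G T K p q' x d := by
  obtain ⟨h1, h2, h3⟩ := hst
  have hAH : A < H := by have := h.hAZ; have := h.hZH; omega
  rcases Nat.lt_or_ge (H + K) p with hp | hp
  · have hpe : p = H + 1 + K := by omega
    have e : TK A H T K p = T p := tk_high hAH.le hp
    rcases Nat.eq_or_lt_of_le hK with hK' | hK'
    · left
      have hT : T p = .rend := by rw [hpe, hK']; exact h.fe
      rw [e, hT] at htr
      simp only [vtr1, Option.some.injEq, Prod.mk.injEq] at htr
      obtain ⟨rfl, rfl, rfl⟩ := htr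
      refine ⟨Or.inr (by rw [e, hT]), by omega, ?_⟩
      simp only [St]
      rw [← hK']
      exact ⟨rfl, h1⟩
    · right
      rcases h.cell hK' with ⟨j, c1, c2, c3⟩ | ⟨j, i, c1, c2, c3, c4, c5⟩
      · rw [← hpe] at c3
        rw [e, c3] at htr
        simp only [vtr1, Option.some.injEq, Prod.mk.injEq] at htr
        obtain ⟨rfl, rfl, rfl⟩ := htr
        refine ⟨hpe, hK', by rw [c3]; rfl, ?_⟩
        simp only [St, Bool.false_eq_true, if_false]
        refine ⟨?_, by omega, by omega⟩
        rw [c2] at h1 ⊢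
        exact h1.row
      · rw [← hpe] at c5
        rw [e, c5] at htr
        simp only [vtr1, Option.some.injEq, Prod.mk.injEq] at htr
        obtain ⟨rfl, rfl, rfl⟩ := htr
        refine ⟨hpe, hK', by rw [c5]; rfl, ?_⟩
        simp only [St, Bool.false_eq_true, if_false]
        refine ⟨j, i, K, j + 1, ⟨c1, c2, c3, by omega⟩, by rw [← c4]; exact h1, rfl,
          by omega, by omega, ?_, ?_, by omega⟩
        · rw [Nat.succ_mul]; omega
        · rw [Nat.succ_mul]; omega
  · left
    obtain ⟨k, rfl⟩ : ∃ k, p = H + 1 + k := ⟨p - (H + 1), by omega⟩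
    rcases h.marked (K := K) (k := k) (by omega) hK with ⟨j, c1, c2, c3⟩ | ⟨j, i, c1, c2, c3, c4, c5⟩
    · rw [c3] at htr
      simp only [vtr1, Option.some.injEq, Prod.mk.injEq] at htr
      obtain ⟨rfl, rfl, rfl⟩ := htr
      refine ⟨Or.inl (by rw [c3]; rfl), by omega, ?_⟩
      simp only [St, if_true]
      exact ⟨h1, by omega, by omega⟩
    · rw [c5] at htr
      simp only [vtr1, Option.some.injEq, Prod.mk.injEq] at htr
      obtain ⟨rfl, rfl, rfl⟩ := htr
      refine ⟨Or.inl (by rw [c5]; rfl), by omega, ?_⟩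
      simp only [St, if_true]
      exact ⟨h1, by omega, by omega⟩

theorem step_fin {p : ℕ} {q' : VQ}
    {x : VA ⊕ VW} {d : Bool} (hst : St m t A H Z F G T K .fin p)
    (htr : vtr1 m t .fin (TK A H T K p) = some (q', x, d)) :
    Out m t A H Z F G T K p q' x d := by
  left
  generalize hs : TK A H T K p = s at htr
  cases s with
  | inp y => simp [vtr1] at htr
  | wrk u =>
    cases u with
    | ms => simp [vtr1] at htr
    | mr =>
      simp only [vtr1, Option.some.injEq, Prod.mk.injEq] at htr
      obtain ⟨rfl, rfl, rfl⟩ := htr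
      exact ⟨Or.inl rfl, by have := hst.1; omega, hst⟩
    | md β =>
      simp only [vtr1, Option.some.injEq, Prod.mk.injEq] at htr
      obtain ⟨rfl, rfl, rfl⟩ := htr
      exact ⟨Or.inl rfl, by have := hst.1; omega, hst⟩
  | lend => simp [vtr1] at htr
  | rend =>
    simp only [vtr1, Option.some.injEq, Prod.mk.injEq] at htr
    obtain ⟨rfl, rfl, rfl⟩ := htr
    exact ⟨Or.inr rfl, by have := hst.1; omega, hst⟩

theorem step_cj (h : TF m t A H Z F G T) {p : ℕ} {β : Bool} {j : ℕ} {q' : VQ}
    {x : VA ⊕ VW} {d : Bool} (hst : St m t A H Z F G T K (.cj β j) p)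
    (htr : vtr1 m t (.cj β j) (TK A H T K p) = some (q', x, d)) :
    Out m t A H Z F G T K p q' x d := by
  obtain ⟨jj, ii, y, q, h1, h2, h3, h4, h5, h6, h7, h8⟩ := hst
  have hAH : A < H := by have := h.hAZ; have := h.hZH; omega
  have hK := cur_le h1
  left
  rcases Nat.eq_zero_or_pos y with hy | hy
  · subst hy
    have hpe : p = H := by omega
    subst hpe
    have e : TK A p T K p = T p := tk_low (by omega) le_rfl
    rw [e, h.fH] at htr
    simp only [vtr1, Option.some.injEq, Prod.mk.injEq] at htr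
    obtain ⟨rfl, rfl, rfl⟩ := htr
    refine ⟨Or.inl (by rw [e, h.fH]; rfl), by omega, ?_⟩
    simp only [St, Bool.false_eq_true, if_false]
    have hq : q = 0 := by
      by_contra hq
      have : 1 * (m + 1) ≤ q * (m + 1) := Nat.mul_le_mul_right _ (by omega)
      omega
    refine ⟨jj, ii, h1, h2, h3, by omega, by omega, by omega⟩
  · obtain ⟨k, rfl⟩ : ∃ k, y = k + 1 := ⟨y - 1, by omega⟩
    have hpe : p = H + 1 + k := by omega
    subst hpe
    rcases h.marked (K := K) (k := k) (by omega) hK with ⟨j2, c1, c2, c3⟩ |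
      ⟨j2, i2, c1, c2, c3, c4, c5⟩
    · rw [c3] at htr
      simp only [vtr1] at htr
      split_ifs at htr with hj
      simp only [Option.some.injEq, Prod.mk.injEq] at htr
      obtain ⟨rfl, rfl, rfl⟩ := htr
      refine ⟨Or.inl (by rw [c3]; rfl), by omega, ?_⟩
      simp only [St, Bool.false_eq_true, if_false]
      have hq1 : j2 < q := by
        refine lt_of_mul_lt_mul_right (a := m + 1) ?_ (Nat.zero_le _)
        omega
      have hq2 : q < j2 + 2 := by
        refine lt_of_mul_lt_mul_right (a := m + 1) ?_ (Nat.zero_le _)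
        rw [Nat.add_mul]
        omega
      refine ⟨jj, ii, k, j2, h1, h2, h3, by omega, by omega, by omega, by omega, by omega⟩
    · rw [c5] at htr
      simp only [vtr1, Option.some.injEq, Prod.mk.injEq] at htr
      obtain ⟨rfl, rfl, rfl⟩ := htr
      refine ⟨Or.inl (by rw [c5]; rfl), by omega, ?_⟩
      simp only [St, Bool.false_eq_true, if_false]
      refine ⟨jj, ii, k, q, h1, h2, h3, by omega, by omega, by omega, ?_, by omega⟩
      by_contra hc
      have e1 : q * (m + 1) = j2 * (m + 1) + i2 + (m + 1) := by omega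
      have hq : 0 < q := by
        rcases Nat.eq_zero_or_pos q with h0 | h0
        · rw [h0, Nat.zero_mul] at e1; omega
        · exact h0
      obtain ⟨q1, rfl⟩ : ∃ q1, q = q1 + 1 := ⟨q - 1, by omega⟩
      rw [Nat.succ_mul] at e1
      obtain ⟨-, h9⟩ := uniq (j := q1) (i := 0) (j' := j2) (i' := i2) (Nat.zero_le _) c3
        (by omega)
      omega

theorem step_lf (h : TF m t A H Z F G T) {p : ℕ} {β : Bool} {j : ℕ} {q' : VQ}
    {x : VA ⊕ VW} {d : Bool} (hst : St m t A H Z F G T K (.lf β j) p)
    (htr : vtr1 m t (.lf β j) (TK A H T K p) = some (q', x, d)) :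
    Out m t A H Z F G T K p q' x d := by
  obtain ⟨jj, ii, h1, h2, h3, h4, h5, h6⟩ := hst
  have hAZ := h.hAZ
  left
  rcases Nat.eq_or_lt_of_le h5 with hp | hp
  · subst hp
    rw [tk_A] at htr
    simp only [vtr1, Option.some.injEq, Prod.mk.injEq] at htr
    obtain ⟨rfl, rfl, rfl⟩ := htr
    refine ⟨Or.inl (by rw [tk_A]; rfl), by omega, ?_⟩
    simp only [St, if_true]
    exact ⟨jj, ii, h1, h2, h3, h4, by omega, by omega⟩
  · obtain ⟨y, hy, hb⟩ := h.fb p (by omega) h6
    have e : TK A H T K p = T p := tk_low (by omega) h6.le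
    rw [e, hy] at htr
    simp only [vtr1, if_pos hb, Option.some.injEq, Prod.mk.injEq] at htr
    obtain ⟨rfl, rfl, rfl⟩ := htr
    refine ⟨Or.inl (by rw [e, hy]; rfl), by omega, ?_⟩
    simp only [St, Bool.false_eq_true, if_false]
    exact ⟨jj, ii, h1, h2, h3, h4, by omega, by omega⟩

theorem step_se (h : TF m t A H Z F G T) {p : ℕ} {β : Bool} {j : ℕ} {q' : VQ}
    {x : VA ⊕ VW} {d : Bool} (hst : St m t A H Z F G T K (.se β j) p)
    (htr : vtr1 m t (.se β j) (TK A H T K p) = some (q', x, d) ∨
      vtr2 (.se β j) (TK A H T K p) = some (q', x, d)) :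
    Out m t A H Z F G T K p q' x d := by
  obtain ⟨jj, ii, h1, h2, h3, h4, h5, h6⟩ := hst
  have hAZ := h.hAZ
  have hZH := h.hZH
  have e : TK A H T K p = T p := tk_low (by omega) (by omega)
  left
  rcases Nat.eq_or_lt_of_le h6 with hp | hp
  · exfalso
    subst hp
    rcases h.fZ with hz | hz
    · rw [e, hz] at htr
      simp [vtr1, vtr2] at htr
    · rw [e, hz] at htr
      simp [vtr1, vtr2] at htr
  · have key : ∀ y : VA, T p = .inp y → q' = .se β j → x = .inl y → d = true →
        ((Sym.ofW x = TK A H T K p ∨ TK A H T K p = .rend) ∧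
        (p ≤ H + K ∨ H + t * (m + 1) < p) ∧
        St m t A H Z F G T K q' (if d = true then p + 1 else p - 1)) := by
      rintro y hy rfl rfl rfl
      refine ⟨Or.inl (by rw [e, hy]; rfl), by omega, ?_⟩
      simp only [St, if_true]
      exact ⟨jj, ii, h1, h2, h3, h4, by omega, by omega⟩
    obtain ⟨y, hy, hb⟩ := h.fb p (by omega) (by omega)
    rw [e, hy] at htr
    cases y with
    | s => simp [vtr1, vtr2] at htr
    | h => simp [vtr1, vtr2] at htr
    | r => simp [vtr1, vtr2] at htr
    | a =>
      simp only [vtr1, vtr2, Option.some.injEq, Prod.mk.injEq, reduceCtorEq, or_false] at htr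
      exact key _ hy htr.1.symm htr.2.1.symm htr.2.2.symm
    | b =>
      simp only [vtr1, vtr2, Option.some.injEq, Prod.mk.injEq, reduceCtorEq, or_false] at htr
      exact key _ hy htr.1.symm htr.2.1.symm htr.2.2.symm
    | d γ =>
      simp only [vtr1, vtr2, Option.some.injEq, Prod.mk.injEq, reduceCtorEq, or_false] at htr
      exact key _ hy htr.1.symm htr.2.1.symm htr.2.2.symm
    | c =>
      simp only [vtr1, vtr2, Option.some.injEq, Prod.mk.injEq] at htr
      rcases htr with ⟨rfl, rfl, rfl⟩ | ⟨rfl, rfl, rfl⟩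
      · obtain ⟨j1, i1, hE⟩ := h.fc p h5 hp hy
        refine ⟨Or.inl (by rw [e, hy]; rfl), by omega, ?_⟩
        simp only [St, if_true]
        exact ⟨jj, ii, p, j1, i1, 0, h1, h2, h3, hE, h5, by omega, Nat.zero_le _, by omega⟩
      · exact key _ hy rfl rfl rfl

theorem step_ca (h : TF m t A H Z F G T) {p : ℕ} {β : Bool} {j : ℕ} {q' : VQ}
    {x : VA ⊕ VW} {d : Bool} (hst : St m t A H Z F G T K (.ca β j) p)
    (htr : vtr1 m t (.ca β j) (TK A H T K p) = some (q', x, d)) :
    Out m t A H Z F G T K p q' x d := by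
  obtain ⟨jj, ii, e, j1, i1, u, h1, h2, h3, hE, h4, h5, h6, h7⟩ := hst
  obtain ⟨e1, e2, e3, e4, e5, e6, e7, e8⟩ := id hE
  have hAZ := h.hAZ
  have hZH := h.hZH
  have hp : p < Z := by omega
  have e : TK A H T K p = T p := tk_low (by omega) (by omega)
  left
  rcases Nat.eq_or_lt_of_le h6 with hu | hu
  · subst hu
    have hT : T p = .inp .b := by
      have := e6 0 (by omega)
      rw [Nat.add_zero, ← h7] at this
      exact this
    rw [e, hT] at htr
    cases j with
    | zero =>
      simp only [vtr1, Option.some.injEq, Prod.mk.injEq] at htr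
      obtain ⟨rfl, rfl, rfl⟩ := htr
      refine ⟨Or.inl (by rw [e, hT]; rfl), by omega, ?_⟩
      simp only [St, if_true]
      have hj : u = jj + 1 := by omega
      subst hj
      exact ⟨jj, ii, _, i1, h1, h2, h3, hE, h4, le_rfl, e3, by omega⟩
    | succ j => simp [vtr1] at htr
  · have hT : T p = .inp .a := by
      have := e5 u hu
      rw [← h7] at this
      exact this
    rw [e, hT] at htr
    cases j with
    | zero => simp [vtr1] at htr
    | succ j =>
      simp only [vtr1, Option.some.injEq, Prod.mk.injEq] at htr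
      obtain ⟨rfl, rfl, rfl⟩ := htr
      refine ⟨Or.inl (by rw [e, hT]; rfl), by omega, ?_⟩
      simp only [St, if_true]
      exact ⟨jj, ii, _, j1, i1, u + 1, h1, h2, h3, hE, h4, by omega, by omega, by omega⟩

theorem step_cb (h : TF m t A H Z F G T) {p : ℕ} {β : Bool} {i : ℕ} {q' : VQ}
    {x : VA ⊕ VW} {d : Bool} (hst : St m t A H Z F G T K (.cb β i) p)
    (htr : vtr1 m t (.cb β i) (TK A H T K p) = some (q', x, d)) :
    Out m t A H Z F G T K p q' x d := by
  obtain ⟨jj, ii, e, i1, h1, h2, h3, hE, h4, h5, h6, h7⟩ := hst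
  obtain ⟨e1, e2, e3, e4, e5, e6, e7, e8⟩ := id hE
  have hAZ := h.hAZ
  have hZH := h.hZH
  have hp : p < Z := by omega
  have e : TK A H T K p = T p := tk_low (by omega) (by omega)
  left
  rcases Nat.eq_or_lt_of_le h6 with hu | hu
  · subst hu
    have hT : T p = .inp (.d (F (jj + 1) i)) := by
      rw [← h7] at e7
      exact e7
    rw [e, hT] at htr
    simp only [vtr1] at htr
    split_ifs at htr with hb
    simp only [Option.some.injEq, Prod.mk.injEq] at htr
    obtain ⟨rfl, rfl, rfl⟩ := htr
    refine ⟨Or.inl (by rw [e, hT]; rfl), by omega, ?_⟩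
    simp only [St, if_true]
    exact ⟨jj, ii, h1, h2, ⟨h5, e4, by rw [hb, h3]⟩, by omega, by omega⟩
  · have hT : T p = .inp .b := by
      have := e6 i hu
      rw [← h7] at this
      exact this
    rw [e, hT] at htr
    simp only [vtr1] at htr
    split_ifs at htr with hb
    simp only [Option.some.injEq, Prod.mk.injEq] at htr
    obtain ⟨rfl, rfl, rfl⟩ := htr
    refine ⟨Or.inl (by rw [e, hT]; rfl), by omega, ?_⟩
    simp only [St, if_true]
    exact ⟨jj, ii, _, i1, h1, h2, h3, hE, h4, by omega, by omega, by omega⟩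

theorem step_rt (h : TF m t A H Z F G T) {p : ℕ} {i : ℕ} {q' : VQ}
    {x : VA ⊕ VW} {d : Bool} (hst : St m t A H Z F G T K (.rt i) p)
    (htr : vtr1 m t (.rt i) (TK A H T K p) = some (q', x, d)) :
    Out m t A H Z F G T K p q' x d := by
  obtain ⟨jj, ii, h1, h2, h3, h4, h5⟩ := hst
  have hAH : A < H := by have := h.hAZ; have := h.hZH; omega
  have e : TK A H T K p = T p := tk_low (by omega) h5
  left
  rcases Nat.lt_or_ge p H with hp | hp
  · obtain ⟨y, hy, hb⟩ := h.fb p (by omega) hp
    rw [e, hy] at htr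
    simp only [vtr1, if_pos hb, Option.some.injEq, Prod.mk.injEq] at htr
    obtain ⟨rfl, rfl, rfl⟩ := htr
    refine ⟨Or.inl (by rw [e, hy]; rfl), by omega, ?_⟩
    simp only [St, if_true]
    exact ⟨jj, ii, h1, h2, h3, by omega, by omega⟩
  · have hpe : p = H := by omega
    subst hpe
    rw [e, h.fH] at htr
    simp only [vtr1, VA.blk, Bool.false_eq_true, if_false, if_true, Option.some.injEq,
      Prod.mk.injEq] at htr
    obtain ⟨rfl, rfl, rfl⟩ := htr
    refine ⟨Or.inl (by rw [e, h.fH]; rfl), by omega, ?_⟩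
    simp only [St, if_true]
    exact ⟨jj, ii, h1, h2, h3, by omega, by omega⟩

theorem step_rh (h : TF m t A H Z F G T) {p : ℕ} {i : ℕ} {q' : VQ}
    {x : VA ⊕ VW} {d : Bool} (hst : St m t A H Z F G T K (.rh i) p)
    (htr : vtr1 m t (.rh i) (TK A H T K p) = some (q', x, d)) :
    Out m t A H Z F G T K p q' x d := by
  obtain ⟨jj, ii, h1, h2, h3, h4, h5⟩ := hst
  have hAH : A < H := by have := h.hAZ; have := h.hZH; omega
  have hK := cur_le h1
  obtain ⟨k1, k2, k3, k4⟩ := id h1
  rcases Nat.lt_or_ge (H + K) p with hp | hp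
  · have hpe : p = H + 1 + K := by omega
    have e : TK A H T K p = T p := tk_high hAH.le hp
    rcases Nat.eq_or_lt_of_le hK with hK' | hK'
    · left
      have hT : T p = .rend := by rw [hpe, hK']; exact h.fe
      rw [e, hT] at htr
      simp only [vtr1, Option.some.injEq, Prod.mk.injEq] at htr
      obtain ⟨rfl, rfl, rfl⟩ := htr
      refine ⟨Or.inr (by rw [e, hT]), by omega, ?_⟩
      simp only [St, Bool.false_eq_true, if_false]
      have hii : ii = m := by
        by_contra hne
        obtain ⟨-, h9⟩ := uniq (m := m) (j := jj) (i := ii + 1) (j' := t) (i' := 0) (by omega)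
          (Nat.zero_le _) (by omega)
        omega
      subst hii
      have e1 : (jj + 1) * (ii + 1) = t * (ii + 1) := by rw [Nat.succ_mul]; omega
      have hjj : jj + 1 = t := Nat.eq_of_mul_eq_mul_right (by omega) e1
      refine ⟨jj, ii, hjj, by rw [hK', e1], h2, ?_, le_rfl, ?_⟩
      · omega
      · rw [Nat.sub_self, Nat.add_zero]; exact h3
    · right
      rcases h.cell hK' with ⟨j, c1, c2, c3⟩ | ⟨j, i', c1, c2, c3, c4, c5⟩
      · rw [← hpe] at c3
        rw [e, c3] at htr
        simp only [vtr1, Option.some.injEq, Prod.mk.injEq] at htr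
        obtain ⟨rfl, rfl, rfl⟩ := htr
        refine ⟨hpe, hK', by rw [c3]; rfl, ?_⟩
        simp only [St, Bool.false_eq_true, if_false]
        have hii : ii = m := by
          by_contra hne
          obtain ⟨-, h9⟩ := uniq (m := m) (j := jj) (i := ii + 1) (j' := j) (i' := 0) (by omega)
            (Nat.zero_le _) (by omega)
          omega
        subst hii
        have e1 : (jj + 1) * (ii + 1) = j * (ii + 1) := by rw [Nat.succ_mul]; omega
        have hjj : jj + 1 = j := Nat.eq_of_mul_eq_mul_right (by omega) e1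
        refine ⟨jj, ii, by omega, by rw [e1, c2], h2, ?_, le_rfl, ?_⟩
        · omega
        · rw [Nat.sub_self, Nat.add_zero]; exact h3
      · rw [← hpe] at c5
        rw [e, c5] at htr
        simp only [vtr1, Option.some.injEq, Prod.mk.injEq] at htr
        obtain ⟨rfl, rfl, rfl⟩ := htr
        refine ⟨hpe, hK', by rw [c5]; rfl, ?_⟩
        simp only [St, Bool.false_eq_true, if_false]
        have hii : ii ≠ m := by
          rintro rfl
          obtain ⟨-, h9⟩ := uniq (m := ii) (j := jj + 1) (i := 0) (j' := j) (i' := i')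
            (Nat.zero_le _) c3 (by rw [Nat.succ_mul]; omega)
          omega
        obtain ⟨rfl, rfl⟩ := uniq (m := m) (j := jj) (i := ii + 1) (j' := j) (i' := i')
          (by omega) c3 (by omega)
        refine ⟨jj, ii, ii, ⟨c1, c2, c3, by omega⟩, k2, h2, rfl, by omega, le_rfl, ?_⟩
        rw [Nat.sub_self, Nat.add_zero]; exact h3
  · left
    obtain ⟨k, rfl⟩ : ∃ k, p = H + 1 + k := ⟨p - (H + 1), by omega⟩
    rcases h.marked (K := K) (k := k) (by omega) hK with ⟨j, c1, c2, c3⟩ |
      ⟨j, i, c1, c2, c3, c4, c5⟩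
    · rw [c3] at htr
      simp only [vtr1, Option.some.injEq, Prod.mk.injEq] at htr
      obtain ⟨rfl, rfl, rfl⟩ := htr
      refine ⟨Or.inl (by rw [c3]; rfl), by omega, ?_⟩
      simp only [St, if_true]
      exact ⟨jj, ii, h1, h2, h3, by omega, by omega⟩
    · rw [c5] at htr
      simp only [vtr1, Option.some.injEq, Prod.mk.injEq] at htr
      obtain ⟨rfl, rfl, rfl⟩ := htr
      refine ⟨Or.inl (by rw [c5]; rfl), by omega, ?_⟩
      simp only [St, if_true]
      exact ⟨jj, ii, h1, h2, h3, by omega, by omega⟩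

theorem step_vk (h : TF m t A H Z F G T) {p : ℕ} {β : Bool} {i : ℕ} {q' : VQ}
    {x : VA ⊕ VW} {d : Bool} (hst : St m t A H Z F G T K (.vk β i) p)
    (htr : vtr1 m t (.vk β i) (TK A H T K p) = some (q', x, d)) :
    Out m t A H Z F G T K p q' x d := by
  obtain ⟨jj, ii, y, h1, h2, h3, h4, h5, h6, h7⟩ := hst
  have hK := cur_le h1
  obtain ⟨k1, k2, k3, k4⟩ := id h1
  left
  subst h5
  rcases h.marked (K := K) (k := jj * (m + 1) + y) (by omega) hK with ⟨j, c1, c2, c3⟩ |
    ⟨j, i2, c1, c2, c3, c4, c5⟩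
  · obtain ⟨-, hy⟩ := uniq (m := m) (j := jj) (i := y) (j' := j) (i' := 0) (by omega)
      (Nat.zero_le _) (by omega)
    subst hy
    rw [c3] at htr
    cases i with
    | zero =>
      simp only [vtr1, Option.some.injEq, Prod.mk.injEq] at htr
      obtain ⟨rfl, rfl, rfl⟩ := htr
      refine ⟨Or.inl (by rw [c3]; rfl), by omega, ?_⟩
      simp only [St, Bool.false_eq_true, if_false]
      rw [Nat.sub_zero, Nat.zero_add] at h7
      refine ⟨jj, ii + 1, jj * (m + 1), jj, h1, ?_, h4, by omega, by omega, le_rfl, by omega,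
        by omega⟩
      exact h3.snoc (by omega) h7.2.2
    | succ i => simp [vtr1] at htr
  · obtain ⟨-, hy⟩ := uniq (m := m) (j := jj) (i := y) (j' := j) (i' := i2) (by omega)
      c3 (by omega)
    rw [c5] at htr
    cases i with
    | zero => simp [vtr1] at htr
    | succ i =>
      simp only [vtr1, Option.some.injEq, Prod.mk.injEq] at htr
      obtain ⟨rfl, rfl, rfl⟩ := htr
      refine ⟨Or.inl (by rw [c5]; rfl), by omega, ?_⟩
      simp only [St, Bool.false_eq_true, if_false]
      have e1 : i + (ii - (y - 1)) = i + 1 + (ii - y) := by omega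
      exact ⟨jj, ii, y - 1, h1, h2, h3, h4, by omega, by omega, by rw [e1]; exact h7⟩

theorem step_vr (h : TF m t A H Z F G T) {p : ℕ} {i : ℕ} {q' : VQ}
    {x : VA ⊕ VW} {d : Bool} (hK : K ≤ t * (m + 1)) (hst : St m t A H Z F G T K (.vr i) p)
    (htr : vtr1 m t (.vr i) (TK A H T K p) = some (q', x, d)) :
    Out m t A H Z F G T K p q' x d := by
  obtain ⟨jj, y, h1, h2, h3, h4, h5, h6⟩ := hst
  left
  subst h4
  have h2' := h2
  rw [Nat.succ_mul] at h2'
  rcases h.marked (K := K) (k := jj * (m + 1) + y) (by omega) hK with ⟨j, c1, c2, c3⟩ |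
    ⟨j, i2, c1, c2, c3, c4, c5⟩
  · obtain ⟨-, hy⟩ := uniq (m := m) (j := jj) (i := y) (j' := j) (i' := 0) (by omega)
      (Nat.zero_le _) (by omega)
    subst hy
    rw [c3] at htr
    cases i with
    | zero =>
      simp only [vtr1] at htr
      split_ifs at htr with ht
      simp only [Option.some.injEq, Prod.mk.injEq] at htr
      obtain ⟨rfl, rfl, rfl⟩ := htr
      refine ⟨Or.inl (by rw [c3]; rfl), by omega, ?_⟩
      simp only [St, Bool.false_eq_true, if_false]
      rw [Nat.sub_zero, Nat.zero_add] at h6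
      refine ⟨?_, by omega, by omega⟩
      have h7 := h3.snoc le_rfl h6.2.2
      have e1 : jj * (m + 1) + m + 1 = (jj + 1) * (m + 1) := by rw [Nat.succ_mul]; omega
      rw [e1] at h7
      rw [h2]
      exact h7.row
    | succ i => simp [vtr1] at htr
  · obtain ⟨-, hy⟩ := uniq (m := m) (j := jj) (i := y) (j' := j) (i' := i2) (by omega)
      c3 (by omega)
    rw [c5] at htr
    cases i with
    | zero => simp [vtr1] at htr
    | succ i =>
      simp only [vtr1, Option.some.injEq, Prod.mk.injEq] at htr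
      obtain ⟨rfl, rfl, rfl⟩ := htr
      refine ⟨Or.inl (by rw [c5]; rfl), by omega, ?_⟩
      simp only [St, Bool.false_eq_true, if_false]
      have e1 : i + (m - (y - 1)) = i + 1 + (m - y) := by omega
      exact ⟨jj, y - 1, h1, h2, h3, by omega, by omega, by rw [e1]; exact h6⟩

theorem step_ve (h : TF m t A H Z F G T) {p : ℕ} {i : ℕ} {q' : VQ}
    {x : VA ⊕ VW} {d : Bool} (hK : K ≤ t * (m + 1)) (hst : St m t A H Z F G T K (.ve i) p)
    (htr : vtr1 m t (.ve i) (TK A H T K p) = some (q', x, d)) :
    Out m t A H Z F G T K p q' x d := by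
  obtain ⟨jj, y, h1, h2, h3, h4, h5, h6⟩ := hst
  left
  subst h4
  have h2' := h2
  rw [Nat.succ_mul] at h2'
  rcases h.marked (K := K) (k := jj * (m + 1) + y) (by omega) hK with ⟨j, c1, c2, c3⟩ |
    ⟨j, i2, c1, c2, c3, c4, c5⟩
  · obtain ⟨-, hy⟩ := uniq (m := m) (j := jj) (i := y) (j' := j) (i' := 0) (by omega)
      (Nat.zero_le _) (by omega)
    subst hy
    rw [c3] at htr
    cases i with
    | zero =>
      simp only [vtr1, Option.some.injEq, Prod.mk.injEq] at htr
      obtain ⟨rfl, rfl, rfl⟩ := htr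
      refine ⟨Or.inl (by rw [c3]; rfl), by omega, ?_⟩
      simp only [St]
      rw [Nat.sub_zero, Nat.zero_add] at h6
      have h7 := h3.snoc le_rfl h6.2.2
      have e1 : jj * (m + 1) + m + 1 = t * (m + 1) := by rw [← h1, Nat.succ_mul]; omega
      rw [e1] at h7
      exact ⟨by rw [h2, h1], h7⟩
    | succ i => simp [vtr1] at htr
  · obtain ⟨-, hy⟩ := uniq (m := m) (j := jj) (i := y) (j' := j) (i' := i2) (by omega)
      c3 (by omega)
    rw [c5] at htr
    cases i with
    | zero => simp [vtr1] at htr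
    | succ i =>
      simp only [vtr1, Option.some.injEq, Prod.mk.injEq] at htr
      obtain ⟨rfl, rfl, rfl⟩ := htr
      refine ⟨Or.inl (by rw [c5]; rfl), by omega, ?_⟩
      simp only [St, Bool.false_eq_true, if_false]
      have e1 : i + (m - (y - 1)) = i + 1 + (m - y) := by omega
      exact ⟨jj, y - 1, h1, h2, h3, by omega, by omega, by rw [e1]; exact h6⟩

theorem step_rw (h : TF m t A H Z F G T) {p : ℕ} {j : ℕ} {q' : VQ}
    {x : VA ⊕ VW} {d : Bool} (hK : K ≤ t * (m + 1)) (hst : St m t A H Z F G T K (.rw j) p)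
    (htr : vtr1 m t (.rw j) (TK A H T K p) = some (q', x, d)) :
    Out m t A H Z F G T K p q' x d := by
  obtain ⟨h1, h2, h3⟩ := hst
  have hAH : A < H := by have := h.hAZ; have := h.hZH; omega
  left
  rcases Nat.eq_or_lt_of_le h2 with hp | hp
  · subst hp
    have e : TK A H T K H = T H := tk_low (by omega) le_rfl
    rw [e, h.fH] at htr
    simp only [vtr1, Option.some.injEq, Prod.mk.injEq] at htr
    obtain ⟨rfl, rfl, rfl⟩ := htr
    refine ⟨Or.inl (by rw [e, h.fH]; rfl), by omega, ?_⟩
    simp only [St, if_true]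
    exact ⟨h1, by omega, by omega⟩
  · obtain ⟨k, rfl⟩ : ∃ k, p = H + 1 + k := ⟨p - (H + 1), by omega⟩
    rcases h.marked (K := K) (k := k) (by omega) hK with ⟨j, c1, c2, c3⟩ |
      ⟨j, i2, c1, c2, c3, c4, c5⟩
    · rw [c3] at htr
      simp only [vtr1] at htr
      split_ifs at htr with ht
      simp only [Option.some.injEq, Prod.mk.injEq] at htr
      obtain ⟨rfl, rfl, rfl⟩ := htr
      refine ⟨Or.inl (by rw [c3]; rfl), by omega, ?_⟩
      simp only [St, Bool.false_eq_true, if_false]
      exact ⟨h1, by omega, by omega⟩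
    · rw [c5] at htr
      simp only [vtr1, Option.some.injEq, Prod.mk.injEq] at htr
      obtain ⟨rfl, rfl, rfl⟩ := htr
      refine ⟨Or.inl (by rw [c5]; rfl), by omega, ?_⟩
      simp only [St, Bool.false_eq_true, if_false]
      exact ⟨h1, by omega, by omega⟩

theorem st_step (h : TF m t A H Z F G T) (hK : K ≤ t * (m + 1)) {q q' : VQ} {p : ℕ}
    {x : VA ⊕ VW} {d : Bool} (hst : St m t A H Z F G T K q p)
    (htr : vtr1 m t q (TK A H T K p) = some (q', x, d) ∨
      vtr2 q (TK A H T K p) = some (q', x, d)) :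
    Out m t A H Z F G T K p q' x d := by
  cases q with
  | scan => exact hst.elim
  | mid => exact step_mid h hst (htr.resolve_right (by simp [vtr2]))
  | fr => exact step_fr h hK hst (htr.resolve_right (by simp [vtr2]))
  | fin => exact step_fin hst (htr.resolve_right (by simp [vtr2]))
  | cj β j => exact step_cj h hst (htr.resolve_right (by simp [vtr2]))
  | lf β j => exact step_lf h hst (htr.resolve_right (by simp [vtr2]))
  | se β j => exact step_se h hst htr
  | ca β j => exact step_ca h hst (htr.resolve_right (by simp [vtr2]))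
  | cb β j => exact step_cb h hst (htr.resolve_right (by simp [vtr2]))
  | rt i => exact step_rt h hst (htr.resolve_right (by simp [vtr2]))
  | rh i => exact step_rh h hst (htr.resolve_right (by simp [vtr2]))
  | vk β i => exact step_vk h hst (htr.resolve_right (by simp [vtr2]))
  | vr i => exact step_vr h hK hst (htr.resolve_right (by simp [vtr2]))
  | ve i => exact step_ve h hK hst (htr.resolve_right (by simp [vtr2]))
  | rw j => exact step_rw h hK hst (htr.resolve_right (by simp [vtr2]))

/-- the new tape after the marking of the cell with the index `K` -/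
theorem tk_update (hAH : A < H) (p : ℕ) (hp : p = H + 1 + K) :
    Function.update (TK A H T K) p (.wrk (mk (T p))) = TK A H T (K + 1) := by
  subst hp
  funext i
  by_cases hi : i = H + 1 + K
  · subst hi
    rw [Function.update_self, tk_mark hAH.le (by omega) (by omega)]
  · rw [Function.update_of_ne hi]
    unfold TK
    by_cases h1 : i = A
    · rw [if_pos h1, if_pos h1]
    · rw [if_neg h1, if_neg h1]
      by_cases h2 : H < i ∧ i ≤ H + K
      · rw [if_pos h2, if_pos ⟨h2.1, by omega⟩]
      · rw [if_neg h2, if_neg (by omega)]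

end

/-! ### The test words -/

/-- the block of a flattened list that contains a given index -/
theorem flat_split {α β : Type} (f : α → List β) : ∀ (l : List α) (k : ℕ),
    k < (l.flatMap f).length → ∃ l1 x l2, l = l1 ++ x :: l2 ∧ (l1.flatMap f).length ≤ k ∧
      k < (l1.flatMap f).length + (f x).length := by
  intro l
  induction l with
  | nil => intro k hk; simp at hk
  | cons a l ih =>
    intro k hk
    rcases Nat.lt_or_ge k (f a).length with h1 | h1
    · exact ⟨[], a, l, rfl, by simp, by simpa using h1⟩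
    · have h2 : k - (f a).length < (l.flatMap f).length := by
        rw [List.flatMap_cons, List.length_append] at hk
        omega
      obtain ⟨l1, x, l2, e, h3, h4⟩ := ih _ h2
      refine ⟨a :: l1, x, l2, by rw [e]; rfl, ?_, ?_⟩
      · rw [List.flatMap_cons, List.length_append]; omega
      · rw [List.flatMap_cons, List.length_append]; omega

/-- rows of constant length -/
theorem rows {β : Type} (f : ℕ → List β) (c : ℕ) (hf : ∀ j, (f j).length = c) (t : ℕ) :
    ((List.range t).flatMap f).length = t * c ∧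
      ∀ j < t, ∀ o < c, ((List.range t).flatMap f)[j * c + o]? = (f j)[o]? := by
  induction t with
  | zero => simp
  | succ t ih =>
    obtain ⟨h1, h2⟩ := ih
    rw [List.range_succ, List.flatMap_append, List.flatMap_singleton]
    refine ⟨by rw [List.length_append, h1, hf, Nat.succ_mul], ?_⟩
    intro j hj o ho
    rcases Nat.lt_succ_iff_lt_or_eq.1 hj with hj' | hj'
    · have h3 : (j + 1) * c ≤ t * c := Nat.mul_le_mul_right _ hj'
      rw [Nat.succ_mul] at h3
      rw [List.getElem?_append_left (by omega)]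
      exact h2 j hj' o ho
    · subst hj'
      rw [List.getElem?_append_right (by omega), h1]
      congr 1
      omega

/-- the entries of a block -/
def body (m t : ℕ) (F : ℕ → ℕ → Bool) : List VA :=
  (List.range t).flatMap fun j => (List.range m).flatMap fun i => vE F (j + 1) (i + 1)

theorem vB_eq (m t : ℕ) (F : ℕ → ℕ → Bool) : vB m t F = VA.s :: body m t F := rfl

theorem vE_length (F : ℕ → ℕ → Bool) (j i : ℕ) : (vE F j i).length = j + i + 2 := by
  simp [vE]
  omega

theorem vE_mem {F : ℕ → ℕ → Bool} {j i : ℕ} {x : VA} (h : x ∈ vE F j i) :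
    x.blk = true ∧ x ≠ .s := by
  simp only [vE, List.mem_cons, List.mem_append, List.mem_replicate, List.not_mem_nil,
    or_false] at h
  rcases h with rfl | ⟨-, rfl⟩ | ⟨-, rfl⟩ | rfl <;> simp [VA.blk]

theorem body_mem {m t : ℕ} {F : ℕ → ℕ → Bool} {x : VA} (h : x ∈ body m t F) :
    x.blk = true ∧ x ≠ .s := by
  simp only [body, List.mem_flatMap, List.mem_range] at h
  obtain ⟨j, -, i, -, h⟩ := h
  exact vE_mem h

theorem vX_mem {m t : ℕ} {Fs : List (ℕ → ℕ → Bool)} {x : VA} (h : x ∈ vX m t Fs) :
    x.blk = true := by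
  simp only [vX, List.mem_flatMap] at h
  obtain ⟨F, -, h⟩ := h
  rw [vB_eq, List.mem_cons] at h
  rcases h with rfl | h
  · rfl
  · exact (body_mem h).1

theorem vY_mem {m t : ℕ} {G : ℕ → ℕ → Bool} {x : VA} (h : x ∈ vY m t G) : x ≠ .s := by
  simp only [vY, List.mem_cons, List.mem_flatMap, List.mem_range, List.mem_map] at h
  rcases h with rfl | ⟨j, -, rfl | ⟨i, -, rfl⟩⟩ <;> simp

theorem vE_c {F : ℕ → ℕ → Bool} {j i k : ℕ} (h : (vE F j i)[k]? = some VA.c) : k = 0 := by
  cases k with
  | zero => rfl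
  | succ k =>
    exfalso
    rw [vE, List.getElem?_cons_succ] at h
    have h1 := List.mem_of_getElem? h
    simp only [List.mem_append, List.mem_replicate, List.mem_singleton] at h1
    rcases h1 with ⟨-, h1⟩ | ⟨-, h1⟩ | h1 <;> cases h1

theorem vE_get {F : ℕ → ℕ → Bool} {j i : ℕ} :
    (∀ u < j, (vE F j i)[1 + u]? = some .a) ∧ (∀ u < i, (vE F j i)[1 + j + u]? = some .b) ∧
      (vE F j i)[1 + j + i]? = some (.d (F j i)) := by
  have e : ∀ u, (vE F j i)[u + 1]? =
      (List.replicate j VA.a ++ (List.replicate i VA.b ++ [VA.d (F j i)]))[u]? := by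
    intro u
    rw [vE, List.getElem?_cons_succ]
  refine ⟨?_, ?_, ?_⟩
  · intro u hu
    rw [Nat.add_comm, e, List.getElem?_append_left (by simpa using hu),
      List.getElem?_replicate, if_pos hu]
  · intro u hu
    have e1 : 1 + j + u = (j + u) + 1 := by ring
    rw [e1, e, List.getElem?_append_right (by simp), List.length_replicate,
      Nat.add_sub_cancel_left, List.getElem?_append_left (by simpa using hu),
      List.getElem?_replicate, if_pos hu]
  · have e1 : 1 + j + i = (j + i) + 1 := by ring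
    rw [e1, e, List.getElem?_append_right (by simp), List.length_replicate,
      Nat.add_sub_cancel_left, List.getElem?_append_right (by simp), List.length_replicate,
      Nat.sub_self]
    rfl

/-- every `c` of a block starts an entry -/
theorem body_c {m t : ℕ} {F : ℕ → ℕ → Bool} {k : ℕ} (h : (body m t F)[k]? = some VA.c) :
    ∃ j i P Q, 1 ≤ j ∧ j ≤ t ∧ 1 ≤ i ∧ i ≤ m ∧ body m t F = P ++ (vE F j i ++ Q) ∧
      P.length = k := by
  have hk : k < (body m t F).length := by
    by_contra hc
    rw [List.getElem?_eq_none (by omega)] at h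
    cases h
  obtain ⟨l1, j, l2, e1, h1, h2⟩ := flat_split _ _ _ hk
  have hj : j < t := by
    have : j ∈ List.range t := by rw [e1]; simp
    exact List.mem_range.1 this
  have e2 : body m t F = (l1.flatMap fun j => (List.range m).flatMap fun i =>
      vE F (j + 1) (i + 1)) ++ (((List.range m).flatMap fun i => vE F (j + 1) (i + 1)) ++
        (l2.flatMap fun j => (List.range m).flatMap fun i => vE F (j + 1) (i + 1))) := by
    rw [body, e1, List.flatMap_append, List.flatMap_cons]
  set P1 := l1.flatMap fun j => (List.range m).flatMap fun i => vE F (j + 1) (i + 1)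
  set Q1 := l2.flatMap fun j => (List.range m).flatMap fun i => vE F (j + 1) (i + 1)
  have h3 : k - P1.length < ((List.range m).flatMap fun i => vE F (j + 1) (i + 1)).length := by
    omega
  obtain ⟨l3, i, l4, e3, h4, h5⟩ := flat_split _ _ _ h3
  have hi : i < m := by
    have : i ∈ List.range m := by rw [e3]; simp
    exact List.mem_range.1 this
  have e4 : ((List.range m).flatMap fun i => vE F (j + 1) (i + 1)) =
      (l3.flatMap fun i => vE F (j + 1) (i + 1)) ++ (vE F (j + 1) (i + 1) ++
        (l4.flatMap fun i => vE F (j + 1) (i + 1))) := by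
    rw [e3, List.flatMap_append, List.flatMap_cons]
  set P2 := l3.flatMap fun i => vE F (j + 1) (i + 1)
  set Q2 := l4.flatMap fun i => vE F (j + 1) (i + 1)
  have e5 : body m t F = (P1 ++ P2) ++ (vE F (j + 1) (i + 1) ++ (Q2 ++ Q1)) := by
    rw [e2, e4]
    simp only [List.append_assoc]
  refine ⟨j + 1, i + 1, P1 ++ P2, Q2 ++ Q1, by omega, by omega, by omega, by omega, e5, ?_⟩
  rw [e5, List.getElem?_append_right (by rw [List.length_append]; omega),
    List.getElem?_append_left (by rw [List.length_append]; omega)] at h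
  have h6 := vE_c h
  rw [List.length_append] at h6 ⊢
  omega

section

variable {m t : ℕ} {w : List VA}

theorem iT_zero : (vm m t).initTape w 0 = .lend := by simp [Mach.initTape]

theorem iT_succ (i : ℕ) (y : VA) (h : w[i]? = some y) :
    (vm m t).initTape w (i + 1) = .inp y := by
  simp [Mach.initTape, h]

theorem iT_end (p : ℕ) (h : w.length < p) : (vm m t).initTape w p = .rend := by
  have h0 : p ≠ 0 := by omega
  have h1 : w[p - 1]? = none := List.getElem?_eq_none (by omega)
  simp [Mach.initTape, h0, h1]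

theorem iT_inv {i : ℕ} {y : VA} (h : (vm m t).initTape w (i + 1) = .inp y) :
    w[i]? = some y := by
  unfold Mach.initTape at h
  rw [if_neg (by omega), Nat.add_sub_cancel] at h
  cases hw : w[i]? with
  | none => rw [hw] at h; cases h
  | some z => rw [hw] at h; exact congrArg some (Sym.inp.inj h)

theorem iT_inp {p : ℕ} (h1 : 1 ≤ p) (h2 : p ≤ w.length) :
    ∃ y, (vm m t).initTape w p = .inp y := by
  obtain ⟨i, rfl⟩ : ∃ i, p = i + 1 := ⟨p - 1, by omega⟩
  exact ⟨_, iT_succ i _ (List.getElem?_eq_getElem (by omega))⟩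

end

/-- the layout of the input -/
theorem lay (m t : ℕ) (Fs l1 l2 : List (ℕ → ℕ → Bool)) (F G : ℕ → ℕ → Bool)
    (e : Fs = l1 ++ F :: l2) :
    TF m t ((vX m t l1).length + 1) ((vX m t Fs).length + 1)
      ((vX m t l1).length + 1 + (vB m t F).length) F G
      ((vm m t).initTape (vX m t Fs ++ vY m t G)) := by
  have eX : vX m t Fs = vX m t l1 ++ (vB m t F ++ vX m t l2) := by
    rw [e, vX, List.flatMap_append, List.flatMap_cons]
    rfl
  have lX : (vX m t Fs).length = (vX m t l1).length + ((vB m t F).length +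
      (vX m t l2).length) := by rw [eX, List.length_append, List.length_append]
  have lB : (vB m t F).length = (body m t F).length + 1 := by rw [vB_eq, List.length_cons]
  have hr := rows (fun j => VA.r :: (List.range m).map fun i => VA.d (G (j + 1) (i + 1)))
    (m + 1) (by intro j; simp) t
  have gY : ∀ j < t, ∀ o < m + 1, (vX m t Fs ++ vY m t G)[(vX m t Fs).length + 1 +
      (j * (m + 1) + o)]? =
      (VA.r :: (List.range m).map fun i => VA.d (G (j + 1) (i + 1)))[o]? := by
    intro j hj o ho
    rw [List.getElem?_append_right (by omega)]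
    have e1 : (vX m t Fs).length + 1 + (j * (m + 1) + o) - (vX m t Fs).length =
        (j * (m + 1) + o) + 1 := by omega
    rw [e1, vY, List.getElem?_cons_succ]
    exact hr.2 j hj o ho
  have gB : ∀ k < (vB m t F).length, (vX m t Fs ++ vY m t G)[(vX m t l1).length + k]? =
      (vB m t F)[k]? := by
    intro k hk
    rw [List.getElem?_append_left (by omega), eX, List.getElem?_append_right (by omega),
      Nat.add_sub_cancel_left, List.getElem?_append_left hk]
  refine ⟨by omega, by omega, by omega, ?_, ?_, ?_, ?_, ?_, ?_, ?_⟩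
  · apply iT_succ
    rw [List.getElem?_append_right le_rfl, Nat.sub_self]
    rfl
  · intro j hj
    have h1 := gY j hj 0 (by omega)
    rw [Nat.add_zero] at h1
    have e1 : (vX m t Fs).length + 1 + 1 + j * (m + 1) =
        ((vX m t Fs).length + 1 + j * (m + 1)) + 1 := by ring
    rw [e1]
    exact iT_succ _ _ h1
  · intro j hj i h1 h2
    have h3 := gY j hj i (by omega)
    have e1 : (vX m t Fs).length + 1 + 1 + (j * (m + 1) + i) =
        ((vX m t Fs).length + 1 + (j * (m + 1) + i)) + 1 := by ring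
    rw [e1]
    apply iT_succ _ _
    rw [h3]
    obtain ⟨i', rfl⟩ : ∃ i', i = i' + 1 := ⟨i - 1, by omega⟩
    rw [List.getElem?_cons_succ, List.getElem?_map, List.getElem?_range (by omega)]
    rfl
  · apply iT_end
    have : (vY m t G).length = t * (m + 1) + 1 := by
      rw [vY, List.length_cons]
      exact congrArg (· + 1) hr.1
    rw [List.length_append, this]
    omega
  · intro p h1 h2
    obtain ⟨i, rfl⟩ : ∃ i, p = i + 1 := ⟨p - 1, by omega⟩
    have h3 : i < (vX m t Fs).length := by omega
    have h4 : (vX m t Fs ++ vY m t G)[i]? = some ((vX m t Fs)[i]) := by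
      rw [List.getElem?_append_left h3, List.getElem?_eq_getElem h3]
    exact ⟨_, iT_succ _ _ h4, vX_mem (List.getElem_mem h3)⟩
  · cases l2 with
    | nil =>
      right
      have e1 : (vX m t l1).length + 1 + (vB m t F).length = (vX m t Fs).length + 1 := by
        rw [lX]
        simp [vX]
        omega
      rw [e1]
      apply iT_succ
      rw [List.getElem?_append_right le_rfl, Nat.sub_self]
      rfl
    | cons F' l3 =>
      left
      have e1 : (vX m t l1).length + 1 + (vB m t F).length =
          ((vX m t l1).length + (vB m t F).length) + 1 := by omega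
      have e2 : vX m t (F' :: l3) = VA.s :: (body m t F' ++ vX m t l3) := by
        simp only [vX, List.flatMap_cons, vB_eq, List.cons_append]
      rw [e1]
      apply iT_succ
      rw [List.getElem?_append_left (by rw [lX, e2, List.length_cons]; omega), eX,
        List.getElem?_append_right (by omega), Nat.add_sub_cancel_left,
        List.getElem?_append_right le_rfl, Nat.sub_self, e2]
      rfl
  · intro p h1 h2 h3
    obtain ⟨k, rfl⟩ : ∃ k, p = (vX m t l1).length + (k + 1) + 1 :=
      ⟨p - ((vX m t l1).length + 2), by omega⟩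
    have h4 := iT_inv h3
    rw [gB _ (by omega), vB_eq, List.getElem?_cons_succ] at h4
    obtain ⟨j, i, P, Q, a1, a2, a3, a4, a5, a6⟩ := body_c h4
    have lE := vE_length F j i
    have hlen : (body m t F).length = P.length + ((vE F j i).length + Q.length) := by
      rw [a5, List.length_append, List.length_append]
    have gE : ∀ u < (vE F j i).length, (vX m t Fs ++ vY m t G)[(vX m t l1).length +
        (k + u + 1)]? = (vE F j i)[u]? := by
      intro u hu
      rw [gB _ (by omega), vB_eq, List.getElem?_cons_succ, a5,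
        List.getElem?_append_right (by omega)]
      have e1 : k + u - P.length = u := by omega
      rw [e1, List.getElem?_append_left hu]
    obtain ⟨g1, g2, g3⟩ := vE_get (F := F) (j := j) (i := i)
    refine ⟨j, i, a1, a2, a3, a4, ?_, ?_, ?_, by omega⟩
    · intro u hu
      have e1 : (vX m t l1).length + (k + 1) + 1 + 1 + u =
          ((vX m t l1).length + (k + (1 + u) + 1)) + 1 := by ring
      rw [e1]
      apply iT_succ _ _
      rw [gE _ (by omega)]
      exact g1 u hu
    · intro u hu
      have e1 : (vX m t l1).length + (k + 1) + 1 + 1 + j + u =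
          ((vX m t l1).length + (k + (1 + j + u) + 1)) + 1 := by ring
      rw [e1]
      apply iT_succ _ _
      rw [gE _ (by omega)]
      exact g2 u hu
    · have e1 : (vX m t l1).length + (k + 1) + 1 + 1 + j + i =
          ((vX m t l1).length + (k + (1 + j + i) + 1)) + 1 := by ring
      rw [e1]
      apply iT_succ _ _
      rw [gE _ (by omega)]
      exact g3

/-- a separator is the start of a block -/
theorem is_s {m t : ℕ} {Fs : List (ℕ → ℕ → Bool)} {G : ℕ → ℕ → Bool} {p : ℕ} (hp : 1 ≤ p)
    (h : (vm m t).initTape (vX m t Fs ++ vY m t G) p = .inp .s) :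
    ∃ l1 F l2, Fs = l1 ++ F :: l2 ∧ p = (vX m t l1).length + 1 := by
  obtain ⟨i, rfl⟩ : ∃ i, p = i + 1 := ⟨p - 1, by omega⟩
  have h1 := iT_inv h
  rcases Nat.lt_or_ge i (vX m t Fs).length with h2 | h2
  · rw [List.getElem?_append_left h2] at h1
    obtain ⟨l1, F, l2, e, h3, h4⟩ := flat_split _ _ _ h2
    refine ⟨l1, F, l2, e, ?_⟩
    have eX : vX m t Fs = vX m t l1 ++ (vB m t F ++ vX m t l2) := by
      rw [e, vX, List.flatMap_append, List.flatMap_cons]
      rfl
    have h3' : (vX m t l1).length ≤ i := h3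
    have h4' : i < (vX m t l1).length + (vB m t F).length := h4
    rw [eX, List.getElem?_append_right h3', List.getElem?_append_left (by omega), vB_eq] at h1
    rcases Nat.eq_zero_or_pos (i - (vX m t l1).length) with h5 | h5
    · omega
    · exfalso
      obtain ⟨k, hk⟩ : ∃ k, i - (vX m t l1).length = k + 1 :=
        ⟨i - (vX m t l1).length - 1, by omega⟩
      rw [hk, List.getElem?_cons_succ] at h1
      exact (body_mem (List.mem_of_getElem? h1)).2 rfl
  · exfalso
    rw [List.getElem?_append_right h2] at h1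
    exact vY_mem (List.mem_of_getElem? h1) rfl

/-- the invariant -/
def Inv (m t : ℕ) (Fs : List (ℕ → ℕ → Bool)) (G : ℕ → ℕ → Bool) (c : (vm m t).Cfg) : Prop :=
  (c.st = VQ.scan ∧ c.tape = (vm m t).initTape (vX m t Fs ++ vY m t G) ∧ 1 ≤ c.pos ∧
    ∀ i ∈ c.seen, i < c.pos) ∨
  ∃ l1 F l2 K, Fs = l1 ++ F :: l2 ∧ K ≤ t * (m + 1) ∧
    c.tape = TK ((vX m t l1).length + 1) ((vX m t Fs).length + 1)
      ((vm m t).initTape (vX m t Fs ++ vY m t G)) K ∧
    (vX m t l1).length + 1 ∈ c.seen ∧
    (∀ i, (vX m t Fs).length + 1 < i → i ≤ (vX m t Fs).length + 1 + K → i ∈ c.seen) ∧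
    (∀ i ∈ c.seen, i ≤ (vX m t Fs).length + 1 + K ∨
      (vX m t Fs).length + 1 + t * (m + 1) < i) ∧
    St m t ((vX m t l1).length + 1) ((vX m t Fs).length + 1)
      ((vX m t l1).length + 1 + (vB m t F).length) F G
      ((vm m t).initTape (vX m t Fs ++ vY m t G)) K c.st c.pos

theorem w_length (m t : ℕ) (Fs : List (ℕ → ℕ → Bool)) (G : ℕ → ℕ → Bool) :
    (vX m t Fs ++ vY m t G).length = (vX m t Fs).length + 1 + t * (m + 1) := by
  have hr := rows (fun j => VA.r :: (List.range m).map fun i => VA.d (G (j + 1) (i + 1)))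
    (m + 1) (by intro j; simp) t
  have : (vY m t G).length = t * (m + 1) + 1 := by
    rw [vY, List.length_cons]
    exact congrArg (· + 1) hr.1
  rw [List.length_append, this]
  omega

theorem inv_step {m t : ℕ} {cv : Bool} {Fs : List (ℕ → ℕ → Bool)} {G : ℕ → ℕ → Bool}
    {c c' : (vm m t).Cfg} (hI : Inv m t Fs G c)
    (hs : (vm m t).Step cv (vX m t Fs ++ vY m t G).length c c') : Inv m t Fs G c' := by
  obtain ⟨hle, x, d, hδ, h0, hp, hw, hnw, hseen⟩ := hs
  obtain ⟨q, pos, tape, seen⟩ := c
  obtain ⟨q', pos', tape', seen'⟩ := c'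
  simp only at hle hδ h0 hp hw hnw hseen
  have hδ' : vtr1 m t q (tape pos) = some (q', x, d) ∨ vtr2 q (tape pos) = some (q', x, d) := hδ
  have hlen := w_length m t Fs G
  rcases hI with ⟨h1, h2, h3, h4⟩ | ⟨l1, F, l2, K, h1, h2, h3, h4, h5, h6, h7⟩
  · simp only at h1 h2 h3 h4
    subst h1
    have hfresh : pos ∉ seen := fun h => lt_irrefl _ (h4 pos h)
    rcases hδ' with h | h
    · left
      have hx : Sym.ofW x = tape pos ∧ q' = .scan ∧ d = true := by
        generalize tape pos = s at h
        cases s with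
        | inp y =>
          simp only [vtr1] at h
          split_ifs at h with hb
          simp only [Option.some.injEq, Prod.mk.injEq] at h
          obtain ⟨rfl, rfl, rfl⟩ := h
          exact ⟨rfl, rfl, rfl⟩
        | wrk u => simp [vtr1] at h
        | lend => simp [vtr1] at h
        | rend => simp [vtr1] at h
      obtain ⟨hx, rfl, rfl⟩ := hx
      have ht : tape' = tape := by
        by_cases hc : 1 ≤ pos ∧ pos ≤ (vX m t Fs ++ vY m t G).length ∧ pos ∉ seen
        · rw [hw hc, hx, Function.update_eq_self]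
        · exact (hnw hc).1
      rw [if_pos rfl] at hp
      refine ⟨rfl, by simp only; rw [ht, h2], by simp only; omega, ?_⟩
      intro i hi
      simp only at hi ⊢
      rw [hseen] at hi
      rcases hi with hi | hi
      · omega
      · have := h4 i hi; omega
    · right
      have hts : tape pos = .inp .s ∧ q' = .mid ∧ x = .inr .ms ∧ d = true := by
        generalize tape pos = s at h
        cases s with
        | inp y =>
          cases y <;> simp [vtr2] at h
          exact ⟨rfl, h.1.symm, h.2.1.symm, h.2.2⟩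
        | wrk u => simp [vtr2] at h
        | lend => simp [vtr2] at h
        | rend => simp [vtr2] at h
      obtain ⟨hts, rfl, rfl, rfl⟩ := hts
      rw [h2] at hts
      obtain ⟨l1, F, l2, e, hpe⟩ := is_s h3 hts
      have hL := lay m t Fs l1 l2 F G e
      have hAZ := hL.hAZ
      have hZH := hL.hZH
      have ht := hw ⟨h3, by omega, hfresh⟩
      refine ⟨l1, F, l2, 0, e, Nat.zero_le _, ?_, ?_, ?_, ?_, ?_⟩
      · simp only
        rw [ht, h2, hpe]
        funext i
        by_cases hi : i = (vX m t l1).length + 1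
        · rw [hi, Function.update_self, tk_A]
          rfl
        · rw [Function.update_of_ne hi]
          unfold TK
          rw [if_neg hi, if_neg (by omega)]
      · simp only
        rw [hseen, ← hpe]
        exact Or.inl rfl
      · intro i hi1 hi2
        omega
      · intro i hi
        simp only at hi
        rw [hseen] at hi
        left
        rcases hi with hi | hi
        · omega
        · have := h4 i hi; omega
      · simp only [St]
        rw [if_pos rfl] at hp
        exact ⟨trivial, by omega, by omega⟩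
  · simp only at h3 h4 h5 h6 h7
    right
    have hL := lay m t Fs l1 l2 F G h1
    have hAZ := hL.hAZ
    have hZH := hL.hZH
    rw [h3] at hδ'
    rcases st_step hL h2 h7 hδ' with ⟨g1, g2, g3⟩ | ⟨g1, g2, g3, g4⟩
    · have ht : tape' = tape := by
        by_cases hc : 1 ≤ pos ∧ pos ≤ (vX m t Fs ++ vY m t G).length ∧ pos ∉ seen
        · rw [hw hc]
          have hx : Sym.ofW x = tape pos := by
            rcases g1 with g1 | g1
            · rw [h3]; exact g1
            · exfalso
              obtain ⟨y, hy⟩ := iT_inp (m := m) (t := t) hc.1 hc.2.1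
              unfold TK at g1
              split_ifs at g1
              rw [hy] at g1
              cases g1
          rw [hx, Function.update_eq_self]
        · exact (hnw hc).1
      refine ⟨l1, F, l2, K, h1, h2, ?_, ?_, ?_, ?_, ?_⟩
      · simp only
        rw [ht, h3]
      · simp only
        rw [hseen]
        exact Or.inr h4
      · intro i hi1 hi2
        simp only
        rw [hseen]
        exact Or.inr (h5 i hi1 hi2)
      · intro i hi
        simp only at hi
        rw [hseen] at hi
        rcases hi with hi | hi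
        · rw [hi]; exact g2
        · exact h6 i hi
      · simp only
        rw [hp]
        exact g3
    · have hns : pos ∉ seen := by
        intro hc
        have := h6 pos hc
        omega
      have ht := hw ⟨by omega, by omega, hns⟩
      refine ⟨l1, F, l2, K + 1, h1, by omega, ?_, ?_, ?_, ?_, ?_⟩
      · simp only
        rw [ht, g3, h3]
        exact tk_update (by omega) pos g1
      · simp only
        rw [hseen]
        exact Or.inr h4
      · intro i hi1 hi2
        simp only
        rw [hseen]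
        rcases Nat.lt_or_ge i ((vX m t Fs).length + 1 + K + 1) with h8 | h8
        · exact Or.inr (h5 i hi1 (by omega))
        · exact Or.inl (by omega)
      · intro i hi
        simp only at hi
        rw [hseen] at hi
        rcases hi with hi | hi
        · left; omega
        · rcases h6 i hi with h8 | h8
          · left; omega
          · right; exact h8
      · simp only
        rw [hp]
        exact g4

end WitB1Aux

theorem vm_sound (m t : ℕ) (hm : 1 ≤ m) (ht : 1 ≤ t) (cv : Bool)
    (Fs : List (ℕ → ℕ → Bool)) (G : ℕ → ℕ → Bool)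
    (h : vX m t Fs ++ vY m t G ∈ (vm m t).lang cv) : ∃ F ∈ Fs, vEq m t F G := by
  obtain ⟨c, hr, hpos, hF⟩ := h
  have hI : WitB1Aux.Inv m t Fs G c := by
    clear hpos hF
    induction hr with
    | refl =>
      left
      exact ⟨rfl, rfl, le_rfl, fun i hi => hi.elim⟩
    | tail _ hs ih => exact WitB1Aux.inv_step ih hs
  have hq : c.st = VQ.fin := hF
  rcases hI with ⟨h1, _⟩ | ⟨l1, F, l2, K, h1, h2, h3, h4, h5, h6, h7⟩
  · rw [hq] at h1
    cases h1
  · rw [hq] at h7
    obtain ⟨_, hag⟩ := h7
    refine ⟨F, by rw [h1]; simp, ?_⟩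
    intro j i j1 j2 i1 i2
    obtain ⟨j', rfl⟩ : ∃ j', j = j' + 1 := ⟨j - 1, by omega⟩
    refine hag j' i (by omega) i1 i2 ?_
    have h8 : (j' + 1) * (m + 1) ≤ t * (m + 1) := Nat.mul_le_mul_right _ j2
    rw [Nat.succ_mul] at h8
    omega

end Pool.Agent.P0036f5b
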